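import Pool.Agent.Q20.RG.PolySys

set_option autoImplicit false

/-! # Additive equations over a prime field -/

namespace Pool.Agent.Q20.RG

open Finset Filter Polynomial
open Pool.Agent.W147.PS (ff)
open Pool.Agent.Q46.MH

section additive

variable {p : ℕ} [Fact p.Prime] {r : ℕ}

lemma char_sumJ {J : Type*} (s : Finset J) (f : J → ZMod p) : (ZMod.stdAddChar (∑ j ∈ s, f j) : ℂ) =
    ∏ j ∈ s, (ZMod.stdAddChar (f j) : ℂ) := by
  classical
  induction s using Finset.induction_on with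
  | empty => simp
  | insert a s ha ih => rw [sum_insert ha, prod_insert ha, AddChar.map_add_eq_mul, ih]

/-- the solutions of the additive equation -/
noncomputable def Ad (F : Fin r → (ZMod p)[X]) : Finset (Fin r → ZMod p) :=
  univ.filter (fun x => ∑ j, (F j).eval (x j) = 0)

lemma Ad_sum (F : Fin r → (ZMod p)[X]) (D : ℕ) (hF2 : ∀ j, 2 ≤ (F j).natDegree)
    (hFD : ∀ j, (F j).natDegree ≤ D) (hDp : D < p) (h : Fin r → ZMod p) :
    ‖(p : ℂ) * ∑ x ∈ Ad F, (ZMod.stdAddChar (∑ j, h j * x j) : ℂ) -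
      ∑ x : Fin r → ZMod p, (ZMod.stdAddChar (∑ j, h j * x j) : ℂ)‖ ≤ p * (D * Real.sqrt p) ^ r := by
  classical
  set E : ZMod p → ℂ := fun t => ∑ x : Fin r → ZMod p,
    (ZMod.stdAddChar (∑ j, (C t * F j + C (h j) * X).eval (x j)) : ℂ) with hE
  have e1 : (p : ℂ) * ∑ x ∈ Ad F, (ZMod.stdAddChar (∑ j, h j * x j) : ℂ) = ∑ t : ZMod p, E t := by
    rw [hE]
    unfold Ad
    simp only
    rw [sum_comm, mul_sum, sum_filter]
    refine sum_congr rfl fun x _ => ?_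
    have e2 : ∀ t : ZMod p, (ZMod.stdAddChar (∑ j, (C t * F j + C (h j) * X).eval (x j)) : ℂ) =
        (ZMod.stdAddChar ((∑ j, (F j).eval (x j)) * t) : ℂ) * (ZMod.stdAddChar (∑ j, h j * x j) : ℂ) := by
      intro t
      rw [← AddChar.map_add_eq_mul]
      congr 1
      rw [sum_mul, ← sum_add_distrib]
      refine sum_congr rfl fun j _ => ?_
      simp
      ring
    rw [sum_congr rfl (fun t _ => e2 t), ← sum_mul]
    split_ifs with h0
    · rw [h0]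
      simp [ZMod.card]
    · rw [sum_char_all h0, zero_mul]
  have e3 : E 0 = ∑ x : Fin r → ZMod p, (ZMod.stdAddChar (∑ j, h j * x j) : ℂ) := by
    rw [hE]
    simp
  have e4 : ∀ t : ZMod p, t ≠ 0 → ‖E t‖ ≤ (D * Real.sqrt p) ^ r := by
    intro t ht
    have e5 : E t = ∏ j, ∑ y : ZMod p, (ZMod.stdAddChar ((C t * F j + C (h j) * X).eval y) : ℂ) := by
      rw [Finset.prod_univ_sum, Fintype.piFinset_univ, hE]
      simp only
      exact sum_congr rfl fun x _ => char_sumJ _ _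
    rw [e5, norm_prod]
    have e6 : ∀ j : Fin r, ‖∑ y : ZMod p, (ZMod.stdAddChar ((C t * F j + C (h j) * X).eval y) : ℂ)‖ ≤
        D * Real.sqrt p := by
      intro j
      have h1 : (C t * F j).natDegree = (F j).natDegree := natDegree_C_mul ht
      have h2 : (C t * F j + C (h j) * X).natDegree = (F j).natDegree := by
        rw [natDegree_add_eq_left_of_natDegree_lt, h1]
        rw [h1]
        have := hF2 j
        exact lt_of_le_of_lt ((natDegree_C_mul_le _ _).trans natDegree_X_le) (by omega)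
      have h3 := hF2 j
      have h4 := hFD j
      refine (weil1 _ (by omega) (by omega)).trans ?_
      rw [h2]
      apply mul_le_mul_of_nonneg_right _ (Real.sqrt_nonneg _)
      exact_mod_cast h4
    refine (prod_le_prod (fun j _ => norm_nonneg _) fun j _ => e6 j).trans ?_
    rw [prod_const, card_univ, Fintype.card_fin]
  rw [e1, ← add_sum_erase univ _ (mem_univ (0 : ZMod p)), e3, add_sub_cancel_left]
  refine (norm_sum_le _ _).trans ?_
  refine (sum_le_sum (fun t ht => e4 t (ne_of_mem_erase ht))).trans ?_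
  rw [sum_const, nsmul_eq_mul]
  apply mul_le_mul_of_nonneg_right _ (by positivity)
  have : (univ.erase (0 : ZMod p)).card ≤ p := by
    refine (card_erase_le).trans ?_
    rw [card_univ, ZMod.card]
  exact_mod_cast this

lemma sum_lin {h : Fin r → ZMod p} (hh : h ≠ 0) :
    ∑ x : Fin r → ZMod p, (ZMod.stdAddChar (∑ j, h j * x j) : ℂ) = 0 := by
  have h1 := sum_dot (p := p) (t := 1) one_ne_zero hh
  rw [← h1]
  refine sum_congr rfl fun x _ => ?_
  congr 1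
  rw [one_mul, dotProduct]
  exact sum_congr rfl fun j _ => mul_comm _ _

end additive

/-- **additive equations** -/
theorem addmain (r D : ℕ) (hr : 3 ≤ r) (ε : ℝ) (hε : 0 < ε) (hε1 : ε ≤ 1) :
    ∃ κ : ℝ, 0 < κ ∧ ∃ p₀ : ℕ, ∀ p : ℕ, p₀ ≤ p → p.Prime →
    ∀ f : Fin r → ℤ[X], (∀ j, 2 ≤ (f j).natDegree ∧ (f j).natDegree ≤ D) →
    (∀ j, ¬ (p : ℤ) ∣ (f j).leadingCoeff) →
    ∀ A N : Fin r → ℕ, (∀ j, A j + N j ≤ p) → (∀ j, (p : ℝ) ^ ε ≤ N j) →
      (p : ℝ) ^ ((r : ℝ) / 2 + 1 + ε) ≤ ∏ j, (N j : ℝ) →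
      ∃ G : Finset (Fin r → ℕ),
        (∏ j, (N j : ℝ)) * (p : ℝ) ^ (-1 - ε) ≤ G.card ∧
        ∀ z ∈ G, (∀ j, A j ≤ z j ∧ z j < A j + N j) ∧ (p : ℤ) ∣ ∑ j, (f j).eval (z j : ℤ) ∧
          ∀ j, ∀ q : ℕ, q.Prime → κ * ff p < |(q : ℝ) - z j| := by
  classical
  have : Nonempty (Fin r) := ⟨⟨0, by omega⟩⟩
  obtain ⟨κ, hκ, p₁, h⟩ := primeSet (Fin r) (ε / 2) (by positivity) (by linarith)
  have e2 := (tendsto_natCast_atTop_atTop (R := ℝ)).eventually
    ((tendsto_rpow_atTop (show (0 : ℝ) < ε / 2 by positivity)).eventually_ge_atTop (2 * (D : ℝ) ^ r + 2))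
  obtain ⟨p₂, hp₂⟩ := e2.exists_forall_of_atTop
  refine ⟨κ, hκ, max (max p₁ p₂) (D + 1), ?_⟩
  intro p hp0 hp f hf hlc A N hAN hN hW
  have : Fact p.Prime := ⟨hp⟩
  have hpe := hp₂ p ((le_max_right _ _).trans ((le_max_left _ _).trans hp0))
  have hpD : D + 1 ≤ p := (le_max_right _ _).trans hp0
  have hp0' : (0 : ℝ) < p := by exact_mod_cast hp.pos
  have hp1 : (1 : ℝ) ≤ p := by exact_mod_cast hp.one_lt.le
  have hmono : ∀ x y : ℝ, x ≤ y → (p : ℝ) ^ x ≤ (p : ℝ) ^ y := fun x y h =>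
    Real.rpow_le_rpow_of_exponent_le hp1 h
  have hDr : (0 : ℝ) ≤ (D : ℝ) ^ r := by positivity
  set F : Fin r → (ZMod p)[X] := fun j => (f j).map (Int.castRingHom (ZMod p)) with hF
  have hdeg : ∀ j, (F j).natDegree = (f j).natDegree := by
    intro j
    rw [hF]
    apply natDegree_map_of_leadingCoeff_ne_zero
    intro h0
    apply hlc j
    rw [← ZMod.intCast_zmod_eq_zero_iff_dvd]
    exact h0
  have hr3 : (3 : ℝ) ≤ r := by exact_mod_cast hr
  have hsq : ((D : ℝ) * Real.sqrt p) ^ r = (D : ℝ) ^ r * (p : ℝ) ^ ((r : ℝ) / 2) := by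
    rw [mul_pow, Real.sqrt_eq_rpow, ← Real.rpow_natCast ((p : ℝ) ^ ((1 : ℝ) / 2)), ← Real.rpow_mul hp0'.le]
    congr 2
    ring
  have hsum := Ad_sum F D (fun j => by rw [hdeg]; exact (hf j).1) (fun j => by rw [hdeg]; exact (hf j).2)
    (by omega)
  rw [hsq] at hsum
  -- the number of points
  have hcard : (p : ℝ) ^ ((r : ℝ) - 1) / 2 ≤ (Ad F).card := by
    have g1 := hsum 0
    simp only [Pi.zero_apply, zero_mul, sum_const_zero, AddChar.map_zero_eq_one, sum_const, nsmul_eq_mul,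
      mul_one, card_univ, Fintype.card_fun, ZMod.card, Fintype.card_fin] at g1
    have g2 : (p : ℂ) * ((Ad F).card : ℂ) - ((p ^ r : ℕ) : ℂ) =
        (((p : ℝ) * (Ad F).card - (p : ℝ) ^ r : ℝ) : ℂ) := by
      push_cast
      ring
    rw [g2, Complex.norm_real, Real.norm_eq_abs] at g1
    have g3 := (abs_le.1 g1).1
    have g4 : (p : ℝ) ^ r = p * (p : ℝ) ^ ((r : ℝ) - 1) := by
      rw [← Real.rpow_natCast, mul_comm, ← Real.rpow_add_one hp0'.ne']
      congr 1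
      ring
    have g5 : (D : ℝ) ^ r * (p : ℝ) ^ ((r : ℝ) / 2) * 2 ≤ (p : ℝ) ^ ((r : ℝ) - 1) := by
      have g6 : 2 * (D : ℝ) ^ r ≤ (p : ℝ) ^ ((1 : ℝ) / 2) := by
        have : (p : ℝ) ^ (ε / 2) ≤ (p : ℝ) ^ ((1 : ℝ) / 2) := hmono _ _ (by linarith)
        linarith
      calc (D : ℝ) ^ r * (p : ℝ) ^ ((r : ℝ) / 2) * 2 = (p : ℝ) ^ ((r : ℝ) / 2) * (2 * (D : ℝ) ^ r) := by ring
        _ ≤ (p : ℝ) ^ ((r : ℝ) / 2) * (p : ℝ) ^ ((1 : ℝ) / 2) :=
            mul_le_mul_of_nonneg_left g6 (by positivity)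
        _ = (p : ℝ) ^ ((r : ℝ) / 2 + 1 / 2) := by rw [← Real.rpow_add hp0']
        _ ≤ _ := hmono _ _ (by linarith)
    rw [g4] at g3
    have g7 : (p : ℝ) * ((p : ℝ) ^ ((r : ℝ) - 1) / 2) ≤ p * (Ad F).card := by nlinarith
    exact le_of_mul_le_mul_left g7 hp0'
  have hPN : 0 ≤ ∏ j, (N j : ℝ) := by positivity
  have hpr : (p : ℝ) ^ r = (p : ℝ) ^ ((r : ℝ) - 1) * p := by
    rw [← Real.rpow_add_one hp0'.ne', ← Real.rpow_natCast]
    congr 1
    ring
  obtain ⟨G, hG1, hG2⟩ := h p ((le_max_left _ _).trans ((le_max_left _ _).trans hp0)) (Ad F)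
    ((D : ℝ) ^ r * (p : ℝ) ^ ((r : ℝ) / 2)) (by positivity) (by
      intro h0 hh0
      have g1 := hsum h0
      rw [sum_lin hh0, sub_zero, norm_mul, Complex.norm_natCast] at g1
      exact le_of_mul_le_mul_left g1 hp0')
    A N hAN (fun j => (hmono _ _ (by linarith)).trans (hN j)) (by
      rw [Fintype.card_fin, hpr]
      have e3 : (p : ℝ) ^ ((r : ℝ) / 2 + 1 + ε) =
          (p : ℝ) ^ ((r : ℝ) / 2) * p * ((p : ℝ) ^ (ε / 2) * (p : ℝ) ^ (ε / 2)) := by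
        rw [← Real.rpow_add hp0', ← Real.rpow_add_one hp0'.ne', ← Real.rpow_add hp0']
        congr 1
        ring
      rw [e3] at hW
      have e4 := mul_le_mul hW hcard (by positivity) hPN
      refine le_trans ?_ e4
      have : 0 ≤ (p : ℝ) ^ ((r : ℝ) / 2) * p * (p : ℝ) ^ (ε / 2) * (p : ℝ) ^ ((r : ℝ) - 1) := by positivity
      nlinarith)
  refine ⟨G, ?_, ?_⟩
  · refine le_trans ?_ hG1
    rw [Fintype.card_fin, hpr]
    have e6 : (p : ℝ) ^ (-1 - ε) = (p : ℝ)⁻¹ * ((p : ℝ) ^ (-(ε / 2)) * (p : ℝ) ^ (-(ε / 2))) := by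
      rw [← Real.rpow_add hp0', ← Real.rpow_neg_one, ← Real.rpow_add hp0']
      congr 1
      ring
    have e7 : 2 * (p : ℝ) ^ (-(ε / 2)) ≤ 1 := by
      rw [Real.rpow_neg hp0'.le, mul_inv_le_iff₀ (by positivity), one_mul]
      linarith
    have e8 : (p : ℝ)⁻¹ * (p : ℝ) ^ (-(ε / 2)) ≤
        (Ad F).card / ((p : ℝ) ^ ((r : ℝ) - 1) * p) := by
      rw [le_div_iff₀ (by positivity)]
      calc (p : ℝ)⁻¹ * (p : ℝ) ^ (-(ε / 2)) * ((p : ℝ) ^ ((r : ℝ) - 1) * p) =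
          (2 * (p : ℝ) ^ (-(ε / 2))) * ((p : ℝ) ^ ((r : ℝ) - 1) / 2) := by
            field_simp
        _ ≤ 1 * ((p : ℝ) ^ ((r : ℝ) - 1) / 2) := mul_le_mul_of_nonneg_right e7 (by positivity)
        _ ≤ _ := by rw [one_mul]; exact hcard
    rw [e6]
    calc (∏ j, (N j : ℝ)) * ((p : ℝ)⁻¹ * ((p : ℝ) ^ (-(ε / 2)) * (p : ℝ) ^ (-(ε / 2)))) =
        (∏ j, (N j : ℝ)) * ((p : ℝ)⁻¹ * (p : ℝ) ^ (-(ε / 2))) * (p : ℝ) ^ (-(ε / 2)) := by ring
      _ ≤ (∏ j, (N j : ℝ)) * ((Ad F).card / ((p : ℝ) ^ ((r : ℝ) - 1) * p)) *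
          (p : ℝ) ^ (-(ε / 2)) := by
          apply mul_le_mul_of_nonneg_right _ (by positivity)
          exact mul_le_mul_of_nonneg_left e8 hPN
      _ = _ := by ring
  · intro z hz
    obtain ⟨g1, g2, g3⟩ := hG2 z hz
    refine ⟨g1, ?_, g3⟩
    rw [Ad, mem_filter] at g2
    rw [← ZMod.intCast_zmod_eq_zero_iff_dvd, ← g2.2]
    push_cast
    refine sum_congr rfl fun j _ => ?_
    have h4 := Polynomial.eval_intCast_map (Int.castRingHom (ZMod p)) (f j) (z j : ℤ)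
    rw [Int.cast_natCast] at h4
    rw [hF]
    simp only
    rw [h4]
    rfl

end Pool.Agent.Q20.RG
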