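import Pool.Agent.Q20.RG.Prime
import Pool.Agent.Q46.MH.Dist

set_option autoImplicit false

/-! # Matrices with a prescribed determinant over a prime field -/

namespace Pool.Agent.Q20.RG

open Finset Filter Matrix
open Pool.Agent.W147.PS (ff)
open Pool.Agent.Q46.MH

section det

variable {p : ℕ} [Fact p.Prime] {n : ℕ}

/-- add to the column `k` the combination of the other columns -/
noncomputable def T (k : Fin n) (t : Fin n → ZMod p) (X : Matrix (Fin n) (Fin n) (ZMod p)) :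
    Matrix (Fin n) (Fin n) (ZMod p) :=
  X.updateCol k (fun a => X a k + ∑ l ∈ univ.erase k, t l * X a l)

lemma T_ne (k : Fin n) (t : Fin n → ZMod p) (X : Matrix (Fin n) (Fin n) (ZMod p)) {b : Fin n}
    (hb : b ≠ k) (a : Fin n) : T k t X a b = X a b := by
  unfold T
  rw [updateCol_ne hb]

lemma T_self (k : Fin n) (t : Fin n → ZMod p) (X : Matrix (Fin n) (Fin n) (ZMod p)) (a : Fin n) :
    T k t X a k = X a k + ∑ l ∈ univ.erase k, t l * X a l := by
  unfold T
  rw [updateCol_self]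

lemma T_det (k : Fin n) (t : Fin n → ZMod p) (X : Matrix (Fin n) (Fin n) (ZMod p)) :
    (T k t X).det = X.det := by
  unfold T
  rw [← cramer_apply]
  have h1 : (fun a => X a k + ∑ l ∈ univ.erase k, t l * X a l) =
      (fun a => X a k) + ∑ l ∈ univ.erase k, t l • (fun a => X a l) := by
    funext a
    simp [Finset.sum_apply]
  rw [h1, map_add, map_sum, Pi.add_apply, Finset.sum_apply, cramer_apply, updateCol_eq_self,
    sum_eq_zero, add_zero]
  intro l hl
  rw [map_smul, Pi.smul_apply, cramer_apply, det_zero_of_column_eq (ne_of_mem_erase hl), smul_zero]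
  intro a
  rw [updateCol_self, updateCol_ne (ne_of_mem_erase hl)]

lemma T_neg (k : Fin n) (t : Fin n → ZMod p) (X : Matrix (Fin n) (Fin n) (ZMod p)) :
    T k (-t) (T k t X) = X := by
  ext a b
  by_cases hb : b = k
  · subst hb
    rw [T_self, T_self, add_assoc, ← sum_add_distrib, sum_eq_zero, add_zero]
    intro l hl
    rw [T_ne _ _ _ (ne_of_mem_erase hl), Pi.neg_apply]
    ring
  · rw [T_ne _ _ _ hb, T_ne _ _ _ hb]

/-- the linear functionals at the other columns -/
def wv (h : Fin n × Fin n → ZMod p) (k : Fin n) (X : Matrix (Fin n) (Fin n) (ZMod p)) :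
    Fin n → ZMod p := fun l => if l = k then 0 else ∑ a, h (a, k) * X a l

lemma pair_T (h : Fin n × Fin n → ZMod p) (k : Fin n) (t : Fin n → ZMod p)
    (X : Matrix (Fin n) (Fin n) (ZMod p)) :
    ∑ z : Fin n × Fin n, h z * T k t X z.1 z.2 =
      ∑ z : Fin n × Fin n, h z * X z.1 z.2 + 1 * (t ⬝ᵥ wv h k X) := by
  rw [Fintype.sum_prod_type, Fintype.sum_prod_type]
  have h1 : ∀ a, ∑ b, h (a, b) * T k t X a b =
      ∑ b, h (a, b) * X a b + h (a, k) * ∑ l ∈ univ.erase k, t l * X a l := by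
    intro a
    rw [← add_sum_erase univ (fun b => h (a, b) * T k t X a b) (mem_univ k),
      ← add_sum_erase univ (fun b => h (a, b) * X a b) (mem_univ k), T_self]
    have h2 : ∑ b ∈ univ.erase k, h (a, b) * T k t X a b = ∑ b ∈ univ.erase k, h (a, b) * X a b :=
      sum_congr rfl fun b hb => by rw [T_ne _ _ _ (ne_of_mem_erase hb)]
    rw [h2]
    ring
  rw [sum_congr rfl (fun a _ => h1 a), sum_add_distrib]
  congr 1
  rw [one_mul, dotProduct, ← add_sum_erase univ (fun l => t l * wv h k X l) (mem_univ k)]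
  have h3 : t k * wv h k X k = 0 := by simp [wv]
  rw [h3, zero_add]
  have h4 : ∀ l ∈ univ.erase k, t l * wv h k X l = ∑ a, h (a, k) * (t l * X a l) := by
    intro l hl
    rw [wv, if_neg (ne_of_mem_erase hl), mul_sum]
    exact sum_congr rfl fun a _ => by ring
  rw [sum_congr rfl h4, sum_comm]
  exact sum_congr rfl fun a _ => by rw [mul_sum]

/-- the matrices with determinant `c` -/
noncomputable def Om (p n : ℕ) [Fact p.Prime] (c : ZMod p) : Finset (Matrix (Fin n) (Fin n) (ZMod p)) :=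
  univ.filter (fun X => X.det = c)

lemma det_sum (c : ZMod p) (h : Fin n × Fin n → ZMod p) (k : Fin n) :
    ‖∑ X ∈ Om p n c, (ZMod.stdAddChar (∑ z : Fin n × Fin n, h z * X z.1 z.2) : ℂ)‖ ≤
      ((Om p n c).filter (fun X => wv h k X = 0)).card := by
  have hp0 : (0 : ℝ) < (p : ℝ) ^ n := by
    have : (0 : ℝ) < p := by exact_mod_cast (Fact.out : p.Prime).pos
    positivity
  set S : ℂ := ∑ X ∈ Om p n c, (ZMod.stdAddChar (∑ z : Fin n × Fin n, h z * X z.1 z.2) : ℂ) with hS
  have h1 : ∀ t : Fin n → ZMod p, ∑ X ∈ Om p n c,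
      (ZMod.stdAddChar (∑ z : Fin n × Fin n, h z * T k t X z.1 z.2) : ℂ) = S := by
    intro t
    rw [hS]
    refine sum_nbij' (T k t) (T k (-t)) ?_ ?_ ?_ ?_ ?_
    · intro X hX
      rw [Om, mem_filter] at hX ⊢
      exact ⟨mem_univ _, by rw [T_det]; exact hX.2⟩
    · intro X hX
      rw [Om, mem_filter] at hX ⊢
      exact ⟨mem_univ _, by rw [T_det]; exact hX.2⟩
    · intro X _
      exact T_neg k t X
    · intro X _
      have := T_neg k (-t) X
      rwa [neg_neg] at this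
    · intro X _
      rfl
  have h2 : ((p : ℂ) ^ n) * S = ∑ X ∈ Om p n c,
      (ZMod.stdAddChar (∑ z : Fin n × Fin n, h z * X z.1 z.2) : ℂ) *
        ∑ t : Fin n → ZMod p, (ZMod.stdAddChar (1 * (t ⬝ᵥ wv h k X)) : ℂ) := by
    have e1 : ((p : ℂ) ^ n) * S = ∑ t : Fin n → ZMod p, ∑ X ∈ Om p n c,
        (ZMod.stdAddChar (∑ z : Fin n × Fin n, h z * T k t X z.1 z.2) : ℂ) := by
      rw [sum_congr rfl (fun t _ => h1 t), sum_const, card_univ, nsmul_eq_mul]
      simp [ZMod.card]
    rw [e1, sum_comm]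
    refine sum_congr rfl fun X _ => ?_
    rw [mul_sum]
    refine sum_congr rfl fun t _ => ?_
    rw [pair_T, AddChar.map_add_eq_mul]
  have h3 : ∀ X ∈ Om p n c, ‖(ZMod.stdAddChar (∑ z : Fin n × Fin n, h z * X z.1 z.2) : ℂ) *
        ∑ t : Fin n → ZMod p, (ZMod.stdAddChar (1 * (t ⬝ᵥ wv h k X)) : ℂ)‖ =
      if wv h k X = 0 then (p : ℝ) ^ n else 0 := by
    intro X _
    rw [norm_mul, norm_char, one_mul]
    split_ifs with hw
    · rw [hw]
      simp [ZMod.card]
    · rw [sum_dot one_ne_zero hw, norm_zero]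
  have h4 : (p : ℝ) ^ n * ‖S‖ ≤ (p : ℝ) ^ n * ((Om p n c).filter (fun X => wv h k X = 0)).card := by
    have e1 : (p : ℝ) ^ n * ‖S‖ = ‖((p : ℂ) ^ n) * S‖ := by
      rw [norm_mul, norm_pow, Complex.norm_natCast]
    rw [e1, h2]
    refine (norm_sum_le _ _).trans ?_
    rw [sum_congr rfl h3, ← sum_filter, sum_const, nsmul_eq_mul, mul_comm]
  exact le_of_mul_le_mul_left h4 hp0

lemma card_ne (m : ℕ) (a : Fin m) : Fintype.card {b : Fin m // b ≠ a} = m - 1 := by
  rw [Fintype.card_subtype_compl]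
  simp

lemma card_hyper {c : ZMod p} (hc : c ≠ 0) (h : Fin n × Fin n → ZMod p) (k a0 : Fin n)
    (ha0 : h (a0, k) ≠ 0) :
    ((Om p n c).filter (fun X => wv h k X = 0)).card ≤ p ^ (n * (n - 1)) := by
  classical
  set Ω' := (Om p n c).filter (fun X => wv h k X = 0) with hΩ'
  set f : Matrix (Fin n) (Fin n) (ZMod p) → ({a : Fin n // a ≠ a0} × {b : Fin n // b ≠ k} → ZMod p) :=
    fun X z => X z.1 z.2 with hf
  have h1 : Ω'.card ≤ p ^ (n - 1) * (Ω'.image f).card := by
    refine card_le_mul_card_image Ω' _ ?_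
    intro y hy
    obtain ⟨X0, hX0, rfl⟩ := mem_image.1 hy
    have hX0' := (mem_filter.1 (mem_filter.1 hX0).1).2
    -- a nonzero cofactor
    obtain ⟨a1, ha1⟩ : ∃ a1, cramer X0 (Pi.single a1 1) k ≠ 0 := by
      by_contra hcon
      push Not at hcon
      apply hc
      rw [← hX0']
      have e1 : X0.det = cramer X0 (fun a => X0 a k) k := by
        rw [cramer_apply, updateCol_eq_self]
      have e2 : (fun a => X0 a k) = ∑ a, X0 a k • (Pi.single a 1 : Fin n → ZMod p) := by
        funext a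
        simp [Finset.sum_apply, Pi.single_apply]
      rw [e1, e2, map_sum, Finset.sum_apply]
      refine sum_eq_zero fun a _ => ?_
      rw [map_smul, Pi.smul_apply, hcon a, smul_zero]
    have hcard : Fintype.card ({a : Fin n // a ≠ a1} → ZMod p) = p ^ (n - 1) := by
      rw [Fintype.card_fun, ZMod.card, card_ne]
    rw [← hcard, ← card_univ]
    refine card_le_card_of_injOn (fun X (a : {a : Fin n // a ≠ a1}) => X a k)
      (fun _ _ => mem_coe.2 (mem_univ _)) ?_
    -- equality outside of the column `k`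
    have hout : ∀ X, X ∈ Ω' → f X = f X0 → ∀ b, b ≠ k → ∀ a, X a b = X0 a b := by
      intro X hX hfX b hb a
      have g1 : ∀ a, a ≠ a0 → X a b = X0 a b := fun a ha => congrFun hfX (⟨a, ha⟩, ⟨b, hb⟩)
      by_cases ha : a = a0
      · subst ha
        have g2 := congrFun (mem_filter.1 hX).2 b
        have g3 := congrFun (mem_filter.1 hX0).2 b
        rw [wv, if_neg hb, Pi.zero_apply, ← add_sum_erase univ _ (mem_univ a)] at g2 g3
        have g4 : ∑ c ∈ univ.erase a, h (c, k) * X c b = ∑ c ∈ univ.erase a, h (c, k) * X0 c b :=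
          sum_congr rfl fun c hc => by rw [g1 c (ne_of_mem_erase hc)]
        rw [g4] at g2
        have g5 : h (a, k) * X a b = h (a, k) * X0 a b := by
          have := g2.trans g3.symm
          exact add_right_cancel this
        exact mul_left_cancel₀ ha0 g5
      · exact g1 a ha
    have hcr : ∀ X, X ∈ Ω' → f X = f X0 → ∀ u, cramer X u k = cramer X0 u k := by
      intro X hX hfX u
      rw [cramer_apply, cramer_apply]
      congr 1
      ext a b
      by_cases hb : b = k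
      · subst hb
        rw [updateCol_self, updateCol_self]
      · rw [updateCol_ne hb, updateCol_ne hb, hout X hX hfX b hb a]
    intro X hX X' hX' hXX
    rw [mem_coe, mem_filter] at hX hX'
    obtain ⟨hX1, hX2⟩ := hX
    obtain ⟨hX1', hX2'⟩ := hX'
    have g1 : ∀ a, a ≠ a1 → X a k = X' a k := fun a ha => congrFun hXX ⟨a, ha⟩
    have g2 : (fun a => X a k) = (fun a => X' a k) + (X a1 k - X' a1 k) • (Pi.single a1 1 : Fin n → ZMod p) := by
      funext a
      by_cases ha : a = a1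
      · subst ha
        simp
      · simp [ha, g1 a ha]
    have g3 : X.det = cramer X0 (fun a => X a k) k := by
      rw [← hcr X hX1 hX2, cramer_apply, updateCol_eq_self]
    have g4 : X'.det = cramer X0 (fun a => X' a k) k := by
      rw [← hcr X' hX1' hX2', cramer_apply, updateCol_eq_self]
    have g5 : X.det = X'.det := by
      rw [(mem_filter.1 (mem_filter.1 hX1).1).2, (mem_filter.1 (mem_filter.1 hX1').1).2]
    rw [g3, g4, g2, map_add, map_smul, Pi.add_apply, Pi.smul_apply, smul_eq_mul] at g5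
    have g6 : (X a1 k - X' a1 k) * cramer X0 (Pi.single a1 1) k = 0 := by
      have := sub_eq_zero.2 g5
      rwa [add_sub_cancel_left] at this
    have g7 : X a1 k = X' a1 k := by
      rcases mul_eq_zero.1 g6 with g8 | g8
      · exact sub_eq_zero.1 g8
      · exact absurd g8 ha1
    ext a b
    by_cases hb : b = k
    · subst hb
      by_cases ha : a = a1
      · rw [ha, g7]
      · exact g1 a ha
    · rw [hout X hX1 hX2 b hb a, hout X' hX1' hX2' b hb a]
  have h2 : (Ω'.image f).card ≤ p ^ ((n - 1) * (n - 1)) := by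
    refine (card_le_univ _).trans ?_
    rw [Fintype.card_fun, ZMod.card, Fintype.card_prod, card_ne, card_ne]
  calc Ω'.card ≤ p ^ (n - 1) * (Ω'.image f).card := h1
    _ ≤ p ^ (n - 1) * p ^ ((n - 1) * (n - 1)) := Nat.mul_le_mul_left _ h2
    _ = p ^ (n * (n - 1)) := by
        rw [← pow_add]
        congr 1
        rcases n with _ | n
        · rfl
        · simp only [Nat.add_sub_cancel]
          ring

/-- the number of the matrices with determinant `c` -/
lemma card_Om {c : ZMod p} (hc : c ≠ 0) (hn : 0 < n) :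
    (p : ℝ) ^ (n * n) ≤ 2 ^ n * p * (Om p n c).card := by
  classical
  have hpp : p.Prime := Fact.out
  have hp0 : (0 : ℝ) < p := by exact_mod_cast hpp.pos
  have hp2 : (2 : ℝ) ≤ p := by exact_mod_cast hpp.two_le
  -- the number of all invertible matrices
  have h1 : ((Nat.card (GL (Fin n) (ZMod p)) : ℕ) : ℝ) =
      ∏ i : Fin n, ((p : ℝ) ^ n - (p : ℝ) ^ (i : ℕ)) := by
    rw [Matrix.card_GL_field, ZMod.card]
    push_cast
    refine prod_congr rfl fun i _ => ?_
    rw [Nat.cast_sub (Nat.pow_le_pow_right hpp.pos i.2.le)]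
    push_cast
    rfl
  have h2 : ((p : ℝ) ^ n / 2) ^ n ≤ ∏ i : Fin n, ((p : ℝ) ^ n - (p : ℝ) ^ (i : ℕ)) := by
    have e1 : ((p : ℝ) ^ n / 2) ^ n = ∏ _i : Fin n, ((p : ℝ) ^ n / 2) := by
      rw [prod_const, card_univ, Fintype.card_fin]
    rw [e1]
    refine prod_le_prod (fun _ _ => by positivity) fun i _ => ?_
    have e2 : (p : ℝ) ^ (i : ℕ) ≤ (p : ℝ) ^ (n - 1) :=
      pow_le_pow_right₀ (by linarith) (by omega)
    have e3 : (p : ℝ) ^ n = (p : ℝ) ^ (n - 1) * p := by
      rw [← pow_succ]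
      congr 1
      omega
    have e4 : (0 : ℝ) < (p : ℝ) ^ (n - 1) := by positivity
    nlinarith
  -- the fibres of the determinant
  have hsurj : ∀ u : (ZMod p)ˣ, u ∈ Set.range (GeneralLinearGroup.det : GL (Fin n) (ZMod p) →* (ZMod p)ˣ) := by
    intro u
    have i0 : Fin n := ⟨0, hn⟩
    have hd : (Matrix.diagonal (Function.update (fun _ : Fin n => (1 : ZMod p)) i0 (u : ZMod p))).det =
        (u : ZMod p) := by
      rw [det_diagonal, prod_update_of_mem (mem_univ i0)]
      simp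
    refine ⟨GeneralLinearGroup.mkOfDetNeZero
      (Matrix.diagonal (Function.update (fun _ : Fin n => (1 : ZMod p)) i0 (u : ZMod p)))
      (by rw [hd]; exact u.ne_zero), ?_⟩
    apply Units.ext
    show (Matrix.diagonal (Function.update (fun _ : Fin n => (1 : ZMod p)) i0 (u : ZMod p))).det = u
    exact hd
  obtain ⟨c', hc'⟩ : ∃ c' : (ZMod p)ˣ, (c' : ZMod p) = c := ⟨Units.mk0 c hc, rfl⟩
  have h3 : Fintype.card (GL (Fin n) (ZMod p)) =
      Fintype.card (ZMod p)ˣ * (univ.filter (fun g : GL (Fin n) (ZMod p) =>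
        GeneralLinearGroup.det g = c')).card := by
    rw [← card_univ, card_eq_sum_card_fiberwise (f := fun g : GL (Fin n) (ZMod p) =>
      GeneralLinearGroup.det g) (t := univ) (fun _ _ => mem_coe.2 (mem_univ _)),
      sum_congr rfl (fun u _ => MonoidHom.card_fiber_eq_of_mem_range
        (GeneralLinearGroup.det : GL (Fin n) (ZMod p) →* (ZMod p)ˣ) (hsurj u) (hsurj c')),
      sum_const, card_univ, smul_eq_mul]
  have h4 : (univ.filter (fun g : GL (Fin n) (ZMod p) =>
        GeneralLinearGroup.det g = c')).card ≤ (Om p n c).card := by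
    refine card_le_card_of_injOn (fun g => (g : Matrix (Fin n) (Fin n) (ZMod p))) ?_ ?_
    · intro g hg
      rw [mem_coe, mem_filter] at hg
      rw [mem_coe, Om, mem_filter]
      refine ⟨mem_univ _, ?_⟩
      rw [← hc', ← hg.2]
      rfl
    · intro g _ g' _ h
      exact Units.ext h
  have h5 : (Fintype.card (ZMod p)ˣ : ℝ) ≤ p := by
    rw [ZMod.card_units]
    exact_mod_cast Nat.sub_le p 1
  have h6 : ((p : ℝ) ^ n / 2) ^ n ≤ p * (Om p n c).card := by
    refine h2.trans ?_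
    rw [← h1, Nat.card_eq_fintype_card, h3]
    push_cast
    have : ((univ.filter (fun g : GL (Fin n) (ZMod p) =>
        GeneralLinearGroup.det g = c')).card : ℝ) ≤ (Om p n c).card := by exact_mod_cast h4
    exact mul_le_mul h5 this (Nat.cast_nonneg _) hp0.le
  have h7 : (p : ℝ) ^ (n * n) = 2 ^ n * ((p : ℝ) ^ n / 2) ^ n := by
    rw [← mul_pow, mul_div_cancel₀ _ (by norm_num), ← pow_mul]
  rw [h7, mul_assoc]
  exact mul_le_mul_of_nonneg_left h6 (by positivity)

end det

/-- **matrices with a prescribed determinant modulo `p`** -/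
theorem detmain (n : ℕ) (hn : 2 ≤ n) (ε : ℝ) (hε : 0 < ε) (hε1 : ε ≤ 1) :
    ∃ κ : ℝ, 0 < κ ∧ ∃ p₀ : ℕ, ∀ p : ℕ, p₀ ≤ p → p.Prime → ∀ c : ℤ, ¬ (p : ℤ) ∣ c →
    ∀ A N : Fin n → Fin n → ℕ, (∀ a b, A a b + N a b ≤ p) → (∀ a b, (p : ℝ) ^ ε ≤ N a b) →
      (p : ℝ) ^ ((n : ℝ) * n - n + 1 + ε) ≤ ∏ a, ∏ b, (N a b : ℝ) →
      ∃ G : Finset (Matrix (Fin n) (Fin n) ℕ),
        (∏ a, ∏ b, (N a b : ℝ)) * (p : ℝ) ^ (-1 - ε) ≤ G.card ∧
        ∀ Z ∈ G, (∀ a b, A a b ≤ Z a b ∧ Z a b < A a b + N a b) ∧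
          (p : ℤ) ∣ (Z.map (fun z : ℕ => (z : ℤ))).det - c ∧
          ∀ a b, ∀ q : ℕ, q.Prime → κ * ff p < |(q : ℝ) - Z a b| := by
  classical
  have : Nonempty (Fin n × Fin n) := ⟨(⟨0, by omega⟩, ⟨0, by omega⟩)⟩
  obtain ⟨κ, hκ, p₁, h⟩ := primeJ (Fin n × Fin n) (ε / 2) (by positivity) (by linarith)
  have e2 := (tendsto_natCast_atTop_atTop (R := ℝ)).eventually
    ((tendsto_rpow_atTop (show (0 : ℝ) < ε / 2 by positivity)).eventually_ge_atTop (2 ^ n))
  obtain ⟨p₂, hp₂⟩ := e2.exists_forall_of_atTop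
  refine ⟨κ, hκ, max p₁ p₂, ?_⟩
  intro p hp0 hp c hc A N hAN hN hW
  have : Fact p.Prime := ⟨hp⟩
  have hpe := hp₂ p ((le_max_right _ _).trans hp0)
  have hp0' : (0 : ℝ) < p := by exact_mod_cast hp.pos
  have hp1 : (1 : ℝ) ≤ p := by exact_mod_cast hp.one_lt.le
  have hmono : ∀ x y : ℝ, x ≤ y → (p : ℝ) ^ x ≤ (p : ℝ) ^ y := fun x y h =>
    Real.rpow_le_rpow_of_exponent_le hp1 h
  have hcu : (c : ZMod p) ≠ 0 := by
    intro h1
    exact hc ((ZMod.intCast_zmod_eq_zero_iff_dvd c p).1 h1)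
  have hOm := card_Om (n := n) hcu (by omega)
  have hcardJ : Fintype.card (Fin n × Fin n) = n * n := by simp
  have hpos : (0 : ℝ) ≤ (Om p n (c : ZMod p)).card := Nat.cast_nonneg _
  have hprod : ∏ z : Fin n × Fin n, (N z.1 z.2 : ℝ) = ∏ a, ∏ b, (N a b : ℝ) := by
    rw [Fintype.prod_prod_type]
  have hPN : 0 ≤ ∏ a, ∏ b, (N a b : ℝ) := by positivity
  have key := h p ((le_max_left _ _).trans hp0) (Matrix (Fin n) (Fin n) (ZMod p))
    (Om p n (c : ZMod p)) (fun X z => X z.1 z.2) ((p : ℝ) ^ (n * (n - 1))) (by positivity) (by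
      intro h0 hh0
      obtain ⟨z, hz⟩ := Function.ne_iff.1 hh0
      refine (det_sum (c : ZMod p) h0 z.2).trans ?_
      exact_mod_cast card_hyper hcu h0 z.2 z.1 hz)
    (fun z => A z.1 z.2) (fun z => N z.1 z.2) (fun z => hAN z.1 z.2)
    (fun z => (hmono _ _ (by linarith)).trans (hN z.1 z.2)) (by
      rw [hprod, hcardJ]
      have e3 : (p : ℝ) ^ ((n : ℝ) * n - n + 1 + ε) =
          (p : ℝ) ^ (n * (n - 1)) * p * ((p : ℝ) ^ (ε / 2) * (p : ℝ) ^ (ε / 2)) := by
        rw [← Real.rpow_add hp0', ← Real.rpow_natCast, ← Real.rpow_add_one hp0'.ne',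
          ← Real.rpow_add hp0']
        congr 1
        push_cast [Nat.cast_sub (show 1 ≤ n by omega)]
        ring
      rw [e3] at hW
      have e4 := mul_le_mul hW hOm (by positivity) hPN
      have e5 : (2 : ℝ) ^ n * p * ((p : ℝ) ^ (n * (n - 1)) * (p : ℝ) ^ (ε / 2) * (p : ℝ) ^ (n * n)) ≤
          (2 : ℝ) ^ n * p * ((∏ a, ∏ b, (N a b : ℝ)) * (Om p n (c : ZMod p)).card) := by
        calc _ ≤ (p : ℝ) ^ (n * (n - 1)) * p * ((p : ℝ) ^ (ε / 2) * (p : ℝ) ^ (ε / 2)) * (p : ℝ) ^ (n * n) := by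
              have : 0 ≤ (p : ℝ) ^ (n * (n - 1)) * p * (p : ℝ) ^ (ε / 2) * (p : ℝ) ^ (n * n) := by positivity
              nlinarith
          _ ≤ _ := e4
          _ = _ := by ring
      exact le_of_mul_le_mul_left e5 (by positivity))
  refine ⟨(goodJ (κ * ff p) (Om p n (c : ZMod p)) (fun (X : Matrix (Fin n) (Fin n) (ZMod p)) z =>
    (X z.1 z.2).val) (fun z : Fin n × Fin n => A z.1 z.2) (fun z : Fin n × Fin n => N z.1 z.2)).image
    (fun X => X.map (fun z => z.val)), ?_, ?_⟩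
  · rw [card_image_of_injective]
    · refine le_trans ?_ key
      rw [hprod, hcardJ]
      have e6 : (p : ℝ) ^ (-1 - ε) = (p : ℝ)⁻¹ * ((p : ℝ) ^ (-(ε / 2)) * (p : ℝ) ^ (-(ε / 2))) := by
        rw [← Real.rpow_add hp0', ← Real.rpow_neg_one, ← Real.rpow_add hp0']
        congr 1
        ring
      have e7 : (2 : ℝ) ^ n * (p : ℝ) ^ (-(ε / 2)) ≤ 1 := by
        rw [Real.rpow_neg hp0'.le, mul_inv_le_iff₀ (by positivity), one_mul]
        exact hpe
      have e8 : (p : ℝ)⁻¹ * (p : ℝ) ^ (-(ε / 2)) ≤ (Om p n (c : ZMod p)).card / (p : ℝ) ^ (n * n) := by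
        rw [le_div_iff₀ (by positivity)]
        calc (p : ℝ)⁻¹ * (p : ℝ) ^ (-(ε / 2)) * (p : ℝ) ^ (n * n) ≤
            (p : ℝ)⁻¹ * (p : ℝ) ^ (-(ε / 2)) * (2 ^ n * p * (Om p n (c : ZMod p)).card) :=
              mul_le_mul_of_nonneg_left hOm (by positivity)
          _ = ((2 : ℝ) ^ n * (p : ℝ) ^ (-(ε / 2))) * (Om p n (c : ZMod p)).card := by
              field_simp
          _ ≤ _ := by
              have := mul_le_mul_of_nonneg_right e7 hpos
              linarith
      rw [e6]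
      calc (∏ a, ∏ b, (N a b : ℝ)) * ((p : ℝ)⁻¹ * ((p : ℝ) ^ (-(ε / 2)) * (p : ℝ) ^ (-(ε / 2)))) =
          (∏ a, ∏ b, (N a b : ℝ)) * ((p : ℝ)⁻¹ * (p : ℝ) ^ (-(ε / 2))) * (p : ℝ) ^ (-(ε / 2)) := by ring
        _ ≤ (∏ a, ∏ b, (N a b : ℝ)) * ((Om p n (c : ZMod p)).card / (p : ℝ) ^ (n * n)) *
            (p : ℝ) ^ (-(ε / 2)) := by
            apply mul_le_mul_of_nonneg_right _ (by positivity)
            exact mul_le_mul_of_nonneg_left e8 hPN
        _ = _ := by ring
    · intro X Y hXY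
      ext a b
      have := congrFun (congrFun hXY a) b
      exact ZMod.val_injective p this
  · intro Z hZ
    obtain ⟨X, hX, rfl⟩ := mem_image.1 hZ
    obtain ⟨h1, h2⟩ := mem_goodJ.1 hX
    refine ⟨fun a b => mem_Ico.1 (h2 (a, b)).1, ?_, fun a b => (h2 (a, b)).2⟩
    rw [← ZMod.intCast_zmod_eq_zero_iff_dvd, Int.cast_sub]
    have e1 : (((X.map (fun z => z.val)).map (fun z : ℕ => (z : ℤ))).det : ZMod p) = X.det := by
      rw [Int.cast_det, Matrix.map_map, Matrix.map_map]
      congr 1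
      ext a b
      simp
    rw [e1, (mem_filter.1 h1).2, sub_self]

end Pool.Agent.Q20.RG
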