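import Pool.Agent.Q20.RG.CSPrime
import Pool.Agent.Q20.RG.Det

set_option autoImplicit false

/-! # Matrices with a prescribed determinant over a prime field, all entries with a property given by a criterion -/

namespace Pool.Agent.Q20.RG

open Finset Filter Matrix
open Pool.Agent.Q46.MH
open Pool.Agent.Q46.SL (CS)

open Classical in
/-- **matrices with a prescribed determinant modulo `p`, criterion version** -/
theorem detC {Θ : Type} (Q : Θ → ℝ → ℝ → ℤ → Prop) (lam : ℝ → ℝ) (n : ℕ) (hn : 2 ≤ n)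
    (hQ : CS Q lam (n * n)) (ε : ℝ) (hε : 0 < ε) (hε1 : ε ≤ 1) :
    ∃ κ : ℝ, 0 < κ ∧ ∃ cc : ℝ, 0 < cc ∧ ∃ p₀ : ℕ, ∀ p : ℕ, p₀ ≤ p → p.Prime → ∀ θ : Θ, ∀ c : ℤ, ¬ (p : ℤ) ∣ c →
    ∀ A N : Fin n → Fin n → ℕ, (∀ a b, A a b + N a b ≤ p) → (∀ a b, (p : ℝ) ^ ε ≤ N a b) →
      (p : ℝ) ^ ((n : ℝ) * n - n + 1 + ε) ≤ ∏ a, ∏ b, (N a b : ℝ) →
      ∃ G : Finset (Matrix (Fin n) (Fin n) ℕ),
        cc * ((∏ a, ∏ b, (N a b : ℝ)) / p) * lam p ≤ G.card ∧
        ∀ Z ∈ G, (∀ a b, A a b ≤ Z a b ∧ Z a b < A a b + N a b) ∧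
          (p : ℤ) ∣ (Z.map (fun z : ℕ => (z : ℤ))).det - c ∧
          ∀ a b, Q θ κ p (Z a b) := by
  have hcardJ : Fintype.card (Fin n × Fin n) = n * n := by simp
  obtain ⟨κ, hκ, c1, hc1, p₁, h⟩ := primeC Q lam (Fin n × Fin n) (by rw [hcardJ]; exact hQ) (ε / 2) (by positivity)
    (by linarith)
  have e2 := (tendsto_natCast_atTop_atTop (R := ℝ)).eventually
    ((tendsto_rpow_atTop (show (0 : ℝ) < ε / 2 by positivity)).eventually_ge_atTop (2 ^ n))
  obtain ⟨p₂, hp₂⟩ := e2.exists_forall_of_atTop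
  refine ⟨κ, hκ, c1 / 2 ^ n, by positivity, max p₁ p₂, ?_⟩
  intro p hp0 hp θ c hc A N hAN hN hW
  have : Fact p.Prime := ⟨hp⟩
  have hpe := hp₂ p ((le_max_right _ _).trans hp0)
  have hp0' : (0 : ℝ) < p := by exact_mod_cast hp.pos
  have hp1 : (1 : ℝ) ≤ p := by exact_mod_cast hp.one_lt.le
  have hmono : ∀ x y : ℝ, x ≤ y → (p : ℝ) ^ x ≤ (p : ℝ) ^ y := fun x y h =>
    Real.rpow_le_rpow_of_exponent_le hp1 h
  have hcu : (c : ZMod p) ≠ 0 := by
    intro h1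
    exact hc ((ZMod.intCast_zmod_eq_zero_iff_dvd c p).1 h1)
  have hOm := card_Om (n := n) hcu (by omega)
  have hprod : ∏ z : Fin n × Fin n, (N z.1 z.2 : ℝ) = ∏ a, ∏ b, (N a b : ℝ) := by
    rw [Fintype.prod_prod_type]
  have hPN : 0 ≤ ∏ a, ∏ b, (N a b : ℝ) := by positivity
  have key := (h p ((le_max_left _ _).trans hp0)).2 θ (Matrix (Fin n) (Fin n) (ZMod p))
    (Om p n (c : ZMod p)) (fun X z => X z.1 z.2) ((p : ℝ) ^ (n * (n - 1)))
    ((p : ℝ) ^ (n * n) / (2 ^ n * p)) (by positivity)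
    (by
      rw [div_le_iff₀ (by positivity)]
      exact hOm.trans (le_of_eq (by ring))) (by
      intro h0 hh0
      obtain ⟨z, hz⟩ := Function.ne_iff.1 hh0
      refine (det_sum (c : ZMod p) h0 z.2).trans ?_
      exact_mod_cast card_hyper hcu h0 z.2 z.1 hz)
    (fun z => A z.1 z.2) (fun z => N z.1 z.2) (fun z => hAN z.1 z.2)
    (fun z => (hmono _ _ (by linarith)).trans (hN z.1 z.2)) (by
      rw [hprod, hcardJ, mul_div_assoc', le_div_iff₀ (by positivity)]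
      have e3 : (p : ℝ) ^ ((n : ℝ) * n - n + 1 + ε) =
          (p : ℝ) ^ (n * (n - 1)) * p * ((p : ℝ) ^ (ε / 2) * (p : ℝ) ^ (ε / 2)) := by
        rw [← Real.rpow_add hp0', ← Real.rpow_natCast, ← Real.rpow_add_one hp0'.ne',
          ← Real.rpow_add hp0']
        congr 1
        push_cast [Nat.cast_sub (show 1 ≤ n by omega)]
        ring
      rw [e3] at hW
      have e4 := mul_le_mul_of_nonneg_right hW (show (0 : ℝ) ≤ (p : ℝ) ^ (n * n) by positivity)
      calc (p : ℝ) ^ (n * (n - 1)) * (p : ℝ) ^ (ε / 2) * (p : ℝ) ^ (n * n) * (2 ^ n * p) =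
          (p : ℝ) ^ (n * (n - 1)) * p * ((p : ℝ) ^ (ε / 2) * 2 ^ n) * (p : ℝ) ^ (n * n) := by ring
        _ ≤ (p : ℝ) ^ (n * (n - 1)) * p * ((p : ℝ) ^ (ε / 2) * (p : ℝ) ^ (ε / 2)) * (p : ℝ) ^ (n * n) := by
            apply mul_le_mul_of_nonneg_right _ (by positivity)
            apply mul_le_mul_of_nonneg_left _ (by positivity)
            exact mul_le_mul_of_nonneg_left hpe (by positivity)
        _ ≤ _ := e4)
  refine ⟨(goodP (Q θ κ p) (Om p n (c : ZMod p)) (fun (X : Matrix (Fin n) (Fin n) (ZMod p)) z =>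
    (X z.1 z.2).val) (fun z : Fin n × Fin n => A z.1 z.2) (fun z : Fin n × Fin n => N z.1 z.2)).image
    (fun X => X.map (fun z => z.val)), ?_, ?_⟩
  · rw [card_image_of_injective]
    · refine le_trans (le_of_eq ?_) key
      rw [hprod, hcardJ]
      field_simp
    · intro X Y hXY
      ext a b
      have := congrFun (congrFun hXY a) b
      exact ZMod.val_injective p this
  · intro Z hZ
    obtain ⟨X, hX, rfl⟩ := mem_image.1 hZ
    obtain ⟨h1, h2⟩ := mem_goodP.1 hX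
    refine ⟨fun a b => mem_Ico.1 (h2 (a, b)).1, ?_, fun a b => (h2 (a, b)).2⟩
    rw [← ZMod.intCast_zmod_eq_zero_iff_dvd, Int.cast_sub]
    have e1 : (((X.map (fun z => z.val)).map (fun z : ℕ => (z : ℤ))).det : ZMod p) = X.det := by
      rw [Int.cast_det, Matrix.map_map, Matrix.map_map]
      congr 1
      ext a b
      simp
    rw [e1, (mem_filter.1 h1).2, sub_self]

end Pool.Agent.Q20.RG
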