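import Pool.Agent.Q20.RG.Prime
import Pool.Agent.Q46.SL.Graph

set_option autoImplicit false

/-! # Families of vectors over a prime field, all coordinates with a property given by a criterion -/

namespace Pool.Agent.Q20.RG

open Finset Filter
open Pool.Agent.H469R2.NK (e norm_e e_add)
open Pool.Agent.Q46.MH
open Pool.Agent.Q46.SL (CS)

open Classical in
/-- the members of `Ω` with `A j ≤ x j < A j + N j` for all `j`, and all `x j` in `P` -/
noncomputable def goodP {J : Type} {ι : Type*} (P : ℤ → Prop) (Ω : Finset ι) (x : ι → J → ℕ) (A N : J → ℕ) : Finset ι :=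
  Ω.filter (fun i => ∀ j, x i j ∈ Ico (A j) (A j + N j) ∧ P (x i j))

open Classical in
lemma mem_goodP {J : Type} {ι : Type*} {P : ℤ → Prop} {Ω : Finset ι} {x : ι → J → ℕ} {A N : J → ℕ} {i : ι} :
    i ∈ goodP P Ω x A N ↔ i ∈ Ω ∧ ∀ j, x i j ∈ Ico (A j) (A j + N j) ∧ P (x i j) := by
  simp [goodP]

open Classical in
/-- **families of vectors over a prime field, criterion version** -/
theorem primeC {Θ : Type} (Q : Θ → ℝ → ℝ → ℤ → Prop) (lam : ℝ → ℝ) (J : Type) [Fintype J] [DecidableEq J]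
    (hQ : CS Q lam (Fintype.card J)) (ε : ℝ) (hε : 0 < ε) (hε1 : ε ≤ 1) :
    ∃ κ : ℝ, 0 < κ ∧ ∃ cc : ℝ, 0 < cc ∧ ∃ p₀ : ℕ, ∀ p : ℕ, p₀ ≤ p → 0 ≤ lam p ∧ ∀ [Fact p.Prime],
    ∀ θ : Θ, ∀ (ι : Type) (Ω : Finset ι) (x : ι → J → ZMod p) (B L : ℝ), 0 ≤ B → L ≤ Ω.card →
    (∀ h : J → ZMod p, h ≠ 0 → ‖∑ i ∈ Ω, (ZMod.stdAddChar (∑ j, h j * x i j) : ℂ)‖ ≤ B) →
    ∀ A N : J → ℕ, (∀ j, A j + N j ≤ p) → (∀ j, (p : ℝ) ^ ε ≤ N j) →
      B * (p : ℝ) ^ ε * (p : ℝ) ^ Fintype.card J ≤ (∏ j, (N j : ℝ)) * L →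
      cc * ((∏ j, (N j : ℝ)) * L / (p : ℝ) ^ Fintype.card J) * lam p ≤
        (goodP (Q θ κ p) Ω (fun i j => (x i j).val) A N).card := by
  set r : ℕ := Fintype.card J with hr
  obtain ⟨σ⟩ : Nonempty (J ≃ Fin r) := ⟨Fintype.equivFin J⟩
  obtain ⟨κ, hκ, cc, hcc, hg⟩ := Pool.Agent.Q46.SL.graphR Q lam r hQ ε hε hε1
  have e1 := (tendsto_natCast_atTop_atTop (R := ℝ)).eventually hg
  obtain ⟨p₀, hp₀⟩ := (e1.and (eventually_ge_atTop 2)).exists_forall_of_atTop
  refine ⟨κ, hκ, cc, hcc, p₀, ?_⟩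
  intro p hp0
  obtain ⟨⟨glam, g1⟩, g2⟩ := hp₀ p hp0
  refine ⟨glam, ?_⟩
  intro _ θ ι Ω x B L hB hL hS A N hAN hN hW
  have hpp : p.Prime := Fact.out
  have hp0' : (0 : ℝ) < p := by exact_mod_cast hpp.pos
  have hPN : 0 ≤ ∏ j, (N j : ℝ) := by positivity
  have hprod : ∏ j : Fin r, ((N (σ.symm j) : ℕ) : ℝ) / ((fun _ => p : Fin r → ℕ) j : ℝ) =
      (∏ j, (N j : ℝ)) / (p : ℝ) ^ r := by
    rw [prod_div_distrib, prod_const, card_univ, Fintype.card_fin]
    congr 1
    exact Equiv.prod_comp σ.symm (fun j => (N j : ℝ))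
  have key := g1 θ (fun _ => p) (fun _ => hpp.one_lt.le) (fun _ => le_rfl) ι Ω
    (fun i j => (x i (σ.symm j)).val) (fun i _ j => ZMod.val_lt _) B hB (by
      intro h hh h0
      have h1 : (fun j => (h (σ j) : ZMod p)) ≠ 0 := by
        intro h2
        apply h0
        funext j
        have h3 : ((h (σ (σ.symm j)) : ℕ) : ZMod p) = 0 := congrFun h2 (σ.symm j)
        rw [σ.apply_symm_apply, ZMod.natCast_eq_zero_iff] at h3
        have h4 := hh j
        rcases Nat.eq_zero_or_pos (h j) with h5 | h5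
        · exact h5
        · exact absurd (Nat.le_of_dvd h5 h3) (by omega)
      refine le_trans (le_of_eq ?_) (hS _ h1)
      congr 1
      refine sum_congr rfl fun i _ => ?_
      have h5 : ∀ s : Finset J, (ZMod.stdAddChar (∑ j ∈ s, (h (σ j) : ZMod p) * x i j) : ℂ) =
          ∏ j ∈ s, (ZMod.stdAddChar ((h (σ j) : ZMod p) * x i j) : ℂ) := by
        intro s
        induction s using Finset.induction_on with
        | empty => simp
        | insert a s ha ih => rw [sum_insert ha, prod_insert ha, AddChar.map_add_eq_mul, ih]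
      rw [h5 univ, ← Equiv.prod_comp σ.symm]
      refine prod_congr rfl fun j _ => ?_
      rw [σ.apply_symm_apply]
      exact e_val (h j) (x i (σ.symm j)))
    (fun j => A (σ.symm j)) (fun j => N (σ.symm j)) (fun j => hAN _) (fun j => hN _) (by
      rw [hprod, div_mul_eq_mul_div, le_div_iff₀ (by positivity)]
      exact hW.trans (mul_le_mul_of_nonneg_left hL hPN))
  rw [hprod, div_mul_eq_mul_div] at key
  have hk2 : cc * ((∏ j, (N j : ℝ)) * L / (p : ℝ) ^ r) * lam p ≤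
      cc * ((∏ j, (N j : ℝ)) * Ω.card / (p : ℝ) ^ r) * lam p := by
    apply mul_le_mul_of_nonneg_right _ glam
    apply mul_le_mul_of_nonneg_left _ hcc.le
    exact div_le_div_of_nonneg_right (mul_le_mul_of_nonneg_left hL hPN) (by positivity)
  refine (hk2.trans key).trans ?_
  norm_cast
  apply card_le_card
  intro i hi
  unfold Pool.Agent.Q46.SL.goodR at hi
  rw [mem_filter] at hi
  rw [mem_goodP]
  refine ⟨hi.1, fun j => ⟨?_, ?_⟩⟩
  · have := hi.2.1 (σ j)
    simpa using this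
  · have := hi.2.2 (σ j)
    simpa using this

end Pool.Agent.Q20.RG
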