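import Pool.Agent.Q20.RG.Gen
import Pool.Agent.Q46.MH.Expo
import Pool.Agent.Q46.MH.Dist

set_option autoImplicit false

/-! # Powers of the elements of finite fields -/

namespace Pool.Agent.Q20.RG

open Finset Filter Matrix
open Pool.Agent.H469R2.NK (e norm_e e_add)
open Pool.Agent.W147.PS (ff)
open Pool.Agent.Q46.MH
open Pool.Agent.TH915.PW (e_int sum_char)

section field

variable {p : ℕ} [Fact p.Prime] {r : ℕ} {K : Type} [Field K] [Algebra (ZMod p) K]

/-- the linear functional with the coefficients `k` -/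
noncomputable def LL (b : Module.Basis (Fin r) (ZMod p) K) (k : Fin r → ZMod p) (x : K) : ZMod p :=
  ∑ j, k j * b.repr x j

lemma LL_add (b : Module.Basis (Fin r) (ZMod p) K) (k : Fin r → ZMod p) (x y : K) :
    LL b k (x + y) = LL b k x + LL b k y := by
  unfold LL
  rw [← sum_add_distrib]
  refine sum_congr rfl fun j _ => ?_
  rw [map_add, Finsupp.add_apply, mul_add]

lemma LL_smul (b : Module.Basis (Fin r) (ZMod p) K) (k : Fin r → ZMod p) (a : ZMod p) (x : K) :
    LL b k (a • x) = a * LL b k x := by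
  unfold LL
  rw [mul_sum]
  refine sum_congr rfl fun j _ => ?_
  rw [map_smul, Finsupp.smul_apply, smul_eq_mul]
  ring

lemma LL_sum (b : Module.Basis (Fin r) (ZMod p) K) (k : Fin r → ZMod p) (s : Finset (Fin r))
    (f : Fin r → K) : LL b k (∑ j ∈ s, f j) = ∑ j ∈ s, LL b k (f j) := by
  classical
  induction s using Finset.induction_on with
  | empty => simp [LL]
  | insert a s ha ih => rw [sum_insert ha, sum_insert ha, LL_add, ih]

lemma LL_basis (b : Module.Basis (Fin r) (ZMod p) K) (k : Fin r → ZMod p) (j : Fin r) :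
    LL b k (b j) = k j := by
  unfold LL
  simp [Finsupp.single_apply]

/-- the coefficients of the functional `x ↦ L (g x)` -/
noncomputable def act (b : Module.Basis (Fin r) (ZMod p) K) (g : K) (k : Fin r → ZMod p) : Fin r → ZMod p :=
  fun j => LL b k (g * b j)

lemma LL_act (b : Module.Basis (Fin r) (ZMod p) K) (g : K) (k : Fin r → ZMod p) (x : K) :
    LL b (act b g k) x = LL b k (g * x) := by
  conv_rhs => rw [← b.sum_repr x, mul_sum, LL_sum]
  unfold act
  conv_lhs => rw [LL]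
  refine sum_congr rfl fun j _ => ?_
  rw [mul_smul_comm, LL_smul, mul_comm]

lemma LL_ne (b : Module.Basis (Fin r) (ZMod p) K) {k : Fin r → ZMod p} (hk : k ≠ 0) :
    ∃ x, LL b k x ≠ 0 := by
  obtain ⟨j, hj⟩ := Function.ne_iff.1 hk
  exact ⟨b j, by rw [LL_basis]; exact hj⟩

/-- `∑_{n < T} e(h n / T) ψ(L (g^n))` -/
noncomputable def FS (b : Module.Basis (Fin r) (ZMod p) K) (g : Kˣ) (h : ℕ) (k : Fin r → ZMod p) : ℂ :=
  ∑ n ∈ range (orderOf g), e ((h : ℝ) * n / (orderOf g : ℕ)) *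
    (ZMod.stdAddChar (LL b k ((g ^ n : Kˣ) : K)) : ℂ)

lemma FS_act (b : Module.Basis (Fin r) (ZMod p) K) (g : Kˣ) (hT0 : 0 < orderOf g) (h : ℕ)
    (k : Fin r → ZMod p) : ‖FS b g h (act b g k)‖ = ‖FS b g h k‖ := by
  set T := orderOf g with hT
  have hTr : (T : ℝ) ≠ 0 := by exact_mod_cast hT0.ne'
  set F : ℕ → ℂ := fun n => e ((h : ℝ) * n / T) *
    (ZMod.stdAddChar (LL b k ((g ^ n : Kˣ) : K)) : ℂ) with hF
  have h1 : e ((h : ℝ) / T) * FS b g h (act b g k) = ∑ n ∈ range T, F (n + 1) := by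
    unfold FS
    rw [← hT, mul_sum]
    refine sum_congr rfl fun n _ => ?_
    rw [← mul_assoc, ← e_add, hF]
    congr 2
    · push_cast
      ring
    · rw [LL_act, pow_succ, Units.val_mul, mul_comm (g : K)]
  have h2 : ∑ n ∈ range T, F (n + 1) = ∑ n ∈ range T, F n := by
    have h3 := sum_range_succ' F T
    have h4 := sum_range_succ F T
    have h5 : F T = F 0 := by
      simp only [hF]
      have e1 : e ((h : ℝ) * T / T) = 1 := by
        have : (h : ℝ) * T / T = ((h : ℤ) : ℝ) := by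
          push_cast
          field_simp
        rw [this, e_int]
      have e2 : e ((h : ℝ) * ((0 : ℕ) : ℝ) / T) = 1 := by
        have : (h : ℝ) * ((0 : ℕ) : ℝ) / T = ((0 : ℤ) : ℝ) := by simp
        rw [this, e_int]
      rw [e1, e2, hT, pow_orderOf_eq_one, pow_zero]
    rw [h3, h5] at h4
    exact add_right_cancel h4
  have h3 : e ((h : ℝ) / T) * FS b g h (act b g k) = FS b g h k := by rw [h1, h2]; rfl
  rw [← h3, norm_mul, norm_e, one_mul]

lemma FS_pow (b : Module.Basis (Fin r) (ZMod p) K) (g : Kˣ) (hT0 : 0 < orderOf g) (h : ℕ)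
    (k : Fin r → ZMod p) (j : ℕ) : ‖FS b g h ((act b g)^[j] k)‖ = ‖FS b g h k‖ := by
  induction j with
  | zero => simp
  | succ j ih => rw [Function.iterate_succ_apply', FS_act b g hT0, ih]

lemma LL_iter (b : Module.Basis (Fin r) (ZMod p) K) (g : K) (k : Fin r → ZMod p) (j : ℕ) (x : K) :
    LL b ((act b g)^[j] k) x = LL b k (g ^ j * x) := by
  induction j generalizing x with
  | zero => simp
  | succ j ih => rw [Function.iterate_succ_apply', LL_act, ih, pow_succ, mul_assoc]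

lemma iter_inj (b : Module.Basis (Fin r) (ZMod p) K) (g : Kˣ) {k : Fin r → ZMod p} (hk : k ≠ 0)
    {i j : ℕ} (hi : i < orderOf g) (hj : j < orderOf g)
    (hij : (act b (g : K))^[i] k = (act b (g : K))^[j] k) : i = j := by
  by_contra hne
  obtain ⟨x, hx⟩ := LL_ne b hk
  have h1 : (g : K) ^ i - (g : K) ^ j ≠ 0 := by
    intro h1
    apply hne
    have h2 : g ^ i = g ^ j := by
      apply Units.ext
      push_cast
      exact sub_eq_zero.1 h1
    exact pow_injOn_Iio_orderOf hi hj h2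
  have h2 : ∀ y, LL b k ((g : K) ^ i * y) = LL b k ((g : K) ^ j * y) := by
    intro y
    rw [← LL_iter, ← LL_iter, hij]
  apply hx
  have h3 := h2 (((g : K) ^ i - (g : K) ^ j)⁻¹ * x)
  have h4 : x = (g : K) ^ i * (((g : K) ^ i - (g : K) ^ j)⁻¹ * x) +
      (-1 : ZMod p) • ((g : K) ^ j * (((g : K) ^ i - (g : K) ^ j)⁻¹ * x)) := by
    rw [neg_smul, one_smul]
    field_simp
    ring
  rw [h4, LL_add, LL_smul, h3]
  ring

lemma FS_parseval (b : Module.Basis (Fin r) (ZMod p) K) (g : Kˣ) (h : ℕ) :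
    ∑ k : Fin r → ZMod p, ‖FS b g h k‖ ^ 2 = (p : ℝ) ^ r * (orderOf g : ℕ) := by
  classical
  set T := orderOf g with hT
  have h1 : ∀ k : Fin r → ZMod p, ((‖FS b g h k‖ ^ 2 : ℝ) : ℂ) = ∑ n ∈ range T, ∑ n' ∈ range T,
      (e ((h : ℝ) * n / T) * (starRingEnd ℂ) (e ((h : ℝ) * n' / T))) *
        (ZMod.stdAddChar (1 * (k ⬝ᵥ (fun j => b.repr ((g ^ n : Kˣ) : K) j -
          b.repr ((g ^ n' : Kˣ) : K) j))) : ℂ) := by
    intro k
    have h2 : ((‖FS b g h k‖ ^ 2 : ℝ) : ℂ) = FS b g h k * (starRingEnd ℂ) (FS b g h k) := by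
      rw [Complex.mul_conj, Complex.normSq_eq_norm_sq]
    rw [h2]
    unfold FS
    rw [← hT, map_sum, sum_mul_sum]
    refine sum_congr rfl fun n _ => sum_congr rfl fun n' _ => ?_
    rw [map_mul (starRingEnd ℂ), conj_char]
    have h3 : (ZMod.stdAddChar (1 * (k ⬝ᵥ (fun j => b.repr ((g ^ n : Kˣ) : K) j -
          b.repr ((g ^ n' : Kˣ) : K) j))) : ℂ) =
        (ZMod.stdAddChar (LL b k ((g ^ n : Kˣ) : K)) : ℂ) *
          (ZMod.stdAddChar (-(LL b k ((g ^ n' : Kˣ) : K))) : ℂ) := by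
      rw [← AddChar.map_add_eq_mul]
      congr 1
      unfold LL
      rw [one_mul, dotProduct, ← sub_eq_add_neg, ← sum_sub_distrib]
      exact sum_congr rfl fun j _ => by ring
    rw [h3]
    ring
  have h2 : ((∑ k : Fin r → ZMod p, ‖FS b g h k‖ ^ 2 : ℝ) : ℂ) = (((p : ℝ) ^ r * T : ℝ) : ℂ) := by
    push_cast
    have h3 : ∀ k : Fin r → ZMod p, (‖FS b g h k‖ : ℂ) ^ 2 = ((‖FS b g h k‖ ^ 2 : ℝ) : ℂ) := by
      intro k
      push_cast
      rfl
    rw [sum_congr rfl (fun k _ => (h3 k).trans (h1 k)), sum_comm]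
    have h4 : ∀ n ∈ range T, ∑ k : Fin r → ZMod p, ∑ n' ∈ range T,
        (e ((h : ℝ) * n / T) * (starRingEnd ℂ) (e ((h : ℝ) * n' / T))) *
        (ZMod.stdAddChar (1 * (k ⬝ᵥ (fun j => b.repr ((g ^ n : Kˣ) : K) j -
          b.repr ((g ^ n' : Kˣ) : K) j))) : ℂ) = (p : ℂ) ^ r := by
      intro n hn
      rw [sum_comm]
      rw [sum_eq_single n]
      · have h5 : e ((h : ℝ) * n / T) * (starRingEnd ℂ) (e ((h : ℝ) * n / T)) = 1 := by
          rw [Complex.mul_conj, Complex.normSq_eq_norm_sq, norm_e]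
          simp
        have h6 : (fun j => b.repr ((g ^ n : Kˣ) : K) j - b.repr ((g ^ n : Kˣ) : K) j) = 0 := by
          funext j
          simp
        rw [h5, h6]
        simp [ZMod.card]
      · intro n' hn' hne
        rw [← mul_sum]
        have h6 : (fun j => b.repr ((g ^ n : Kˣ) : K) j - b.repr ((g ^ n' : Kˣ) : K) j) ≠ 0 := by
          intro h7
          apply hne
          have h8 : g ^ n = g ^ n' := by
            apply Units.ext
            apply b.repr.injective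
            ext j
            exact sub_eq_zero.1 (congrFun h7 j)
          exact (pow_injOn_Iio_orderOf (mem_range.1 hn) (mem_range.1 hn') h8).symm
        rw [sum_dot one_ne_zero h6, mul_zero]
      · intro h7
        exact absurd hn h7
    rw [sum_congr rfl h4, sum_const, card_range, nsmul_eq_mul, mul_comm]
  exact_mod_cast h2

lemma FS_bound (b : Module.Basis (Fin r) (ZMod p) K) (g : Kˣ) (hT0 : 0 < orderOf g) (h : ℕ)
    (k : Fin r → ZMod p) (hk : k ≠ 0) : ‖FS b g h k‖ ≤ (p : ℝ) ^ ((r : ℝ) / 2) := by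
  classical
  have hp0 : (0 : ℝ) < p := by exact_mod_cast (Fact.out : p.Prime).pos
  have hT0' : (0 : ℝ) < (orderOf g : ℕ) := by exact_mod_cast hT0
  have h1 : ((orderOf g : ℕ) : ℝ) * ‖FS b g h k‖ ^ 2 ≤ (p : ℝ) ^ r * (orderOf g : ℕ) := by
    rw [← FS_parseval b g h]
    have h2 : ((orderOf g : ℕ) : ℝ) * ‖FS b g h k‖ ^ 2 =
        ∑ x ∈ (range (orderOf g)).image (fun j => (act b (g : K))^[j] k), ‖FS b g h x‖ ^ 2 := by
      rw [sum_image]
      · rw [sum_congr rfl (fun j _ => by rw [FS_pow b g hT0] : ∀ j ∈ range (orderOf g),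
          ‖FS b g h ((act b (g : K))^[j] k)‖ ^ 2 = ‖FS b g h k‖ ^ 2), sum_const, card_range,
          nsmul_eq_mul]
      · intro i hi j hj hij
        exact iter_inj b g hk (mem_range.1 hi) (mem_range.1 hj) hij
    rw [h2]
    exact sum_le_sum_of_subset_of_nonneg (subset_univ _) (fun _ _ _ => by positivity)
  have h2 : ‖FS b g h k‖ ^ 2 ≤ (p : ℝ) ^ r := le_of_mul_le_mul_right (by linarith) hT0'
  have h3 : ((p : ℝ) ^ ((r : ℝ) / 2)) ^ 2 = (p : ℝ) ^ r := by
    rw [← Real.rpow_natCast, ← Real.rpow_mul hp0.le, ← Real.rpow_natCast]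
    congr 1
    push_cast
    ring
  rw [← h3] at h2
  exact (sq_le_sq₀ (norm_nonneg _) (by positivity)).1 h2

lemma card_K (b : Module.Basis (Fin r) (ZMod p) K) (g : Kˣ) : 0 < orderOf g ∧ orderOf g ≤ p ^ r := by
  classical
  have : Fintype K := Fintype.ofEquiv _ b.equivFun.symm.toEquiv
  have h1 : Fintype.card K = p ^ r := by
    rw [Module.card_fintype b, ZMod.card, Fintype.card_fin]
  refine ⟨orderOf_pos g, ?_⟩
  refine (orderOf_le_card_univ (x := g)).trans ?_
  rw [← h1]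
  exact Fintype.card_le_of_injective (fun u : Kˣ => (u : K)) Units.val_injective

/-- the complete sums -/
lemma field_sum (b : Module.Basis (Fin r) (ZMod p) K) (g c : Kˣ) (h : ℕ) (k : Fin r → ℕ)
    (hh : h < orderOf g) (hk : ∀ j, k j < p) (h0 : h ≠ 0 ∨ k ≠ 0) :
    ‖∑ n ∈ range (orderOf g), e ((h : ℝ) * n / (orderOf g : ℕ) +
      ∑ j, (k j : ℝ) * (b.repr ((c * g ^ n : Kˣ) : K) j).val / p)‖ ≤ (p : ℝ) ^ ((r : ℝ) / 2) := by
  classical
  have hp1 : (1 : ℝ) ≤ p := by exact_mod_cast (Fact.out : p.Prime).one_lt.le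
  have hT0 : 0 < orderOf g := (card_K b g).1
  by_cases hk0 : k = 0
  · have hh0 : h ≠ 0 := by tauto
    subst hk0
    have h1 : ∀ n ∈ range (orderOf g), e ((h : ℝ) * n / (orderOf g : ℕ) +
        ∑ j : Fin r, (((0 : Fin r → ℕ) j : ℕ) : ℝ) * (b.repr ((c * g ^ n : Kˣ) : K) j).val / p) =
        e (((h : ℤ) : ℝ) * ((n : ℝ) / (orderOf g : ℕ))) := by
      intro n _
      congr 1
      simp
      ring
    rw [sum_congr rfl h1, sum_char (orderOf g) hT0 h ?_, norm_zero]
    · positivity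
    · intro hd
      have := Int.le_of_dvd (by omega) hd
      omega
  · have hkz : act b (c : K) (fun j => (k j : ZMod p)) ≠ 0 := by
      intro h1
      apply hk0
      have h2 : (fun j => (k j : ZMod p)) = 0 := by
        by_contra h3
        obtain ⟨x, hx⟩ := LL_ne b h3
        apply hx
        have h4 := LL_act b (c : K) (fun j => (k j : ZMod p)) ((c : K)⁻¹ * x)
        rw [h1, ← mul_assoc, mul_inv_cancel₀ c.ne_zero, one_mul] at h4
        rw [← h4]
        simp [LL]
      funext j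
      have h3 : ((k j : ℕ) : ZMod p) = 0 := congrFun h2 j
      rw [ZMod.natCast_eq_zero_iff] at h3
      rcases Nat.eq_zero_or_pos (k j) with h4 | h4
      · exact h4
      · exact absurd (Nat.le_of_dvd h4 h3) (by have := hk j; omega)
    have h1 : ∑ n ∈ range (orderOf g), e ((h : ℝ) * n / (orderOf g : ℕ) +
        ∑ j, (k j : ℝ) * (b.repr ((c * g ^ n : Kˣ) : K) j).val / p) =
        FS b g h (act b (c : K) (fun j => (k j : ZMod p))) := by
      unfold FS
      refine sum_congr rfl fun n _ => ?_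
      rw [e_add, e_sumJ, LL_act]
      congr 1
      have h5 : ∀ (s : Finset (Fin r)) (f : Fin r → ZMod p), (ZMod.stdAddChar (∑ j ∈ s, f j) : ℂ) =
          ∏ j ∈ s, (ZMod.stdAddChar (f j) : ℂ) := by
        intro s f
        induction s using Finset.induction_on with
        | empty => simp
        | insert a s ha ih => rw [sum_insert ha, prod_insert ha, AddChar.map_add_eq_mul, ih]
      rw [LL, h5, Units.val_mul]
      exact prod_congr rfl fun j _ => e_val (k j) _
    rw [h1]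
    exact FS_bound b g hT0 h _ hkz

end field

/-- **powers of the elements of finite fields** -/
theorem fieldmain (r : ℕ) (hr : 1 ≤ r) (ε : ℝ) (hε : 0 < ε) (hε1 : ε ≤ 1) :
    ∃ κ : ℝ, 0 < κ ∧ ∃ p₀ : ℕ, ∀ p : ℕ, p₀ ≤ p → ∀ [Fact p.Prime],
    ∀ (K : Type) [Field K] [Algebra (ZMod p) K] (b : Module.Basis (Fin r) (ZMod p) K) (g c : Kˣ)
      (A₀ N₀ : ℕ) (A N : Fin r → ℕ), A₀ + N₀ ≤ orderOf g → (∀ j, A j + N j ≤ p) →
      (∀ j, (p : ℝ) ^ ε ≤ N j) → (p : ℝ) ^ (3 * (r : ℝ) / 2 + ε) ≤ N₀ * ∏ j, (N j : ℝ) →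
      ∃ G : Finset ℕ, N₀ * (∏ j, (N j : ℝ)) * (p : ℝ) ^ (-(r : ℝ) - ε) ≤ G.card ∧
        ∀ n ∈ G, (A₀ ≤ n ∧ n < A₀ + N₀) ∧ (∀ q : ℕ, q.Prime → κ * ff ((p : ℝ) ^ r) < |(q : ℝ) - n|) ∧
          ∀ j, (A j ≤ (b.repr ((c * g ^ n : Kˣ) : K) j).val ∧
            (b.repr ((c * g ^ n : Kˣ) : K) j).val < A j + N j) ∧
            ∀ q : ℕ, q.Prime → κ * ff ((p : ℝ) ^ r) < |(q : ℝ) - (b.repr ((c * g ^ n : Kˣ) : K) j).val| := by
  classical
  have hr0 : (0 : ℝ) < r := by exact_mod_cast hr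
  have hr1 : (1 : ℝ) ≤ r := by exact_mod_cast hr
  obtain ⟨κ, hκ, hg⟩ := graphJ (Option (Fin r)) (ε / r) (by positivity) (by
    rw [div_le_one hr0]
    linarith)
  have htend : Tendsto (fun p : ℕ => (p : ℝ) ^ r) atTop atTop :=
    (tendsto_pow_atTop (by omega)).comp tendsto_natCast_atTop_atTop
  obtain ⟨p₀, hp₀⟩ := (htend.eventually hg).exists_forall_of_atTop
  refine ⟨κ, hκ, p₀, ?_⟩
  intro p hp0 _ K _ _ b g c A₀ N₀ A N hA₀ hAN hN hW
  have g1 := hp₀ p hp0
  have hpp : p.Prime := Fact.out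
  have hp0' : (0 : ℝ) < p := by exact_mod_cast hpp.pos
  have hp1 : (1 : ℝ) ≤ p := by exact_mod_cast hpp.one_lt.le
  have hmono : ∀ x y : ℝ, x ≤ y → (p : ℝ) ^ x ≤ (p : ℝ) ^ y := fun x y h =>
    Real.rpow_le_rpow_of_exponent_le hp1 h
  obtain ⟨hT0, hTle⟩ := card_K b g
  have hT0' : (0 : ℝ) < (orderOf g : ℕ) := by exact_mod_cast hT0
  have hMe : ((p : ℝ) ^ r) ^ (ε / r) = (p : ℝ) ^ ε := by
    rw [← Real.rpow_natCast, ← Real.rpow_mul hp0'.le]
    congr 1
    field_simp
  have hPN : (0 : ℝ) ≤ ∏ j, (N j : ℝ) := by positivity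
  have hNp : ∏ j : Fin r, (N j : ℝ) ≤ (p : ℝ) ^ (r : ℝ) := by
    rw [Real.rpow_natCast]
    have : ∏ j : Fin r, (N j : ℝ) ≤ ∏ _j : Fin r, (p : ℝ) :=
      prod_le_prod (fun _ _ => Nat.cast_nonneg _) fun j _ => by
        exact_mod_cast (by have := hAN j; omega : N j ≤ p)
    rwa [prod_const, card_univ, Fintype.card_fin] at this
  have hN₀ : (p : ℝ) ^ ε ≤ N₀ := by
    have h1 : (p : ℝ) ^ ε * (p : ℝ) ^ (r : ℝ) ≤ N₀ * (p : ℝ) ^ (r : ℝ) := by
      calc (p : ℝ) ^ ε * (p : ℝ) ^ (r : ℝ) = (p : ℝ) ^ (ε + r) := by rw [← Real.rpow_add hp0']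
        _ ≤ (p : ℝ) ^ (3 * (r : ℝ) / 2 + ε) := hmono _ _ (by linarith)
        _ ≤ N₀ * ∏ j, (N j : ℝ) := hW
        _ ≤ _ := mul_le_mul_of_nonneg_left hNp (Nat.cast_nonneg _)
    exact le_of_mul_le_mul_right h1 (by positivity)
  set m : Option (Fin r) → ℕ := fun o => o.elim (orderOf g) (fun _ => p) with hm
  set x : ℕ → Option (Fin r) → ℕ := fun n o =>
    o.elim n (fun j => (b.repr ((c * g ^ n : Kˣ) : K) j).val) with hx
  set A' : Option (Fin r) → ℕ := fun o => o.elim A₀ A with hA'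
  set N' : Option (Fin r) → ℕ := fun o => o.elim N₀ N with hN'
  have hPm : ∏ o, (m o : ℝ) = (orderOf g : ℕ) * (p : ℝ) ^ r := by
    rw [Fintype.prod_option]
    simp [hm]
  have hPN' : ∏ o, (N' o : ℝ) = N₀ * ∏ j, (N j : ℝ) := by
    rw [Fintype.prod_option]
    simp [hN']
  have hcancel : (∏ o, (N' o : ℝ)) * ((range (orderOf g)).card : ℝ) / ∏ o, (m o : ℝ) =
      N₀ * (∏ j, (N j : ℝ)) / (p : ℝ) ^ r := by
    rw [hPm, hPN', card_range]
    field_simp
  have key := g1 m (by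
      intro o
      cases o with
      | none => exact hT0
      | some j => exact hpp.one_lt.le)
    (by
      intro o
      cases o with
      | none => exact_mod_cast hTle
      | some j =>
        show (p : ℝ) ≤ (p : ℝ) ^ r
        exact le_self_pow₀ hp1 (by omega))
    ℕ (range (orderOf g)) x (by
      intro n hn o
      cases o with
      | none => exact mem_range.1 hn
      | some j => exact ZMod.val_lt _)
    ((p : ℝ) ^ ((r : ℝ) / 2)) (by positivity) (by
      intro h hh h0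
      have h1 := field_sum b g c (h none) (fun j => h (some j)) (hh none) (fun j => hh (some j)) (by
        by_contra hcon
        push Not at hcon
        apply h0
        funext o
        cases o with
        | none => exact hcon.1
        | some j => exact congrFun hcon.2 j)
      refine le_trans (le_of_eq ?_) h1
      congr 1
      refine sum_congr rfl fun n _ => ?_
      congr 1
      rw [Fintype.sum_option]
      rfl)
    A' N' (by
      intro o
      cases o with
      | none => exact hA₀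
      | some j => exact hAN j)
    (by
      intro o
      rw [hMe]
      cases o with
      | none => exact hN₀
      | some j => exact hN j)
    (by
      rw [hcancel, hMe, le_div_iff₀ (by positivity)]
      have e3 : (p : ℝ) ^ (3 * (r : ℝ) / 2 + ε) = (p : ℝ) ^ ((r : ℝ) / 2) * (p : ℝ) ^ ε * (p : ℝ) ^ r := by
        rw [← Real.rpow_natCast, ← Real.rpow_add hp0', ← Real.rpow_add hp0']
        congr 1
        ring
      rw [← e3]
      exact hW)
  refine ⟨goodJ (κ * ff ((p : ℝ) ^ r)) (range (orderOf g)) x A' N', ?_, ?_⟩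
  · refine le_trans (le_of_eq ?_) key
    rw [hcancel, Real.rpow_neg (by positivity), hMe, Real.rpow_sub hp0', Real.rpow_neg hp0'.le,
      Real.rpow_natCast]
    field_simp
  · intro n hn
    obtain ⟨h1, h2⟩ := mem_goodJ.1 hn
    have h3 := h2 none
    refine ⟨mem_Ico.1 h3.1, h3.2, fun j => ?_⟩
    have h4 := h2 (some j)
    exact ⟨mem_Ico.1 h4.1, h4.2⟩

end Pool.Agent.Q20.RG
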