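import Pool.Agent.Q46.MH.Graph

set_option autoImplicit false

/-! # Points of finite families with all coordinates in boxes and in record prime gaps

The versions in any number of coordinates of helper46's completion lemma and plane theorem
(`Pool.Agent.Q46.MH.Box`, `Pool.Agent.Q46.MH.Graph`). -/

namespace Pool.Agent.Q20.RG

open Finset Filter
open Pool.Agent.H469R2.NK (e norm_e e_add)
open Pool.Agent.W147.PS (ff)
open Pool.Agent.Q46.MH

lemma e_sumJ {J : Type*} (s : Finset J) (f : J → ℝ) : e (∑ j ∈ s, f j) = ∏ j ∈ s, e (f j) := by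
  classical
  induction s using Finset.induction_on with
  | empty => simp [e_zero']
  | insert a s ha ih => rw [sum_insert ha, prod_insert ha, e_add, ih]

/-- completion in several coordinates -/
theorem completeJ {J : Type} [Fintype J] [DecidableEq J] {ι : Type*} (Ω : Finset ι) (x : ι → J → ℕ)
    (m : J → ℕ) (hm : ∀ j, 1 ≤ m j) (hx : ∀ i ∈ Ω, ∀ j, x i j < m j) (B : ℝ) (hB : 0 ≤ B)
    (hS : ∀ h : J → ℕ, (∀ j, h j < m j) → h ≠ 0 →
      ‖∑ i ∈ Ω, e (∑ j, (h j : ℝ) * x i j / m j)‖ ≤ B)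
    (A N : J → ℕ) (hAN : ∀ j, A j + N j ≤ m j) (θ : J → ℝ) :
    ‖∑ i ∈ Ω.filter (fun i => ∀ j, x i j ∈ Ico (A j) (A j + N j)), e (∑ j, θ j * x i j) -
      (∏ j, FF (A j) (N j) (θ j)) * Ω.card / ∏ j, (m j : ℂ)‖ ≤
      B * ∏ j, (3 + Real.log (m j)) := by
  have hmc : ∀ j, (m j : ℂ) ≠ 0 := fun j => by
    have := hm j
    exact_mod_cast (by omega : m j ≠ 0)
  have hmr : ∀ j, (0 : ℝ) < m j := fun j => by exact_mod_cast hm j
  have hP0 : (∏ j, (m j : ℂ)) ≠ 0 := prod_ne_zero_iff.2 fun j _ => hmc j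
  have hPr : (0 : ℝ) < ∏ j, (m j : ℝ) := prod_pos fun j _ => hmr j
  set P : Finset (J → ℕ) := Fintype.piFinset (fun j => range (m j)) with hP
  set S : (J → ℕ) → ℂ := fun h => ∑ i ∈ Ω, e (∑ j, (h j : ℝ) * x i j / m j) with hSd
  set a : (J → ℕ) → ℂ := fun h => ∏ j, FF (A j) (N j) (θ j - h j / m j) with ha
  have e1 : ∑ i ∈ Ω.filter (fun i => ∀ j, x i j ∈ Ico (A j) (A j + N j)), e (∑ j, θ j * x i j) =
      (∏ j, (m j : ℂ))⁻¹ * ∑ h ∈ P, a h * S h := by
    rw [sum_filter]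
    have e2 : ∀ i ∈ Ω, (if ∀ j, x i j ∈ Ico (A j) (A j + N j) then e (∑ j, θ j * x i j) else 0) =
        (∏ j, (m j : ℂ))⁻¹ * ∑ h ∈ P, a h * e (∑ j, (h j : ℝ) * x i j / m j) := by
      intro i hi
      have e3 : (if ∀ j, x i j ∈ Ico (A j) (A j + N j) then e (∑ j, θ j * x i j) else 0) =
          ∏ j, (if x i j ∈ Ico (A j) (A j + N j) then e (θ j * x i j) else 0) := by
        split_ifs with hc
        · rw [e_sumJ]
          exact prod_congr rfl fun j _ => (if_pos (hc j)).symm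
        · push Not at hc
          obtain ⟨j, hj⟩ := hc
          exact (prod_eq_zero (mem_univ j) (if_neg hj)).symm
      have e4 : ∀ j, (if x i j ∈ Ico (A j) (A j + N j) then e (θ j * x i j) else 0) =
          (m j : ℂ)⁻¹ * ∑ h ∈ range (m j), FF (A j) (N j) (θ j - h / m j) * e ((h : ℝ) * x i j / m j) := by
        intro j
        rw [complete1 (A j) (N j) (m j) (hm j) (hAN j) (θ j) (x i j) (hx i hi j), one_div]
      rw [e3, prod_congr rfl (fun j _ => e4 j), prod_mul_distrib, prod_inv_distrib,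
        Finset.prod_univ_sum (fun j => range (m j))
          (fun j h => FF (A j) (N j) (θ j - h / m j) * e ((h : ℝ) * x i j / m j))]
      congr 1
      refine sum_congr rfl fun h _ => ?_
      rw [prod_mul_distrib, e_sumJ]
    rw [sum_congr rfl e2, ← mul_sum, sum_comm]
    congr 1
    refine sum_congr rfl fun h _ => ?_
    rw [hSd, mul_sum]
  have h0P : (0 : J → ℕ) ∈ P := by
    rw [hP, Fintype.mem_piFinset]
    intro j
    exact mem_range.2 (hm j)
  have h00 : S 0 = Ω.card := by simp [hSd, e_zero']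
  have ha0 : a 0 = ∏ j, FF (A j) (N j) (θ j) := by simp [ha]
  have e6 : ‖∑ h ∈ P.erase 0, a h * S h‖ ≤ B * ∏ j, ((m j : ℝ) * (3 + Real.log (m j))) := by
    refine (norm_sum_le _ _).trans ?_
    have e7 : ∀ h ∈ P.erase 0, ‖a h * S h‖ ≤ B * ‖a h‖ := by
      intro h hh
      rw [mem_erase, hP, Fintype.mem_piFinset] at hh
      rw [norm_mul, mul_comm B]
      exact mul_le_mul_of_nonneg_left (hS h (fun j => mem_range.1 (hh.2 j)) hh.1) (norm_nonneg _)
    refine (sum_le_sum e7).trans ?_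
    refine (sum_le_sum_of_subset_of_nonneg (erase_subset _ _) (fun _ _ _ => by positivity)).trans ?_
    rw [← mul_sum]
    apply mul_le_mul_of_nonneg_left _ hB
    have e8 : ∑ h ∈ P, ‖a h‖ = ∏ j, ∑ h ∈ range (m j), ‖FF (A j) (N j) (θ j - h / m j)‖ := by
      rw [Finset.prod_univ_sum (fun j => range (m j)) (fun j h => ‖FF (A j) (N j) (θ j - h / m j)‖)]
      refine sum_congr rfl fun h _ => ?_
      rw [ha]
      exact norm_prod _ _
    rw [e8]
    refine prod_le_prod (fun j _ => sum_nonneg fun _ _ => norm_nonneg _) fun j _ => ?_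
    exact L1_bound (A j) (N j) (m j) (hm j) (by have := hAN j; omega) (θ j)
  have e9 : ∑ i ∈ Ω.filter (fun i => ∀ j, x i j ∈ Ico (A j) (A j + N j)), e (∑ j, θ j * x i j) -
      (∏ j, FF (A j) (N j) (θ j)) * Ω.card / ∏ j, (m j : ℂ) =
      (∏ j, (m j : ℂ))⁻¹ * ∑ h ∈ P.erase 0, a h * S h := by
    rw [e1, ← add_sum_erase P _ h0P, h00, ha0]
    field_simp
    ring
  rw [e9, norm_mul, norm_inv, norm_prod]
  simp only [Complex.norm_natCast]
  calc (∏ j, (m j : ℝ))⁻¹ * _ ≤ (∏ j, (m j : ℝ))⁻¹ * (B * ∏ j, ((m j : ℝ) * (3 + Real.log (m j)))) :=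
        mul_le_mul_of_nonneg_left e6 (by positivity)
    _ = _ := by
        rw [prod_mul_distrib]
        field_simp

lemma ev_logJ (k : ℕ) (C ε : ℝ) (hε : 0 < ε) :
    ∀ᶠ M : ℝ in atTop, C * (3 + Real.log M) ^ k ≤ M ^ ε := by
  have h1 := (isLittleO_log_rpow_atTop (show (0 : ℝ) < ε / (2 * (k + 1)) by positivity)).def
    (show (0 : ℝ) < 1 by norm_num)
  have h2 := (tendsto_rpow_atTop (show (0 : ℝ) < ε / (2 * (k + 1)) by positivity)).eventually_ge_atTop 3
  have h2' := (tendsto_rpow_atTop (show (0 : ℝ) < ε / 2 by positivity)).eventually_ge_atTop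
    (|C| * 2 ^ k)
  filter_upwards [h1, h2, h2', eventually_ge_atTop (1 : ℝ)] with M h3 h4 h4' h5
  have h0 : 0 < M := by linarith
  rw [Real.norm_eq_abs, Real.norm_eq_abs, abs_of_nonneg (Real.log_nonneg h5),
    abs_of_nonneg (Real.rpow_nonneg h0.le _), one_mul] at h3
  have h8 : 0 ≤ 3 + Real.log M := by have := Real.log_nonneg h5; linarith
  have h7 : 3 + Real.log M ≤ 2 * M ^ (ε / (2 * (k + 1))) := by linarith
  have h9 : (3 + Real.log M) ^ k ≤ 2 ^ k * M ^ (ε / 2) := by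
    refine (pow_le_pow_left₀ h8 h7 k).trans ?_
    rw [mul_pow, ← Real.rpow_natCast (M ^ (ε / (2 * (k + 1)))), ← Real.rpow_mul h0.le]
    apply mul_le_mul_of_nonneg_left _ (by positivity)
    apply Real.rpow_le_rpow_of_exponent_le h5
    rw [div_mul_eq_mul_div, div_le_div_iff₀ (by positivity) (by norm_num)]
    nlinarith
  have h10 : M ^ ε = M ^ (ε / 2) * M ^ (ε / 2) := by
    rw [← Real.rpow_add h0]
    congr 1
    ring
  calc C * (3 + Real.log M) ^ k ≤ |C| * (3 + Real.log M) ^ k :=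
        mul_le_mul_of_nonneg_right (le_abs_self C) (by positivity)
    _ ≤ |C| * (2 ^ k * M ^ (ε / 2)) := mul_le_mul_of_nonneg_left h9 (abs_nonneg C)
    _ = (|C| * 2 ^ k) * M ^ (ε / 2) := by ring
    _ ≤ M ^ (ε / 2) * M ^ (ε / 2) := mul_le_mul_of_nonneg_right h4' (by positivity)
    _ = M ^ ε := h10.symm

open Classical in
/-- the members of `Ω` with `A j ≤ x j < A j + N j` and no primes within `K` of `x j`, for all `j` -/
noncomputable def goodJ {J : Type} {ι : Type*} (K : ℝ) (Ω : Finset ι) (x : ι → J → ℕ) (A N : J → ℕ) :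
    Finset ι :=
  Ω.filter (fun i => ∀ j, x i j ∈ Ico (A j) (A j + N j) ∧
    ∀ q : ℕ, q.Prime → K < |(q : ℝ) - x i j|)

lemma mem_goodJ {J : Type} {ι : Type*} {K : ℝ} {Ω : Finset ι} {x : ι → J → ℕ} {A N : J → ℕ} {i : ι} :
    i ∈ goodJ K Ω x A N ↔ i ∈ Ω ∧ ∀ j, x i j ∈ Ico (A j) (A j + N j) ∧
      ∀ q : ℕ, q.Prime → K < |(q : ℝ) - x i j| := by
  classical
  simp [goodJ]

/-- **points with several coordinates** -/
theorem graphJ (J : Type) [Fintype J] [DecidableEq J] [Nonempty J] (ε : ℝ) (hε : 0 < ε) (hε1 : ε ≤ 1) :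
    ∃ κ : ℝ, 0 < κ ∧ ∀ᶠ M : ℝ in atTop,
    ∀ (m : J → ℕ), (∀ j, 1 ≤ m j) → (∀ j, (m j : ℝ) ≤ M) →
    ∀ (ι : Type) (Ω : Finset ι) (x : ι → J → ℕ), (∀ i ∈ Ω, ∀ j, x i j < m j) →
    ∀ B : ℝ, 0 ≤ B → (∀ h : J → ℕ, (∀ j, h j < m j) → h ≠ 0 →
      ‖∑ i ∈ Ω, e (∑ j, (h j : ℝ) * x i j / m j)‖ ≤ B) →
    ∀ A N : J → ℕ, (∀ j, A j + N j ≤ m j) → (∀ j, M ^ ε ≤ N j) →
      B * M ^ ε ≤ (∏ j, (N j : ℝ)) * Ω.card / ∏ j, (m j : ℝ) →
      (∏ j, (N j : ℝ)) * Ω.card / (∏ j, (m j : ℝ)) * M ^ (-ε) ≤ (goodJ (κ * ff M) Ω x A N).card := by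
  classical
  set r : ℕ := Fintype.card J with hr
  have hr1 : 1 ≤ r := Fintype.card_pos
  obtain ⟨σ⟩ : Nonempty (J ≃ Fin r) := ⟨Fintype.equivFin J⟩
  obtain ⟨κ, hκ, hcr⟩ := crit_many r hr1 (ε / 8) (by positivity) (by linarith)
  refine ⟨κ, hκ, ?_⟩
  filter_upwards [hcr, eventually_ge_atTop (1 : ℝ), ev_logJ r (8 * 2 ^ r) (ε / 2) (by positivity),
    (tendsto_rpow_atTop (show (0 : ℝ) < 3 * ε / 8 by positivity)).eventually_ge_atTop (8 * 2 ^ r)]
    with M hM hM1 hlg h8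
  intro m hm hmM ι Ω x hx B hB hS A N hAN hN hW
  have hM0 : 0 < M := by linarith
  have hmr : ∀ j, (0 : ℝ) < m j := fun j => by exact_mod_cast hm j
  have hPm : (0 : ℝ) < ∏ j, (m j : ℝ) := prod_pos fun j _ => hmr j
  have h2r : (1 : ℝ) ≤ 2 ^ r := one_le_pow₀ (by norm_num)
  set η : ℝ := ε / 8 with hη
  set L : ℕ := ⌈M ^ η⌉₊ with hL
  have hLge : M ^ η ≤ L := Nat.le_ceil _
  have hη1 : 1 ≤ M ^ η := Real.one_le_rpow hM1 (by positivity)
  have hLle : (L : ℝ) ≤ 2 * M ^ η := by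
    have := (Nat.ceil_lt_add_one (show 0 ≤ M ^ η by positivity)).le
    linarith
  have hηε : 8 * M ^ η ≤ M ^ (ε / 2) := by
    have e1 : M ^ (ε / 2) = M ^ (3 * ε / 8) * M ^ η := by
      rw [← Real.rpow_add hM0]
      congr 1
      rw [hη]
      ring
    rw [e1]
    exact mul_le_mul_of_nonneg_right (by linarith) (by positivity)
  have hε2 : M ^ ε = M ^ (ε / 2) * M ^ (ε / 2) := by
    rw [← Real.rpow_add hM0]
    congr 1
    ring
  set D : ℝ := M ^ (ε / 2) with hD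
  have hD1 : 1 ≤ D := Real.one_le_rpow hM1 (by positivity)
  have hD8 : 8 ≤ D := by linarith
  have hDε : D ≤ M ^ ε := by rw [hε2]; nlinarith
  have hLN : ∀ j, 2 * (L : ℝ) ≤ N j := fun j => by linarith [hN j]
  have hLN' : ∀ j, L ≤ N j := fun j => by
    have : (L : ℝ) ≤ N j := by linarith [(Nat.cast_nonneg L : (0 : ℝ) ≤ L), hLN j]
    exact_mod_cast this
  set n : J → ℕ := fun j => N j - L with hn
  have hnr : ∀ j, (n j : ℝ) = N j - L := fun j => by rw [hn]; simp only; rw [Nat.cast_sub (hLN' j)]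
  have hnh : ∀ j, (N j : ℝ) / 2 ≤ n j := fun j => by linarith [hLN j, hnr j]
  have hnD : ∀ j, D * D / 2 ≤ n j := fun j => by
    rw [← hε2]
    linarith [hN j, hnh j]
  have hn0 : ∀ j, (0 : ℝ) < n j := fun j => by nlinarith [hnD j]
  have hPn : (0 : ℝ) < ∏ j, (n j : ℝ) := prod_pos fun j _ => hn0 j
  set s : Finset ι := Ω.filter (fun i => ∀ j, x i j ∈ Ico (A j + L) (A j + L + n j)) with hs
  set W0 : ℝ := (∏ j, (N j : ℝ)) * Ω.card / ∏ j, (m j : ℝ) with hW0
  set W : ℝ := (∏ j, (n j : ℝ)) * Ω.card / ∏ j, (m j : ℝ) with hWd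
  have hΩ0 : (0 : ℝ) ≤ Ω.card := Nat.cast_nonneg _
  have hW00 : 0 ≤ W := by positivity
  have hWW : W0 ≤ 2 ^ r * W := by
    rw [hW0, hWd, mul_div_assoc', div_le_div_iff_of_pos_right hPm]
    have h1 : (∏ j, (N j : ℝ)) ≤ 2 ^ r * ∏ j, (n j : ℝ) := by
      have h2 : ∏ j : J, (N j : ℝ) ≤ ∏ j : J, (2 * (n j : ℝ)) :=
        prod_le_prod (fun j _ => Nat.cast_nonneg _) fun j _ => by linarith [hnh j]
      rw [prod_mul_distrib, prod_const, card_univ, ← hr] at h2
      exact h2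
    have h2 := mul_le_mul_of_nonneg_right h1 hΩ0
    linarith
  -- the error term
  set Λ : ℝ := ∏ j, (3 + Real.log (m j)) with hΛ
  have hΛj : ∀ j, 0 ≤ 3 + Real.log (m j) := fun j => by
    have := Real.log_natCast_nonneg (m j)
    positivity
  have hΛ0 : 0 ≤ Λ := prod_nonneg fun j _ => hΛj j
  have hΛM : 8 * 2 ^ r * Λ ≤ D := by
    have g5 : Λ ≤ (3 + Real.log M) ^ r := by
      rw [hΛ]
      refine (prod_le_prod (fun j _ => hΛj j) (g := fun _ => 3 + Real.log M) fun j _ => ?_).trans ?_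
      · have := Real.log_le_log (hmr j) (hmM j)
        linarith
      · rw [prod_const, card_univ]
    calc 8 * 2 ^ r * Λ ≤ 8 * 2 ^ r * (3 + Real.log M) ^ r :=
          mul_le_mul_of_nonneg_left g5 (by positivity)
      _ ≤ D := hlg
  have hBΛ : B * Λ * D ≤ W := by
    have g1 : B * (D * D) ≤ W0 := by rw [← hε2]; exact hW
    have g2 : 2 ^ r * (B * Λ * D) ≤ 2 ^ r * W := by
      calc 2 ^ r * (B * Λ * D) ≤ B * (8 * 2 ^ r * Λ) * D := by
            have : 0 ≤ 2 ^ r * (B * Λ * D) := by positivity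
            nlinarith
        _ ≤ B * D * D := by
            apply mul_le_mul_of_nonneg_right _ (by linarith)
            exact mul_le_mul_of_nonneg_left hΛM hB
        _ = B * (D * D) := by ring
        _ ≤ W0 := g1
        _ ≤ _ := hWW
    exact le_of_mul_le_mul_left g2 (by positivity)
  have hcomp := completeJ Ω x m hm hx B hB hS (fun j => A j + L) n (fun j => by
    show A j + L + (N j - L) ≤ m j
    have := hAN j
    have := hLN' j
    omega)
  -- the number of elements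
  have hcard : |(s.card : ℝ) - W| ≤ B * Λ := by
    have g1 := hcomp 0
    have g2 : ∑ i ∈ s, e (∑ j, (0 : J → ℝ) j * x i j) = (s.card : ℂ) := by simp [e_zero']
    rw [g2] at g1
    have g4 : ∏ j, FF (A j + L) (n j) ((0 : J → ℝ) j) = ∏ j, (n j : ℂ) :=
      prod_congr rfl fun j _ => by rw [Pi.zero_apply, FF_zero]
    rw [g4] at g1
    have g3 : (s.card : ℂ) - (∏ j, (n j : ℂ)) * Ω.card / (∏ j, (m j : ℂ)) =
        (((s.card : ℝ) - W : ℝ) : ℂ) := by
      rw [hWd]
      push_cast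
      ring
    rw [g3, Complex.norm_real, Real.norm_eq_abs] at g1
    exact g1
  have hBΛ0 : 0 ≤ B * Λ := mul_nonneg hB hΛ0
  have hBΛ8 : B * Λ * 8 ≤ W := by nlinarith
  have hsW : W / 2 ≤ s.card := by
    have := (abs_le.1 hcard).1
    linarith
  -- the exponential sums
  have hres := hM ι s (fun i k => (x i (σ.symm k) : ℤ)) (by
    intro i hi k
    rw [hs, mem_filter] at hi
    have h1 := mem_Ico.1 (hi.2 (σ.symm k))
    refine hLge.trans ?_
    push_cast
    exact_mod_cast (by omega : L ≤ x i (σ.symm k))) (by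
    intro q hq hqM h hh hh0
    have hq0 : (0 : ℝ) < q := by exact_mod_cast hq
    have e1 : ∀ i ∈ s, e (∑ k : Fin r, (h k : ℝ) * (((x i (σ.symm k) : ℤ) : ℝ) / q)) =
        e (∑ j, ((h (σ j) : ℝ) / q) * x i j) := by
      intro i _
      congr 1
      rw [← σ.sum_comp]
      refine sum_congr rfl fun j _ => ?_
      rw [σ.symm_apply_apply]
      push_cast
      ring
    rw [sum_congr rfl e1]
    have g1 := hcomp (fun j => (h (σ j) : ℝ) / q)
    have hmain : ‖(∏ j, FF (A j + L) (n j) ((h (σ j) : ℝ) / q)) * Ω.card / (∏ j, (m j : ℂ))‖ * D ≤ W := by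
      rw [norm_div, norm_mul, norm_prod, norm_prod]
      simp only [Complex.norm_natCast]
      obtain ⟨k, hk⟩ : ∃ k, h k ≠ 0 := by
        by_contra hcon
        push Not at hcon
        exact hh0 (funext hcon)
      have hqD : (q : ℝ) * D * 2 ≤ D * D := by
        have : (q : ℝ) * 8 ≤ D := by linarith
        nlinarith
      have key : (∏ j, ‖FF (A j + L) (n j) ((h (σ j) : ℝ) / q)‖) * D ≤ ∏ j, (n j : ℝ) := by
        rw [← mul_prod_erase univ _ (mem_univ (σ.symm k)),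
          ← mul_prod_erase univ (fun j => (n j : ℝ)) (mem_univ (σ.symm k))]
        have b1 := norm_FF_rat (A (σ.symm k) + L) (n (σ.symm k)) q (h (σ (σ.symm k)))
          (by rw [σ.apply_symm_apply]; exact hk) (hh _)
        have b2 : ∏ j ∈ univ.erase (σ.symm k), ‖FF (A j + L) (n j) ((h (σ j) : ℝ) / q)‖ ≤
            ∏ j ∈ univ.erase (σ.symm k), (n j : ℝ) :=
          prod_le_prod (fun j _ => norm_nonneg _) fun j _ => norm_FF_le _ _ _
        have b3 : (q : ℝ) * D ≤ n (σ.symm k) := by linarith [hnD (σ.symm k)]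
        have b4 : 0 ≤ ∏ j ∈ univ.erase (σ.symm k), (n j : ℝ) := prod_nonneg fun j _ => (hn0 j).le
        calc _ ≤ (q : ℝ) * (∏ j ∈ univ.erase (σ.symm k), (n j : ℝ)) * D := by
              apply mul_le_mul_of_nonneg_right _ (by linarith)
              exact mul_le_mul b1 b2 (prod_nonneg fun j _ => norm_nonneg _) hq0.le
          _ = (q * D) * ∏ j ∈ univ.erase (σ.symm k), (n j : ℝ) := by ring
          _ ≤ _ := mul_le_mul_of_nonneg_right b3 b4
      calc _ = ((∏ j, ‖FF (A j + L) (n j) ((h (σ j) : ℝ) / q)‖) * D) *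
            (Ω.card / (∏ j, (m j : ℝ))) := by ring
        _ ≤ (∏ j, (n j : ℝ)) * (Ω.card / (∏ j, (m j : ℝ))) :=
          mul_le_mul_of_nonneg_right key (by positivity)
        _ = W := by rw [hWd]; ring
    have htot : ‖∑ i ∈ s, e (∑ j, ((h (σ j) : ℝ) / q) * x i j)‖ * D ≤ 2 * W := by
      have g2 : ‖∑ i ∈ s, e (∑ j, ((h (σ j) : ℝ) / q) * x i j)‖ ≤
          ‖(∏ j, FF (A j + L) (n j) ((h (σ j) : ℝ) / q)) * Ω.card / (∏ j, (m j : ℂ))‖ + B * Λ := by
        have g3 := norm_sub_norm_le (∑ i ∈ s, e (∑ j, ((h (σ j) : ℝ) / q) * x i j))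
          ((∏ j, FF (A j + L) (n j) ((h (σ j) : ℝ) / q)) * Ω.card / (∏ j, (m j : ℂ)))
        linarith
      have g4 := mul_le_mul_of_nonneg_right g2 (by linarith : (0 : ℝ) ≤ D)
      nlinarith
    -- conclusion
    have hηD : 4 ≤ M ^ (-η) * D := by
      have e2 : M ^ (-η) * D = M ^ (3 * ε / 8) := by
        rw [hD, ← Real.rpow_add hM0]
        congr 1
        rw [hη]
        ring
      rw [e2]
      linarith
    have hD0 : 0 < D := by linarith
    refine le_of_mul_le_mul_right ?_ hD0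
    calc _ ≤ 2 * W := htot
      _ ≤ 4 * s.card := by linarith
      _ ≤ (M ^ (-η) * D) * s.card := mul_le_mul_of_nonneg_right hηD (Nat.cast_nonneg _)
      _ = s.card * M ^ (-η) * D := by ring)
  have hsub : s.filter (fun i => Iso (κ * ff M) ((fun i k => (x i (σ.symm k) : ℤ)) i)) ⊆
      goodJ (κ * ff M) Ω x A N := by
    intro i hi
    rw [mem_filter, hs, mem_filter] at hi
    rw [mem_goodJ]
    obtain ⟨⟨g1, g2⟩, g4⟩ := hi
    refine ⟨g1, fun j => ⟨?_, ?_⟩⟩
    · have h1 := mem_Ico.1 (g2 j)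
      have h2 := hLN' j
      rw [mem_Ico]
      have h3 : n j = N j - L := rfl
      omega
    · intro q hq
      have h1 := g4 (σ j) q hq
      simp only [σ.symm_apply_apply] at h1
      push_cast at h1
      exact h1
  have h9 : ((s.filter (fun i => Iso (κ * ff M) ((fun i k => (x i (σ.symm k) : ℤ)) i))).card : ℝ) ≤
      (goodJ (κ * ff M) Ω x A N).card := by exact_mod_cast card_le_card hsub
  refine le_trans ?_ (hres.trans h9)
  have h10 : M ^ (-ε) * (2 * 2 ^ r) ≤ M ^ (-η) := by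
    have e2 : M ^ (-η) = M ^ (-ε) * (M ^ (3 * ε / 8) * M ^ (ε / 2)) := by
      rw [← Real.rpow_add hM0, ← Real.rpow_add hM0]
      congr 1
      rw [hη]
      ring
    rw [e2]
    apply mul_le_mul_of_nonneg_left _ (by positivity)
    nlinarith
  calc W0 * M ^ (-ε) ≤ (2 ^ r * W) * M ^ (-ε) := mul_le_mul_of_nonneg_right hWW (by positivity)
    _ = (W / 2) * (M ^ (-ε) * (2 * 2 ^ r)) := by ring
    _ ≤ s.card * M ^ (-η) := mul_le_mul hsW h10 (by positivity) (Nat.cast_nonneg _)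

end Pool.Agent.Q20.RG
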