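import Pool.Agent.Q20.RG.Det

set_option autoImplicit false

/-! # Matrices and their inverses over a prime field -/

namespace Pool.Agent.Q20.RG

open Finset Filter Matrix
open Pool.Agent.W147.PS (ff)
open Pool.Agent.Q46.MH

section inv

variable {p : ℕ} [Fact p.Prime] {n : ℕ}

/-- the vector `t` with the coordinate `k` deleted -/
def del (k : Fin n) (t : Fin n → ZMod p) : Fin n → ZMod p := fun l => if l = k then 0 else t l

/-- the elementary matrix -/
def E (k : Fin n) (t : Fin n → ZMod p) : Matrix (Fin n) (Fin n) (ZMod p) :=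
  1 + vecMulVec (del k t) (Pi.single k 1)

lemma del_neg (k : Fin n) (t : Fin n → ZMod p) : del k (-t) = - del k t := by
  funext l
  by_cases h : l = k <;> simp [del, h]

lemma E_mul (k : Fin n) (t : Fin n → ZMod p) : E k t * E k (-t) = 1 := by
  have h1 : vecMulVec (del k t) (Pi.single k (1 : ZMod p)) * vecMulVec (del k (-t)) (Pi.single k 1) =
      (0 : Matrix (Fin n) (Fin n) (ZMod p)) := by
    ext a b
    rw [mul_apply, Matrix.zero_apply]
    refine sum_eq_zero fun c _ => ?_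
    rw [vecMulVec_apply, vecMulVec_apply]
    by_cases hc : c = k
    · subst hc
      simp [del]
    · simp [hc]
  have h2 : vecMulVec (del k (-t)) (Pi.single k (1 : ZMod p)) = - vecMulVec (del k t) (Pi.single k 1) := by
    ext a b
    rw [del_neg, Matrix.neg_apply, vecMulVec_apply, vecMulVec_apply]
    simp
  rw [E, E, add_mul, one_mul, mul_add, h1, mul_one, add_zero, h2]
  abel

lemma E_mul' (k : Fin n) (t : Fin n → ZMod p) : E k (-t) * E k t = 1 := by
  have := E_mul k (-t)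
  rwa [neg_neg] at this

lemma E_inv (k : Fin n) (t : Fin n → ZMod p) : (E k t)⁻¹ = E k (-t) :=
  Matrix.inv_eq_right_inv (E_mul k t)

lemma E_det (k : Fin n) (t : Fin n → ZMod p) : (E k t).det = 1 := by
  have h1 : (E k t).det = (1 : Matrix (Fin n) (Fin n) (ZMod p)).det := by
    rw [E]
    have h2 : (1 + vecMulVec (del k t) (Pi.single k (1 : ZMod p)) : Matrix (Fin n) (Fin n) (ZMod p)) =
        T k t 1 := by
      ext a b
      by_cases hb : b = k
      · subst hb
        rw [T_self, Matrix.add_apply, vecMulVec_apply, Pi.single_eq_same, mul_one]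
        congr 1
        by_cases ha : a = b
        · subst ha
          simp only [del, if_true]
          symm
          refine sum_eq_zero fun l hl => ?_
          rw [Matrix.one_apply_ne' (ne_of_mem_erase hl), mul_zero]
        · rw [del, if_neg ha, sum_eq_single a]
          · rw [Matrix.one_apply_eq, mul_one]
          · intro l _ hl
            rw [Matrix.one_apply_ne' hl, mul_zero]
          · intro h
            exact absurd (mem_erase.2 ⟨ha, mem_univ _⟩) h
      · rw [T_ne _ _ _ hb, Matrix.add_apply, vecMulVec_apply, Pi.single_eq_of_ne hb, mul_zero, add_zero]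
    rw [h2, T_det]
  rw [h1, det_one]

/-- the pairing -/
def pr (a X : Matrix (Fin n) (Fin n) (ZMod p)) : ZMod p := ∑ i, ∑ j, a i j * X i j

/-- the functional -/
noncomputable def wf (k : Fin n) (a b X : Matrix (Fin n) (Fin n) (ZMod p)) : Fin n → ZMod p :=
  del k (fun l => ∑ i, a i k * X i l - ∑ j, b l j * X⁻¹ k j)

lemma dot_del (k : Fin n) (t v : Fin n → ZMod p) : t ⬝ᵥ del k v = del k t ⬝ᵥ v := by
  rw [dotProduct, dotProduct]
  refine sum_congr rfl fun l _ => ?_
  by_cases h : l = k <;> simp [del, h]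

lemma pr_E (k : Fin n) (t : Fin n → ZMod p) (a b X : Matrix (Fin n) (Fin n) (ZMod p)) :
    pr a (X * E k t) + pr b ((X * E k t)⁻¹) = (pr a X + pr b X⁻¹) + 1 * (t ⬝ᵥ wf k a b X) := by
  have h1 : pr a (X * E k t) = pr a X + ∑ l, del k t l * ∑ i, a i k * X i l := by
    have e1 : ∀ i j, (X * E k t) i j = X i j + (∑ l, X i l * del k t l) * (Pi.single k 1 : Fin n → ZMod p) j := by
      intro i j
      rw [E, mul_add, mul_one, Matrix.add_apply, mul_apply, sum_mul]
      congr 1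
      refine sum_congr rfl fun l _ => ?_
      rw [vecMulVec_apply]
      ring
    rw [pr, pr, ← sub_eq_iff_eq_add', ← sum_sub_distrib]
    have e2 : ∀ i, ∑ j, a i j * (X * E k t) i j - ∑ j, a i j * X i j =
        ∑ l, del k t l * (a i k * X i l) := by
      intro i
      rw [← sum_sub_distrib, sum_eq_single k]
      · rw [e1, Pi.single_eq_same, mul_one, mul_add, add_sub_cancel_left, mul_sum]
        exact sum_congr rfl fun l _ => by ring
      · intro j _ hj
        rw [e1, Pi.single_eq_of_ne hj, mul_zero, add_zero, sub_self]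
      · intro h
        exact absurd (mem_univ k) h
    rw [sum_congr rfl (fun i _ => e2 i), sum_comm]
    exact sum_congr rfl fun l _ => by rw [mul_sum]
  have h2 : pr b ((X * E k t)⁻¹) = pr b X⁻¹ - ∑ l, del k t l * ∑ j, b l j * X⁻¹ k j := by
    have e1 : ∀ i j, (X * E k t)⁻¹ i j = X⁻¹ i j - del k t i * X⁻¹ k j := by
      intro i j
      rw [Matrix.mul_inv_rev, E_inv, E, add_mul, one_mul, Matrix.add_apply, mul_apply, del_neg,
        sum_eq_single k]
      · rw [vecMulVec_apply, Pi.single_eq_same, Pi.neg_apply]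
        ring
      · intro l _ hl
        rw [vecMulVec_apply, Pi.single_eq_of_ne hl, mul_zero, zero_mul]
      · intro h
        exact absurd (mem_univ k) h
    rw [pr, pr, ← sum_sub_distrib]
    refine sum_congr rfl fun i _ => ?_
    rw [mul_sum, ← sum_sub_distrib]
    refine sum_congr rfl fun j _ => ?_
    rw [e1]
    ring
  have h3 : t ⬝ᵥ wf k a b X = ∑ l, del k t l * ∑ i, a i k * X i l -
      ∑ l, del k t l * ∑ j, b l j * X⁻¹ k j := by
    rw [wf, dot_del, dotProduct, ← sum_sub_distrib]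
    exact sum_congr rfl fun l _ => by ring
  rw [h1, h2, h3]
  ring

/-- the matrices with determinant in `D` -/
noncomputable def OmD (p n : ℕ) [Fact p.Prime] (D : Finset (ZMod p)) :
    Finset (Matrix (Fin n) (Fin n) (ZMod p)) :=
  univ.filter (fun X => X.det ∈ D)

lemma mem_OmD {D : Finset (ZMod p)} {X : Matrix (Fin n) (Fin n) (ZMod p)} :
    X ∈ OmD p n D ↔ X.det ∈ D := by
  rw [OmD, mem_filter, and_iff_right (mem_univ _)]

lemma inv_sum (D : Finset (ZMod p)) (a b : Matrix (Fin n) (Fin n) (ZMod p)) (k : Fin n) :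
    ‖∑ X ∈ OmD p n D, (ZMod.stdAddChar (pr a X + pr b X⁻¹) : ℂ)‖ ≤
      ((OmD p n D).filter (fun X => wf k a b X = 0)).card := by
  have hp0 : (0 : ℝ) < (p : ℝ) ^ n := by
    have : (0 : ℝ) < p := by exact_mod_cast (Fact.out : p.Prime).pos
    positivity
  set S : ℂ := ∑ X ∈ OmD p n D, (ZMod.stdAddChar (pr a X + pr b X⁻¹) : ℂ) with hS
  have h1 : ∀ t : Fin n → ZMod p, ∑ X ∈ OmD p n D,
      (ZMod.stdAddChar (pr a (X * E k t) + pr b ((X * E k t)⁻¹)) : ℂ) = S := by
    intro t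
    rw [hS]
    refine sum_nbij' (fun X => X * E k t) (fun X => X * E k (-t)) ?_ ?_ ?_ ?_ ?_
    · intro X hX
      rw [mem_OmD] at hX ⊢
      rw [det_mul, E_det, mul_one]
      exact hX
    · intro X hX
      rw [mem_OmD] at hX ⊢
      rw [det_mul, E_det, mul_one]
      exact hX
    · intro X _
      show X * E k t * E k (-t) = X
      rw [Matrix.mul_assoc, E_mul, Matrix.mul_one]
    · intro X _
      show X * E k (-t) * E k t = X
      rw [Matrix.mul_assoc, E_mul', Matrix.mul_one]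
    · intro X _
      rfl
  have h2 : ((p : ℂ) ^ n) * S = ∑ X ∈ OmD p n D,
      (ZMod.stdAddChar (pr a X + pr b X⁻¹) : ℂ) *
        ∑ t : Fin n → ZMod p, (ZMod.stdAddChar (1 * (t ⬝ᵥ wf k a b X)) : ℂ) := by
    have e1 : ((p : ℂ) ^ n) * S = ∑ t : Fin n → ZMod p, ∑ X ∈ OmD p n D,
        (ZMod.stdAddChar (pr a (X * E k t) + pr b ((X * E k t)⁻¹)) : ℂ) := by
      rw [sum_congr rfl (fun t _ => h1 t), sum_const, card_univ, nsmul_eq_mul]
      simp [ZMod.card]
    rw [e1, sum_comm]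
    refine sum_congr rfl fun X _ => ?_
    rw [mul_sum]
    refine sum_congr rfl fun t _ => ?_
    rw [pr_E, AddChar.map_add_eq_mul]
  have h3 : ∀ X ∈ OmD p n D, ‖(ZMod.stdAddChar (pr a X + pr b X⁻¹) : ℂ) *
        ∑ t : Fin n → ZMod p, (ZMod.stdAddChar (1 * (t ⬝ᵥ wf k a b X)) : ℂ)‖ =
      if wf k a b X = 0 then (p : ℝ) ^ n else 0 := by
    intro X _
    rw [norm_mul, norm_char, one_mul]
    split_ifs with hw
    · rw [hw]
      simp [ZMod.card]
    · rw [sum_dot one_ne_zero hw, norm_zero]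
  have h4 : (p : ℝ) ^ n * ‖S‖ ≤ (p : ℝ) ^ n * ((OmD p n D).filter (fun X => wf k a b X = 0)).card := by
    have e1 : (p : ℝ) ^ n * ‖S‖ = ‖((p : ℂ) ^ n) * S‖ := by
      rw [norm_mul, norm_pow, Complex.norm_natCast]
    rw [e1, h2]
    refine (norm_sum_le _ _).trans ?_
    rw [sum_congr rfl h3, ← sum_filter, sum_const, nsmul_eq_mul, mul_comm]
  exact le_of_mul_le_mul_left h4 hp0

/-- one linear equation -/
lemma card_one (y : Fin n → ZMod p) (hy : y ≠ 0) (c : ZMod p) :
    (univ.filter (fun x : Fin n → ZMod p => ∑ i, y i * x i = c)).card ≤ p ^ (n - 1) := by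
  classical
  obtain ⟨i0, hi0⟩ := Function.ne_iff.1 hy
  have hcard : Fintype.card ({a : Fin n // a ≠ i0} → ZMod p) = p ^ (n - 1) := by
    rw [Fintype.card_fun, ZMod.card, card_ne]
  rw [← hcard, ← card_univ]
  refine card_le_card_of_injOn (fun x (a : {a : Fin n // a ≠ i0}) => x a)
    (fun _ _ => mem_coe.2 (mem_univ _)) ?_
  intro x hx x' hx' hxx
  rw [mem_coe, mem_filter] at hx hx'
  have g1 : ∀ a, a ≠ i0 → x a = x' a := fun a ha => congrFun hxx ⟨a, ha⟩
  have g2 := hx.2.trans hx'.2.symm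
  rw [← add_sum_erase univ _ (mem_univ i0), ← add_sum_erase univ (fun i => y i * x' i) (mem_univ i0)] at g2
  have g4 : ∑ c ∈ univ.erase i0, y c * x c = ∑ c ∈ univ.erase i0, y c * x' c :=
    sum_congr rfl fun c hc => by rw [g1 c (ne_of_mem_erase hc)]
  rw [g4] at g2
  have g5 := mul_left_cancel₀ hi0 (add_right_cancel g2)
  funext a
  by_cases ha : a = i0
  · rw [ha, g5]
  · exact g1 a ha

/-- two independent linear equations -/
lemma card_two (y α : Fin n → ZMod p) (i0 : Fin n) (h0 : α i0 ≠ 0)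
    (hy : ∀ s : ZMod p, y ≠ s • α) (c d : ZMod p) :
    (univ.filter (fun x : Fin n → ZMod p => ∑ i, y i * x i = c ∧ ∑ i, α i * x i = d)).card ≤
      p ^ (n - 2) := by
  classical
  obtain ⟨i1, hi1⟩ : ∃ i1, y i1 * α i0 ≠ y i0 * α i1 := by
    by_contra hcon
    push Not at hcon
    apply hy (y i0 / α i0)
    funext i
    rw [Pi.smul_apply, smul_eq_mul, div_mul_eq_mul_div, eq_div_iff h0]
    exact hcon i
  have hne : i1 ≠ i0 := by
    rintro rfl
    exact hi1 rfl
  have hcard : Fintype.card ({a : Fin n // a ≠ i0 ∧ a ≠ i1} → ZMod p) = p ^ (n - 2) := by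
    rw [Fintype.card_fun, ZMod.card, Fintype.card_subtype]
    congr 1
    have e1 : (univ.filter (fun a : Fin n => a ≠ i0 ∧ a ≠ i1)) = (univ.erase i0).erase i1 := by
      ext a
      simp only [mem_filter, mem_univ, true_and, mem_erase, and_true]
      tauto
    rw [e1, card_erase_of_mem (mem_erase.2 ⟨hne, mem_univ _⟩), card_erase_of_mem (mem_univ _),
      card_univ, Fintype.card_fin]
    omega
  rw [← hcard, ← card_univ]
  refine card_le_card_of_injOn (fun x (a : {a : Fin n // a ≠ i0 ∧ a ≠ i1}) => x a)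
    (fun _ _ => mem_coe.2 (mem_univ _)) ?_
  intro x hx x' hx' hxx
  rw [mem_coe, mem_filter] at hx hx'
  have g1 : ∀ a, a ≠ i0 → a ≠ i1 → x a = x' a := fun a ha hb => congrFun hxx ⟨a, ha, hb⟩
  have m0 : i1 ∈ univ.erase i0 := mem_erase.2 ⟨hne, mem_univ _⟩
  have key : ∀ u : Fin n → ZMod p, ∑ i, u i * x i = ∑ i, u i * x' i →
      u i0 * (x i0 - x' i0) + u i1 * (x i1 - x' i1) = 0 := by
    intro u hu
    rw [← add_sum_erase univ _ (mem_univ i0), ← add_sum_erase univ (fun i => u i * x' i) (mem_univ i0),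
      ← add_sum_erase (univ.erase i0) _ m0, ← add_sum_erase (univ.erase i0) (fun i => u i * x' i) m0] at hu
    have g4 : ∑ c ∈ (univ.erase i0).erase i1, u c * x c = ∑ c ∈ (univ.erase i0).erase i1, u c * x' c :=
      sum_congr rfl fun c hc => by
        rw [g1 c (ne_of_mem_erase (mem_of_mem_erase hc)) (ne_of_mem_erase hc)]
    rw [g4] at hu
    linear_combination hu
  have k1 := key y (hx.2.1.trans hx'.2.1.symm)
  have k2 := key α (hx.2.2.trans hx'.2.2.symm)
  have k3 : (y i1 * α i0 - y i0 * α i1) * (x i1 - x' i1) = 0 := by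
    linear_combination α i0 * k1 - y i0 * k2
  have k4 : x i1 - x' i1 = 0 := by
    rcases mul_eq_zero.1 k3 with h | h
    · exact absurd (sub_eq_zero.1 h) hi1
    · exact h
  rw [k4, mul_zero, add_zero] at k2
  have k5 : x i0 - x' i0 = 0 := by
    rcases mul_eq_zero.1 k2 with h | h
    · exact absurd h h0
    · exact h
  funext a
  by_cases ha : a = i0
  · rw [ha, sub_eq_zero.1 k5]
  · by_cases hb : a = i1
    · rw [hb, sub_eq_zero.1 k4]
    · exact g1 a ha hb

/-- the matrices with a given row of the inverse -/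
lemma card_row (a b : Matrix (Fin n) (Fin n) (ZMod p)) (k i0 : Fin n) (h0 : a i0 k ≠ 0)
    (y : Fin n → ZMod p) :
    (univ.filter (fun X : Matrix (Fin n) (Fin n) (ZMod p) => X.det ≠ 0 ∧ wf k a b X = 0 ∧
        X⁻¹ k = y)).card ≤
      if ∃ s : ZMod p, y = s • (fun i => a i k) then p ^ ((n - 1) * n)
        else p ^ (n - 1) * p ^ ((n - 2) * (n - 1)) := by
  classical
  set Φ := univ.filter (fun X : Matrix (Fin n) (Fin n) (ZMod p) => X.det ≠ 0 ∧ wf k a b X = 0 ∧
        X⁻¹ k = y) with hΦ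
  -- the sets of the columns
  set K : Fin n → Finset (Fin n → ZMod p) := fun l =>
    if l = k then univ.filter (fun x => ∑ i, y i * x i = 1)
      else univ.filter (fun x => ∑ i, y i * x i = 0 ∧ ∑ i, a i k * x i = ∑ j, b l j * y j) with hK
  have h1 : Φ.card ≤ ∏ l, (K l).card := by
    rw [← Fintype.card_piFinset]
    refine card_le_card_of_injOn (fun X l i => X i l) ?_ ?_
    · intro X hX
      rw [mem_coe, hΦ, mem_filter] at hX
      obtain ⟨-, hd, hw, hy⟩ := hX
      rw [mem_coe, Fintype.mem_piFinset]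
      intro l
      have e1 : (X⁻¹ * X) k l = (1 : Matrix (Fin n) (Fin n) (ZMod p)) k l := by
        rw [Matrix.nonsing_inv_mul _ (isUnit_iff_ne_zero.2 hd)]
      rw [mul_apply, hy] at e1
      by_cases hl : l = k
      · subst hl
        simp only [hK, if_true, mem_filter, mem_univ, true_and]
        rw [e1, Matrix.one_apply_eq]
      · simp only [hK, if_neg hl, mem_filter, mem_univ, true_and]
        refine ⟨by rw [e1, Matrix.one_apply_ne' hl], ?_⟩
        have e2 := congrFun hw l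
        rw [wf, del, if_neg hl, Pi.zero_apply, hy, sub_eq_zero] at e2
        exact e2
    · intro X _ X' _ h
      ext i l
      exact congrFun (congrFun h l) i
  rcases Φ.eq_empty_or_nonempty with hemp | ⟨X0, hX0⟩
  · rw [hemp, card_empty]
    exact Nat.zero_le _
  have hy0 : y ≠ 0 := by
    rintro rfl
    obtain ⟨-, hd, hw, hy⟩ := mem_filter.1 hX0
    have e1 : (X0⁻¹ * X0) k k = (1 : Matrix (Fin n) (Fin n) (ZMod p)) k k := by
      rw [Matrix.nonsing_inv_mul _ (isUnit_iff_ne_zero.2 hd)]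
    rw [mul_apply, hy, Matrix.one_apply_eq] at e1
    simp at e1
  have hk1 : ∀ l, (K l).card ≤ p ^ (n - 1) := by
    intro l
    simp only [hK]
    split_ifs
    · exact card_one y hy0 1
    · refine le_trans (card_le_card ?_) (card_one y hy0 0)
      intro x hx
      rw [mem_filter] at hx ⊢
      exact ⟨mem_univ _, hx.2.1⟩
  refine h1.trans ?_
  split_ifs with hs
  · calc ∏ l, (K l).card ≤ ∏ _l : Fin n, p ^ (n - 1) := prod_le_prod' fun l _ => hk1 l
      _ = p ^ ((n - 1) * n) := by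
          rw [prod_const, card_univ, Fintype.card_fin, ← pow_mul]
  · push Not at hs
    rw [← mul_prod_erase univ _ (mem_univ k)]
    refine Nat.mul_le_mul (hk1 k) ?_
    calc ∏ l ∈ univ.erase k, (K l).card ≤ ∏ _l ∈ univ.erase k, p ^ (n - 2) := by
          refine prod_le_prod' fun l hl => ?_
          simp only [hK, if_neg (ne_of_mem_erase hl)]
          exact card_two y (fun i => a i k) i0 h0 hs 0 _
      _ = p ^ ((n - 2) * (n - 1)) := by
          rw [prod_const, card_erase_of_mem (mem_univ k), card_univ, Fintype.card_fin, ← pow_mul]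

lemma card_wf (hn : 2 ≤ n) (D : Finset (ZMod p)) (hD : (0 : ZMod p) ∉ D)
    (a b : Matrix (Fin n) (Fin n) (ZMod p)) (k i0 : Fin n) (h0 : a i0 k ≠ 0) :
    ((OmD p n D).filter (fun X => wf k a b X = 0)).card ≤ 2 * p ^ (n * (n - 1) + 1) := by
  classical
  set α : Fin n → ZMod p := fun i => a i k with hα
  have h1 : ((OmD p n D).filter (fun X => wf k a b X = 0)).card ≤
      ∑ y : Fin n → ZMod p, (univ.filter (fun X : Matrix (Fin n) (Fin n) (ZMod p) =>
        X.det ≠ 0 ∧ wf k a b X = 0 ∧ X⁻¹ k = y)).card := by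
    rw [card_eq_sum_card_fiberwise (f := fun X : Matrix (Fin n) (Fin n) (ZMod p) => X⁻¹ k) (t := univ)
      (fun _ _ => mem_coe.2 (mem_univ _))]
    refine sum_le_sum fun y _ => card_le_card fun X hX => ?_
    rw [mem_filter, mem_filter, mem_OmD] at hX
    rw [mem_filter]
    refine ⟨mem_univ _, ?_, hX.1.2, hX.2⟩
    intro h
    exact hD (h ▸ hX.1.1)
  have h2 : ∑ y : Fin n → ZMod p, (if ∃ s : ZMod p, y = s • α then p ^ ((n - 1) * n)
        else p ^ (n - 1) * p ^ ((n - 2) * (n - 1))) ≤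
      p * p ^ ((n - 1) * n) + p ^ n * (p ^ (n - 1) * p ^ ((n - 2) * (n - 1))) := by
    rw [sum_ite, sum_const, sum_const, smul_eq_mul, smul_eq_mul]
    refine Nat.add_le_add (Nat.mul_le_mul_right _ ?_) (Nat.mul_le_mul_right _ ?_)
    · have e1 : (univ.filter (fun y : Fin n → ZMod p => ∃ s : ZMod p, y = s • α)) ⊆
          (univ : Finset (ZMod p)).image (fun s => s • α) := by
        intro y hy
        obtain ⟨s, hs⟩ := (mem_filter.1 hy).2
        exact mem_image.2 ⟨s, mem_univ _, hs.symm⟩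
      refine (card_le_card e1).trans (card_image_le.trans ?_)
      rw [card_univ, ZMod.card]
    · refine (card_le_univ _).trans ?_
      rw [Fintype.card_fun, ZMod.card, Fintype.card_fin]
  refine h1.trans ((sum_le_sum fun y _ => card_row a b k i0 h0 y).trans (h2.trans ?_))
  obtain ⟨m, rfl⟩ : ∃ m, n = m + 2 := ⟨n - 2, by omega⟩
  have e1 : p * p ^ ((m + 2 - 1) * (m + 2)) = p ^ ((m + 2) * (m + 2 - 1) + 1) := by
    rw [← pow_succ']
    congr 1
    rw [mul_comm]
  have e2 : p ^ (m + 2) * (p ^ (m + 2 - 1) * p ^ ((m + 2 - 2) * (m + 2 - 1))) =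
      p ^ ((m + 2) * (m + 2 - 1) + 1) := by
    rw [← pow_add, ← pow_add]
    congr 1
    have : m + 2 - 1 = m + 1 := by omega
    rw [this]
    have : m + 2 - 2 = m := by omega
    rw [this]
    ring
  rw [e1, e2, two_mul]

lemma inv_bound_a (hn : 2 ≤ n) (D : Finset (ZMod p)) (hD : (0 : ZMod p) ∉ D)
    (a b : Matrix (Fin n) (Fin n) (ZMod p)) (ha : a ≠ 0) :
    ‖∑ X ∈ OmD p n D, (ZMod.stdAddChar (pr a X + pr b X⁻¹) : ℂ)‖ ≤ 2 * (p : ℝ) ^ (n * (n - 1) + 1) := by
  obtain ⟨i0, k, h0⟩ : ∃ i0 k, a i0 k ≠ 0 := by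
    by_contra hcon
    push Not at hcon
    exact ha (by ext i j; exact hcon i j)
  refine (inv_sum D a b k).trans ?_
  exact_mod_cast card_wf hn D hD a b k i0 h0

/-- **Kloosterman sums of matrices, with the determinant in any set** -/
lemma inv_bound (hn : 2 ≤ n) (D : Finset (ZMod p)) (hD : (0 : ZMod p) ∉ D)
    (a b : Matrix (Fin n) (Fin n) (ZMod p)) (hab : a ≠ 0 ∨ b ≠ 0) :
    ‖∑ X ∈ OmD p n D, (ZMod.stdAddChar (pr a X + pr b X⁻¹) : ℂ)‖ ≤ 2 * (p : ℝ) ^ (n * (n - 1) + 1) := by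
  classical
  by_cases ha : a = 0
  · have hb : b ≠ 0 := by
      rcases hab with h | h
      · exact absurd ha h
      · exact h
    have h1 : ∑ X ∈ OmD p n D, (ZMod.stdAddChar (pr a X + pr b X⁻¹) : ℂ) =
        ∑ X ∈ OmD p n (D.image (fun d => d⁻¹)), (ZMod.stdAddChar (pr b X + pr a X⁻¹) : ℂ) := by
      have hnd : ∀ X : Matrix (Fin n) (Fin n) (ZMod p), X ∈ OmD p n D → IsUnit X.det := by
        intro X hX
        rw [mem_OmD] at hX
        refine isUnit_iff_ne_zero.2 fun h => hD (h ▸ hX)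
      have hnd' : ∀ X : Matrix (Fin n) (Fin n) (ZMod p), X ∈ OmD p n (D.image (fun d => d⁻¹)) →
          IsUnit X.det := by
        intro X hX
        rw [mem_OmD, mem_image] at hX
        obtain ⟨d, hd, hd'⟩ := hX
        rw [← hd']
        refine isUnit_iff_ne_zero.2 (inv_ne_zero fun h => hD (h ▸ hd))
      refine sum_nbij' (fun X => X⁻¹) (fun X => X⁻¹) ?_ ?_ ?_ ?_ ?_
      · intro X hX
        rw [mem_OmD, mem_image]
        refine ⟨X.det, mem_OmD.1 hX, ?_⟩
        rw [Matrix.det_nonsing_inv, Ring.inverse_eq_inv']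
      · intro X hX
        have hX' := hX
        rw [mem_OmD, mem_image] at hX'
        obtain ⟨d, hd, hd'⟩ := hX'
        rw [mem_OmD, Matrix.det_nonsing_inv, Ring.inverse_eq_inv', ← hd', inv_inv]
        exact hd
      · intro X hX
        exact Matrix.nonsing_inv_nonsing_inv _ (hnd X hX)
      · intro X hX
        exact Matrix.nonsing_inv_nonsing_inv _ (hnd' X hX)
      · intro X hX
        rw [Matrix.nonsing_inv_nonsing_inv _ (hnd X hX), add_comm]
    rw [h1]
    refine inv_bound_a hn _ ?_ b a hb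
    intro h
    obtain ⟨d, hd, hd'⟩ := mem_image.1 h
    rw [inv_eq_zero] at hd'
    exact hD (hd' ▸ hd)
  · exact inv_bound_a hn D hD a b ha

lemma card_OmD (D : Finset (ZMod p)) (hD : (0 : ZMod p) ∉ D) (hn : 0 < n) :
    D.card * (p : ℝ) ^ (n * n) ≤ 2 ^ n * p * (OmD p n D).card := by
  classical
  have h1 : (OmD p n D).card = ∑ c ∈ D, (Om p n c).card := by
    rw [card_eq_sum_card_fiberwise (f := fun X : Matrix (Fin n) (Fin n) (ZMod p) => X.det) (t := D)
      (fun X hX => mem_OmD.1 hX)]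
    refine sum_congr rfl fun c hc => ?_
    congr 1
    ext X
    rw [mem_filter, mem_OmD, Om, mem_filter, and_iff_right (mem_univ _)]
    constructor
    · exact fun h => h.2
    · exact fun h => ⟨h ▸ hc, h⟩
  rw [h1]
  push_cast
  rw [mul_sum, ← nsmul_eq_mul, ← sum_const]
  exact sum_le_sum fun c hc => card_Om (fun h => hD (h ▸ hc)) hn

lemma pr_mul (b Y C : Matrix (Fin n) (Fin n) (ZMod p)) : pr b (Y * C) = pr (b * Cᵀ) Y := by
  rw [pr, pr]
  refine sum_congr rfl fun i _ => ?_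
  have h1 : ∀ j, b i j * (Y * C) i j = ∑ m, b i j * (Y i m * C m j) := by
    intro j
    rw [mul_apply, mul_sum]
  have h2 : ∀ m, (b * Cᵀ) i m * Y i m = ∑ j, b i j * (Y i m * C m j) := by
    intro m
    rw [mul_apply, sum_mul]
    refine sum_congr rfl fun j _ => ?_
    rw [transpose_apply]
    ring
  rw [sum_congr rfl (fun j _ => h1 j), sum_congr rfl (fun m _ => h2 m), sum_comm]

end inv

/-- **matrices and their inverses modulo `p`** -/
theorem invmain (n : ℕ) (hn : 2 ≤ n) (ε : ℝ) (hε : 0 < ε) (hε1 : ε ≤ 1) :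
    ∃ κ : ℝ, 0 < κ ∧ ∃ p₀ : ℕ, ∀ p : ℕ, p₀ ≤ p → p.Prime →
    ∀ C : Matrix (Fin n) (Fin n) ℤ, ¬ (p : ℤ) ∣ C.det →
    ∀ D : Finset (ZMod p), (0 : ZMod p) ∉ D →
    ∀ A N A' N' : Fin n → Fin n → ℕ, (∀ a b, A a b + N a b ≤ p ∧ A' a b + N' a b ≤ p) →
      (∀ a b, (p : ℝ) ^ ε ≤ N a b ∧ (p : ℝ) ^ ε ≤ N' a b) →
      (p : ℝ) ^ (2 * (n : ℝ) * n - n + 2 + ε) ≤
        D.card * ((∏ a, ∏ b, (N a b : ℝ)) * ∏ a, ∏ b, (N' a b : ℝ)) →
      ∃ G : Finset (Matrix (Fin n) (Fin n) ℕ × Matrix (Fin n) (Fin n) ℕ),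
        D.card * ((∏ a, ∏ b, (N a b : ℝ)) * ∏ a, ∏ b, (N' a b : ℝ)) *
            (p : ℝ) ^ (-((n : ℝ) * n) - 1 - ε) ≤ G.card ∧
        ∀ g ∈ G, (∀ a b, A a b ≤ g.1 a b ∧ g.1 a b < A a b + N a b) ∧
          (∀ a b, A' a b ≤ g.2 a b ∧ g.2 a b < A' a b + N' a b) ∧
          (g.1.map (fun z : ℕ => (z : ZMod p))).det ∈ D ∧
          (∀ a b, (p : ℤ) ∣ ∑ c, (g.1 a c : ℤ) * g.2 c b - C a b) ∧
          ∀ q : ℕ, q.Prime → ∀ a b, κ * ff p < |(q : ℝ) - g.1 a b| ∧ κ * ff p < |(q : ℝ) - g.2 a b| := by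
  classical
  have : Nonempty ((Fin n × Fin n) ⊕ (Fin n × Fin n)) := ⟨Sum.inl (⟨0, by omega⟩, ⟨0, by omega⟩)⟩
  obtain ⟨κ, hκ, p₁, h⟩ := primeJ ((Fin n × Fin n) ⊕ (Fin n × Fin n)) (ε / 2) (by positivity)
    (by linarith)
  have e2 := (tendsto_natCast_atTop_atTop (R := ℝ)).eventually
    ((tendsto_rpow_atTop (show (0 : ℝ) < ε / 2 by positivity)).eventually_ge_atTop (2 ^ (n + 1)))
  obtain ⟨p₂, hp₂⟩ := e2.exists_forall_of_atTop
  refine ⟨κ, hκ, max p₁ p₂, ?_⟩
  intro p hp0 hp C hC D hD A N A' N' hAN hN hW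
  have : Fact p.Prime := ⟨hp⟩
  have hpe := hp₂ p ((le_max_right _ _).trans hp0)
  have hp0' : (0 : ℝ) < p := by exact_mod_cast hp.pos
  have hp1 : (1 : ℝ) ≤ p := by exact_mod_cast hp.one_lt.le
  have hmono : ∀ x y : ℝ, x ≤ y → (p : ℝ) ^ x ≤ (p : ℝ) ^ y := fun x y h =>
    Real.rpow_le_rpow_of_exponent_le hp1 h
  set Cp : Matrix (Fin n) (Fin n) (ZMod p) := C.map (fun z : ℤ => (z : ZMod p)) with hCp
  have hCdet : Cp.det ≠ 0 := by
    intro h1
    apply hC
    rw [← ZMod.intCast_zmod_eq_zero_iff_dvd, Int.cast_det]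
    exact h1
  have hOm := card_OmD (n := n) D hD (by omega)
  have hcardJ : Fintype.card ((Fin n × Fin n) ⊕ (Fin n × Fin n)) = 2 * (n * n) := by
    rw [Fintype.card_sum]
    simp
    ring
  have hpos : (0 : ℝ) ≤ (OmD p n D).card := Nat.cast_nonneg _
  set AA : (Fin n × Fin n) ⊕ (Fin n × Fin n) → ℕ := Sum.elim (fun z => A z.1 z.2) (fun z => A' z.1 z.2)
    with hAA
  set NN : (Fin n × Fin n) ⊕ (Fin n × Fin n) → ℕ := Sum.elim (fun z => N z.1 z.2) (fun z => N' z.1 z.2)
    with hNN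
  set P : ℝ := (∏ a, ∏ b, (N a b : ℝ)) * ∏ a, ∏ b, (N' a b : ℝ) with hP
  have hprod : ∏ z, (NN z : ℝ) = P := by
    rw [Fintype.prod_sum_type, hP, Fintype.prod_prod_type, Fintype.prod_prod_type]
    rfl
  have hPN : 0 ≤ P := by positivity
  set xx : Matrix (Fin n) (Fin n) (ZMod p) → (Fin n × Fin n) ⊕ (Fin n × Fin n) → ZMod p :=
    fun X => Sum.elim (fun z => X z.1 z.2) (fun z => (X⁻¹ * Cp) z.1 z.2) with hxx
  have hR0 : (p : ℝ) ^ (n * (n - 1) + 1) = (p : ℝ) ^ ((n : ℝ) * n - n + 1) := by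
    rw [← Real.rpow_natCast]
    congr 1
    push_cast [Nat.cast_sub (show 1 ≤ n by omega)]
    ring
  have key := h p ((le_max_left _ _).trans hp0) (Matrix (Fin n) (Fin n) (ZMod p))
    (OmD p n D) xx (2 * (p : ℝ) ^ (n * (n - 1) + 1)) (by positivity) (by
      intro h0 hh0
      have e1 : ∀ X, ∑ j, h0 j * xx X j =
          pr (Matrix.of fun i j => h0 (Sum.inl (i, j))) X +
          pr ((Matrix.of fun i j => h0 (Sum.inr (i, j))) * Cpᵀ) X⁻¹ := by
        intro X
        rw [← pr_mul, Fintype.sum_sum_type, Fintype.sum_prod_type, Fintype.sum_prod_type]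
        rfl
      rw [sum_congr rfl (fun X _ => by rw [e1 X] : ∀ X ∈ OmD p n D,
        (ZMod.stdAddChar (∑ j, h0 j * xx X j) : ℂ) = _)]
      refine inv_bound hn D hD _ _ ?_
      by_contra hcon
      push Not at hcon
      obtain ⟨c1, c2⟩ := hcon
      apply hh0
      have c3 : (Matrix.of fun i j => h0 (Sum.inr (i, j))) = (0 : Matrix (Fin n) (Fin n) (ZMod p)) := by
        have hu : IsUnit (Cpᵀ).det := by
          rw [det_transpose]
          exact isUnit_iff_ne_zero.2 hCdet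
        have := congrArg (fun M => M * (Cpᵀ)⁻¹) c2
        simp only [Matrix.zero_mul] at this
        rwa [Matrix.mul_assoc, Matrix.mul_nonsing_inv _ hu, Matrix.mul_one] at this
      funext z
      rcases z with ⟨i, j⟩ | ⟨i, j⟩
      · exact congrFun (congrFun c1 i) j
      · exact congrFun (congrFun c3 i) j)
    AA NN (by
      intro z
      rcases z with z | z
      · exact (hAN z.1 z.2).1
      · exact (hAN z.1 z.2).2) (by
      intro z
      rcases z with z | z
      · exact (hmono _ _ (by linarith)).trans (hN z.1 z.2).1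
      · exact (hmono _ _ (by linarith)).trans (hN z.1 z.2).2) (by
      rw [hprod, hcardJ]
      have e3 : (p : ℝ) ^ (2 * (n : ℝ) * n - n + 2 + ε) * (p : ℝ) ^ (n * n) =
          p * ((p : ℝ) ^ (n * (n - 1) + 1) * (p : ℝ) ^ (ε / 2) * (p : ℝ) ^ (2 * (n * n))) *
            (p : ℝ) ^ (ε / 2) := by
        rw [hR0, ← Real.rpow_natCast, ← Real.rpow_natCast, ← Real.rpow_add hp0',
          ← Real.rpow_add hp0', ← Real.rpow_add hp0', mul_comm (p : ℝ), ← Real.rpow_add_one hp0'.ne',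
          ← Real.rpow_add hp0']
        congr 1
        push_cast
        ring
      have e4 : (p : ℝ) ^ (2 * (n : ℝ) * n - n + 2 + ε) * (p : ℝ) ^ (n * n) ≤
          P * (2 ^ n * p * (OmD p n D).card) := by
        calc (p : ℝ) ^ (2 * (n : ℝ) * n - n + 2 + ε) * (p : ℝ) ^ (n * n) ≤
            (D.card * P) * (p : ℝ) ^ (n * n) := mul_le_mul_of_nonneg_right hW (by positivity)
          _ = P * (D.card * (p : ℝ) ^ (n * n)) := by ring
          _ ≤ _ := mul_le_mul_of_nonneg_left hOm hPN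
      rw [e3] at e4
      have e5 : ((2 : ℝ) ^ n * p) * (2 * (p : ℝ) ^ (n * (n - 1) + 1) * (p : ℝ) ^ (ε / 2) *
            (p : ℝ) ^ (2 * (n * n))) ≤ ((2 : ℝ) ^ n * p) * (P * (OmD p n D).card) := by
        calc _ = p * ((p : ℝ) ^ (n * (n - 1) + 1) * (p : ℝ) ^ (ε / 2) * (p : ℝ) ^ (2 * (n * n))) *
              2 ^ (n + 1) := by ring
          _ ≤ p * ((p : ℝ) ^ (n * (n - 1) + 1) * (p : ℝ) ^ (ε / 2) * (p : ℝ) ^ (2 * (n * n))) *
              (p : ℝ) ^ (ε / 2) := mul_le_mul_of_nonneg_left hpe (by positivity)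
          _ ≤ _ := e4
          _ = _ := by ring
      exact le_of_mul_le_mul_left e5 (by positivity))
  refine ⟨(goodJ (κ * ff p) (OmD p n D) (fun X z => (xx X z).val) AA NN).image
    (fun X => (X.map (fun z => z.val), (X⁻¹ * Cp).map (fun z => z.val))), ?_, ?_⟩
  · rw [card_image_of_injective]
    · refine le_trans ?_ key
      rw [hprod, hcardJ]
      have e6 : (p : ℝ) ^ (-((n : ℝ) * n) - 1 - ε) =
          ((p : ℝ) ^ (2 * (n * n)))⁻¹ * (p : ℝ) ^ (n * n) * ((p : ℝ)⁻¹ * ((p : ℝ) ^ (-(ε / 2)) *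
            (p : ℝ) ^ (-(ε / 2)))) := by
        rw [← Real.rpow_natCast, ← Real.rpow_neg hp0'.le, ← Real.rpow_natCast, ← Real.rpow_add hp0',
          ← Real.rpow_add hp0', ← Real.rpow_neg_one, ← Real.rpow_add hp0', ← Real.rpow_add hp0']
        congr 1
        push_cast
        ring
      have e7 : (2 : ℝ) ^ n * (p : ℝ) ^ (-(ε / 2)) ≤ 1 := by
        rw [Real.rpow_neg hp0'.le, mul_inv_le_iff₀ (by positivity), one_mul]
        refine le_trans ?_ hpe
        exact pow_le_pow_right₀ (by norm_num) (by omega)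
      have e8 : D.card * (p : ℝ) ^ (n * n) * ((p : ℝ)⁻¹ * (p : ℝ) ^ (-(ε / 2))) ≤ (OmD p n D).card := by
        calc D.card * (p : ℝ) ^ (n * n) * ((p : ℝ)⁻¹ * (p : ℝ) ^ (-(ε / 2))) ≤
            (2 ^ n * p * (OmD p n D).card) * ((p : ℝ)⁻¹ * (p : ℝ) ^ (-(ε / 2))) :=
              mul_le_mul_of_nonneg_right hOm (by positivity)
          _ = ((2 : ℝ) ^ n * (p : ℝ) ^ (-(ε / 2))) * (OmD p n D).card := by
              field_simp
          _ ≤ _ := by
              have := mul_le_mul_of_nonneg_right e7 hpos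
              linarith
      rw [e6]
      calc (D.card : ℝ) * P * (((p : ℝ) ^ (2 * (n * n)))⁻¹ * (p : ℝ) ^ (n * n) *
            ((p : ℝ)⁻¹ * ((p : ℝ) ^ (-(ε / 2)) * (p : ℝ) ^ (-(ε / 2))))) =
          (D.card * (p : ℝ) ^ (n * n) * ((p : ℝ)⁻¹ * (p : ℝ) ^ (-(ε / 2)))) *
            (P * ((p : ℝ) ^ (2 * (n * n)))⁻¹ * (p : ℝ) ^ (-(ε / 2))) := by ring
        _ ≤ (OmD p n D).card * (P * ((p : ℝ) ^ (2 * (n * n)))⁻¹ * (p : ℝ) ^ (-(ε / 2))) :=
            mul_le_mul_of_nonneg_right e8 (by positivity)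
        _ = _ := by ring
    · intro X Y hXY
      ext a b
      have := congrFun (congrFun (congrArg Prod.fst hXY) a) b
      exact ZMod.val_injective p this
  · intro g hg
    obtain ⟨X, hX, rfl⟩ := mem_image.1 hg
    obtain ⟨h1, h2⟩ := mem_goodJ.1 hX
    have hXD := mem_OmD.1 h1
    have hXu : IsUnit X.det := isUnit_iff_ne_zero.2 fun h => hD (h ▸ hXD)
    refine ⟨fun a b => mem_Ico.1 (h2 (Sum.inl (a, b))).1, fun a b => mem_Ico.1 (h2 (Sum.inr (a, b))).1,
      ?_, ?_, fun q hq a b => ⟨(h2 (Sum.inl (a, b))).2 q hq, (h2 (Sum.inr (a, b))).2 q hq⟩⟩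
    · have e1 : ((X.map (fun z => z.val)).map (fun z : ℕ => (z : ZMod p))) = X := by
        ext a b
        simp
      rw [e1]
      exact hXD
    · intro a b
      rw [← ZMod.intCast_zmod_eq_zero_iff_dvd, Int.cast_sub, sub_eq_zero]
      have e1 : (X * (X⁻¹ * Cp)) a b = Cp a b := by
        rw [← Matrix.mul_assoc, Matrix.mul_nonsing_inv _ hXu, Matrix.one_mul]
      rw [mul_apply] at e1
      push_cast
      simp only [Matrix.map_apply, ZMod.natCast_zmod_val]
      exact e1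

end Pool.Agent.Q20.RG
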