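import Pool.Agent.Q20.RG.Prime
import Pool.Agent.Q46.MH.Dist

set_option autoImplicit false

/-! # Products of matrices from two arbitrary sets -/

namespace Pool.Agent.Q20.RG

open Finset Filter Matrix
open Pool.Agent.W147.PS (ff)
open Pool.Agent.Q46.MH

section prod

variable {p : ℕ} [Fact p.Prime] {l m n : ℕ}

/-- the pairing of two matrices -/
def pr {a b : ℕ} (H X : Matrix (Fin a) (Fin b) (ZMod p)) : ZMod p := ∑ i, ∑ j, H i j * X i j

lemma pr_sub {a b : ℕ} (H X Y : Matrix (Fin a) (Fin b) (ZMod p)) : pr H (X - Y) = pr H X - pr H Y := by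
  unfold pr
  rw [← sum_sub_distrib]
  refine sum_congr rfl fun i _ => ?_
  rw [← sum_sub_distrib]
  exact sum_congr rfl fun j _ => by rw [Matrix.sub_apply]; ring

/-- `⟨H, A B⟩ = ⟨H Bᵀ, A⟩` -/
lemma pr_mul (H : Matrix (Fin l) (Fin n) (ZMod p)) (A : Matrix (Fin l) (Fin m) (ZMod p))
    (B : Matrix (Fin m) (Fin n) (ZMod p)) : pr H (A * B) = pr (H * Bᵀ) A := by
  unfold pr
  refine sum_congr rfl fun i _ => ?_
  simp only [mul_apply, transpose_apply, mul_sum, sum_mul]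
  rw [sum_comm]
  exact sum_congr rfl fun k _ => sum_congr rfl fun j _ => by ring

/-- orthogonality of the characters of the matrices -/
lemma sum_pr (W : Matrix (Fin l) (Fin m) (ZMod p)) :
    ∑ A : Matrix (Fin l) (Fin m) (ZMod p), (ZMod.stdAddChar (pr W A) : ℂ) =
      if W = 0 then (p : ℂ) ^ (l * m) else 0 := by
  classical
  split_ifs with h0
  · subst h0
    have h1 : ∀ A : Matrix (Fin l) (Fin m) (ZMod p), pr (0 : Matrix (Fin l) (Fin m) (ZMod p)) A = 0 := by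
      intro A
      simp [pr]
    simp only [h1, AddChar.map_zero_eq_one, sum_const, card_univ, nsmul_eq_mul, mul_one]
    have h2 : Fintype.card (Matrix (Fin l) (Fin m) (ZMod p)) = p ^ (l * m) := by
      show Fintype.card (Fin l → Fin m → ZMod p) = _
      rw [Fintype.card_fun, Fintype.card_fun, ZMod.card, Fintype.card_fin, Fintype.card_fin, ← pow_mul,
        mul_comm]
    rw [h2]
    push_cast
    rfl
  · obtain ⟨i, hi⟩ := Function.ne_iff.1 h0
    obtain ⟨j, hj⟩ := Function.ne_iff.1 hi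
    have hpr : pr W (single i j 1) = W i j := by
      unfold pr
      rw [sum_eq_single i, sum_eq_single j]
      · simp
      · intro b _ hb
        simp [hb.symm]
      · intro h; exact absurd (mem_univ _) h
      · intro a _ ha
        exact sum_eq_zero fun b _ => by simp [ha.symm]
      · intro h; exact absurd (mem_univ _) h
    have hadd : ∀ A : Matrix (Fin l) (Fin m) (ZMod p), pr W (A + single i j 1) = pr W A + W i j := by
      intro A
      have := pr_sub W (A + single i j 1) A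
      rw [add_sub_cancel_left, hpr] at this
      linear_combination -this
    have h1 : ∑ A : Matrix (Fin l) (Fin m) (ZMod p), (ZMod.stdAddChar (pr W A) : ℂ) =
        (ZMod.stdAddChar (W i j) : ℂ) * ∑ A : Matrix (Fin l) (Fin m) (ZMod p), (ZMod.stdAddChar (pr W A) : ℂ) := by
      conv_lhs => rw [← Equiv.sum_comp (Equiv.addRight (single i j (1 : ZMod p)))]
      rw [mul_sum]
      refine sum_congr rfl fun A _ => ?_
      rw [Equiv.coe_addRight, hadd, AddChar.map_add_eq_mul, mul_comm]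
    have h2 : (ZMod.stdAddChar (W i j) : ℂ) ≠ 1 := char_ne_one hj
    have h3 : (1 - (ZMod.stdAddChar (W i j) : ℂ)) *
        ∑ A : Matrix (Fin l) (Fin m) (ZMod p), (ZMod.stdAddChar (pr W A) : ℂ) = 0 := by
      rw [sub_mul, one_mul, ← h1, sub_self]
    rcases mul_eq_zero.1 h3 with h4 | h4
    · exact absurd (sub_eq_zero.1 h4).symm h2
    · exact h4

/-- the matrices `D` with `H Dᵀ = 0`, for `H ≠ 0` -/
lemma card_ker (H : Matrix (Fin l) (Fin n) (ZMod p)) (hH : H ≠ 0) :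
    (univ.filter (fun D : Matrix (Fin m) (Fin n) (ZMod p) => H * Dᵀ = 0)).card ≤ p ^ (m * (n - 1)) := by
  classical
  obtain ⟨i, hi⟩ := Function.ne_iff.1 hH
  obtain ⟨j, hj⟩ := Function.ne_iff.1 hi
  have hcard : Fintype.card (Fin m → {b : Fin n // b ≠ j} → ZMod p) = p ^ (m * (n - 1)) := by
    rw [Fintype.card_fun, Fintype.card_fun, ZMod.card, Fintype.card_fin, Fintype.card_subtype_compl,
      Fintype.card_fin, Fintype.card_subtype_eq, ← pow_mul, mul_comm]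
  rw [← hcard, ← card_univ]
  refine card_le_card_of_injOn (fun D a (b : {b : Fin n // b ≠ j}) => D a b)
    (fun _ _ => mem_coe.2 (mem_univ _)) ?_
  intro D hD D' hD' hDD
  rw [mem_coe, mem_filter] at hD hD'
  have h1 : ∀ a b, b ≠ j → D a b = D' a b := fun a b hb => congrFun (congrFun hDD a) ⟨b, hb⟩
  ext a b
  by_cases hb : b = j
  · subst hb
    have h2 : ∀ E : Matrix (Fin m) (Fin n) (ZMod p), H * Eᵀ = 0 →
        H i b * E a b + ∑ c ∈ univ.erase b, H i c * E a c = 0 := by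
      intro E hE
      have h3 := congrFun (congrFun hE i) a
      rw [mul_apply] at h3
      simp only [transpose_apply, Matrix.zero_apply] at h3
      rw [add_sum_erase univ (fun c => H i c * E a c) (mem_univ b)]
      exact h3
    have h3 := h2 D hD.2
    have h4 := h2 D' hD'.2
    have h5 : ∑ c ∈ univ.erase b, H i c * D a c = ∑ c ∈ univ.erase b, H i c * D' a c :=
      sum_congr rfl fun c hc => by rw [h1 a c (ne_of_mem_erase hc)]
    rw [h5] at h3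
    exact mul_left_cancel₀ hj (add_right_cancel (h3.trans h4.symm))
  · exact h1 a b hb

/-- the exponential sums over the products -/
lemma prod_sum (𝒜 : Finset (Matrix (Fin l) (Fin m) (ZMod p))) (ℬ : Finset (Matrix (Fin m) (Fin n) (ZMod p)))
    (H : Matrix (Fin l) (Fin n) (ZMod p)) (hH : H ≠ 0) :
    ‖∑ z ∈ 𝒜 ×ˢ ℬ, (ZMod.stdAddChar (pr H (z.1 * z.2)) : ℂ)‖ ≤
      Real.sqrt ((p : ℝ) ^ (l * m + m * (n - 1)) * 𝒜.card * ℬ.card) := by
  classical
  set V : Matrix (Fin l) (Fin m) (ZMod p) → ℂ := fun A => ∑ B ∈ ℬ, (ZMod.stdAddChar (pr H (A * B)) : ℂ)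
    with hV
  have h1 : ‖∑ z ∈ 𝒜 ×ˢ ℬ, (ZMod.stdAddChar (pr H (z.1 * z.2)) : ℂ)‖ ≤ ∑ A ∈ 𝒜, ‖V A‖ := by
    rw [sum_product]
    exact norm_sum_le _ _
  have h2 : (∑ A ∈ 𝒜, ‖V A‖) ^ 2 ≤ 𝒜.card * ∑ A ∈ 𝒜, ‖V A‖ ^ 2 := sq_sum_le_card_mul_sum_sq
  have h3 : ∑ A ∈ 𝒜, ‖V A‖ ^ 2 ≤ ∑ A, ‖V A‖ ^ 2 :=
    sum_le_sum_of_subset_of_nonneg (subset_univ _) (fun _ _ _ => by positivity)
  have h4 : ((∑ A, ‖V A‖ ^ 2 : ℝ) : ℂ) = ∑ B ∈ ℬ, ∑ B' ∈ ℬ,
      (if H * (B - B')ᵀ = 0 then (p : ℂ) ^ (l * m) else 0) := by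
    push_cast
    have e1 : ∀ A, (‖V A‖ : ℂ) ^ 2 = ∑ B ∈ ℬ, ∑ B' ∈ ℬ,
        (ZMod.stdAddChar (pr (H * (B - B')ᵀ) A) : ℂ) := by
      intro A
      have e2 : (‖V A‖ : ℂ) ^ 2 = V A * (starRingEnd ℂ) (V A) := by
        rw [Complex.mul_conj, Complex.normSq_eq_norm_sq]
        push_cast
        rfl
      rw [e2, hV]
      simp only
      rw [map_sum, sum_mul_sum]
      refine sum_congr rfl fun B _ => sum_congr rfl fun B' _ => ?_
      rw [conj_char', ← AddChar.map_add_eq_mul, ← pr_mul]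
      congr 1
      rw [Matrix.mul_sub, pr_sub]
      ring
    rw [sum_congr rfl (fun A _ => e1 A), sum_comm]
    refine sum_congr rfl fun B _ => ?_
    rw [sum_comm]
    exact sum_congr rfl fun B' _ => sum_pr _
  have h5 : ∑ A, ‖V A‖ ^ 2 ≤ (p : ℝ) ^ (l * m + m * (n - 1)) * ℬ.card := by
    have e1 : ((∑ A, ‖V A‖ ^ 2 : ℝ) : ℂ) = ((∑ B ∈ ℬ, ∑ B' ∈ ℬ,
        (if H * (B - B')ᵀ = 0 then (p : ℝ) ^ (l * m) else 0) : ℝ) : ℂ) := by
      rw [h4]
      push_cast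
      refine sum_congr rfl fun B _ => sum_congr rfl fun B' _ => ?_
      split_ifs <;> push_cast <;> rfl
    have e2 : ∑ A, ‖V A‖ ^ 2 = ∑ B ∈ ℬ, ∑ B' ∈ ℬ,
        (if H * (B - B')ᵀ = 0 then (p : ℝ) ^ (l * m) else 0) := by exact_mod_cast e1
    rw [e2]
    have e3 : ∀ B ∈ ℬ, ∑ B' ∈ ℬ, (if H * (B - B')ᵀ = 0 then (p : ℝ) ^ (l * m) else 0) ≤
        (p : ℝ) ^ (l * m + m * (n - 1)) := by
      intro B _
      rw [← sum_filter, sum_const, nsmul_eq_mul, pow_add, mul_comm]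
      apply mul_le_mul_of_nonneg_left _ (by positivity)
      have e4 : (ℬ.filter (fun B' => H * (B - B')ᵀ = 0)).card ≤ p ^ (m * (n - 1)) := by
        refine le_trans ?_ (card_ker (m := m) H hH)
        refine card_le_card_of_injOn (fun B' => B - B') ?_ ?_
        · intro B' hB'
          rw [mem_coe, mem_filter] at hB' ⊢
          exact ⟨mem_univ _, hB'.2⟩
        · intro X _ Y _ hXY
          exact sub_right_injective hXY
      exact_mod_cast e4
    refine (sum_le_sum e3).trans ?_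
    rw [sum_const, nsmul_eq_mul, mul_comm]
  refine h1.trans (Real.le_sqrt_of_sq_le ?_)
  calc (∑ A ∈ 𝒜, ‖V A‖) ^ 2 ≤ 𝒜.card * ∑ A, ‖V A‖ ^ 2 :=
        h2.trans (mul_le_mul_of_nonneg_left h3 (Nat.cast_nonneg _))
    _ ≤ 𝒜.card * ((p : ℝ) ^ (l * m + m * (n - 1)) * ℬ.card) :=
        mul_le_mul_of_nonneg_left h5 (Nat.cast_nonneg _)
    _ = _ := by ring

end prod

/-- **products of two arbitrary sets of matrices** -/
theorem prodmain (l m n : ℕ) (hl : 1 ≤ l) (hn : 1 ≤ n) (ε : ℝ) (hε : 0 < ε) (hε1 : ε ≤ 1) :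
    ∃ κ : ℝ, 0 < κ ∧ ∃ p₀ : ℕ, ∀ p : ℕ, p₀ ≤ p → ∀ [Fact p.Prime],
    ∀ (𝒜 : Finset (Matrix (Fin l) (Fin m) (ZMod p))) (ℬ : Finset (Matrix (Fin m) (Fin n) (ZMod p)))
      (A N : Fin l → Fin n → ℕ), (∀ i j, A i j + N i j ≤ p) → (∀ i j, (p : ℝ) ^ ε ≤ N i j) →
      (p : ℝ) ^ (2 * (l : ℝ) * n + l * m + m * n - m + ε) ≤
        (∏ i, ∏ j, (N i j : ℝ)) ^ 2 * 𝒜.card * ℬ.card →
      ∃ G ⊆ 𝒜 ×ˢ ℬ, (∏ i, ∏ j, (N i j : ℝ)) / (p : ℝ) ^ (l * n) * (p : ℝ) ^ (-ε) *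
          (𝒜.card * ℬ.card) ≤ G.card ∧
        ∀ z ∈ G, ∀ i j, (A i j ≤ ((z.1 * z.2) i j).val ∧ ((z.1 * z.2) i j).val < A i j + N i j) ∧
          ∀ q : ℕ, q.Prime → κ * ff p < |(q : ℝ) - ((z.1 * z.2) i j).val| := by
  classical
  have : Nonempty (Fin l × Fin n) := ⟨(⟨0, by omega⟩, ⟨0, by omega⟩)⟩
  obtain ⟨κ, hκ, p₀, h⟩ := primeJ (Fin l × Fin n) (ε / 2) (by positivity) (by linarith)
  refine ⟨κ, hκ, p₀, ?_⟩
  intro p hp0 _ 𝒜 ℬ A N hAN hN hW
  have hpp : p.Prime := Fact.out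
  have hp0' : (0 : ℝ) < p := by exact_mod_cast hpp.pos
  have hp1 : (1 : ℝ) ≤ p := by exact_mod_cast hpp.one_lt.le
  have hmono : ∀ x y : ℝ, x ≤ y → (p : ℝ) ^ x ≤ (p : ℝ) ^ y := fun x y h =>
    Real.rpow_le_rpow_of_exponent_le hp1 h
  have hcardJ : Fintype.card (Fin l × Fin n) = l * n := by simp
  have hprod : ∏ z : Fin l × Fin n, (N z.1 z.2 : ℝ) = ∏ i, ∏ j, (N i j : ℝ) := by
    rw [Fintype.prod_prod_type]
  have hPN : 0 ≤ ∏ i, ∏ j, (N i j : ℝ) := by positivity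
  set a : ℝ := (𝒜.card : ℝ) with ha
  set b : ℝ := (ℬ.card : ℝ) with hb
  have ha0 : 0 ≤ a := Nat.cast_nonneg _
  have hb0 : 0 ≤ b := Nat.cast_nonneg _
  have hcard : ((𝒜 ×ˢ ℬ).card : ℝ) = a * b := by
    rw [card_product]
    push_cast
    rfl
  have key := h p hp0 (Matrix (Fin l) (Fin m) (ZMod p) × Matrix (Fin m) (Fin n) (ZMod p)) (𝒜 ×ˢ ℬ)
    (fun z ij => (z.1 * z.2) ij.1 ij.2)
    (Real.sqrt ((p : ℝ) ^ (l * m + m * (n - 1)) * a * b)) (Real.sqrt_nonneg _) (by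
      intro H hH
      have hH' : (Matrix.of fun i j => H (i, j)) ≠ 0 := by
        intro h1
        apply hH
        funext ij
        exact congrFun (congrFun h1 ij.1) ij.2
      refine le_trans (le_of_eq ?_) (prod_sum 𝒜 ℬ (Matrix.of fun i j => H (i, j)) hH')
      congr 1
      refine sum_congr rfl fun z _ => ?_
      congr 1
      unfold pr
      rw [Fintype.sum_prod_type]
      rfl)
    (fun z => A z.1 z.2) (fun z => N z.1 z.2) (fun z => hAN z.1 z.2)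
    (fun z => (hmono _ _ (by linarith)).trans (hN z.1 z.2)) (by
      rw [hprod, hcardJ, hcard]
      have h1 : Real.sqrt ((p : ℝ) ^ (l * m + m * (n - 1)) * a * b) * (p : ℝ) ^ (ε / 2) * (p : ℝ) ^ (l * n) =
          Real.sqrt ((p : ℝ) ^ (l * m + m * (n - 1)) * a * b * ((p : ℝ) ^ ε * ((p : ℝ) ^ (l * n)) ^ 2)) := by
        rw [Real.sqrt_mul (show (0 : ℝ) ≤ (p : ℝ) ^ (l * m + m * (n - 1)) * a * b by positivity)
            ((p : ℝ) ^ ε * ((p : ℝ) ^ (l * n)) ^ 2),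
          Real.sqrt_mul (show (0 : ℝ) ≤ (p : ℝ) ^ ε by positivity) (((p : ℝ) ^ (l * n)) ^ 2),
          Real.sqrt_sq (by positivity), Real.sqrt_eq_rpow ((p : ℝ) ^ ε), ← Real.rpow_mul hp0'.le]
        have : ε * (1 / 2) = ε / 2 := by ring
        rw [this]
        ring
      rw [h1]
      apply Real.sqrt_le_iff.2
      refine ⟨by positivity, ?_⟩
      have h2 : (p : ℝ) ^ (2 * (l : ℝ) * n + l * m + m * n - m + ε) =
          (p : ℝ) ^ (l * m + m * (n - 1)) * ((p : ℝ) ^ ε * ((p : ℝ) ^ (l * n)) ^ 2) := by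
        rw [← pow_mul, ← Real.rpow_natCast, ← Real.rpow_natCast, ← Real.rpow_add hp0',
          ← Real.rpow_add hp0']
        congr 1
        push_cast [Nat.cast_sub hn]
        ring
      rw [h2] at hW
      calc (p : ℝ) ^ (l * m + m * (n - 1)) * a * b * ((p : ℝ) ^ ε * ((p : ℝ) ^ (l * n)) ^ 2) =
            (p : ℝ) ^ (l * m + m * (n - 1)) * ((p : ℝ) ^ ε * ((p : ℝ) ^ (l * n)) ^ 2) * (a * b) := by ring
        _ ≤ (∏ i, ∏ j, (N i j : ℝ)) ^ 2 * a * b * (a * b) := mul_le_mul_of_nonneg_right hW (by positivity)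
        _ = ((∏ i, ∏ j, (N i j : ℝ)) * (a * b)) ^ 2 := by ring)
  refine ⟨goodJ (κ * ff p) (𝒜 ×ˢ ℬ) (fun (z : Matrix (Fin l) (Fin m) (ZMod p) ×
    Matrix (Fin m) (Fin n) (ZMod p)) ij => ((z.1 * z.2) ij.1 ij.2).val) (fun z : Fin l × Fin n => A z.1 z.2)
    (fun z : Fin l × Fin n => N z.1 z.2), fun z hz => (mem_goodJ.1 hz).1, ?_, ?_⟩
  · refine le_trans ?_ key
    rw [hprod, hcardJ, hcard]
    calc (∏ i, ∏ j, (N i j : ℝ)) / (p : ℝ) ^ (l * n) * (p : ℝ) ^ (-ε) * (a * b) =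
        (∏ i, ∏ j, (N i j : ℝ)) * (a * b) / (p : ℝ) ^ (l * n) * (p : ℝ) ^ (-ε) := by ring
      _ ≤ _ := mul_le_mul_of_nonneg_left (hmono _ _ (by linarith)) (by positivity)
  · intro z hz i j
    have h1 := (mem_goodJ.1 hz).2 (i, j)
    exact ⟨mem_Ico.1 h1.1, h1.2⟩

end Pool.Agent.Q20.RG
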