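import Pool.Agent.Q20.RG.Prime
import Pool.Agent.Q46.MH.Poly
import Pool.Agent.Q46.MH.Dist

set_option autoImplicit false

/-! # Systems of polynomials and additive equations over a prime field -/

namespace Pool.Agent.Q20.RG

open Finset Filter Polynomial
open Pool.Agent.W147.PS (ff)
open Pool.Agent.Q46.MH

section poly

variable {p : ℕ} [Fact p.Prime]

lemma weil1 (F : (ZMod p)[X]) (h1 : 1 ≤ F.natDegree) (h2 : F.natDegree < p) :
    ‖∑ x : ZMod p, (ZMod.stdAddChar (F.eval x) : ℂ)‖ ≤ F.natDegree * Real.sqrt p := by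
  have h3 := Pool.Agent.Y951.WP.weil_le p F
    (by
      intro hd
      exact absurd (Nat.le_of_dvd (by omega) hd) (by omega))
    (ZMod.isPrimitive_stdAddChar p)
  refine h3.trans (mul_le_mul_of_nonneg_right ?_ (Real.sqrt_nonneg _))
  exact_mod_cast Nat.sub_le _ _

end poly

lemma prod_le_one_mul {r : ℕ} {p : ℕ} (N : Fin r → ℕ) (hN : ∀ j, N j ≤ p) (i : Fin r) :
    ∏ j, (N j : ℝ) ≤ N i * (p : ℝ) ^ (r - 1) := by
  rw [← mul_prod_erase univ (fun j => (N j : ℝ)) (mem_univ i)]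
  apply mul_le_mul_of_nonneg_left _ (Nat.cast_nonneg _)
  have h1 : ∏ j ∈ univ.erase i, (N j : ℝ) ≤ ∏ _j ∈ univ.erase i, (p : ℝ) :=
    prod_le_prod (fun _ _ => Nat.cast_nonneg _) fun j _ => by exact_mod_cast hN j
  rwa [prod_const, card_erase_of_mem (mem_univ i), card_univ, Fintype.card_fin] at h1

/-- **systems of polynomials** -/
theorem sysmain (r d : ℕ) (hr : 1 ≤ r) (ε : ℝ) (hε : 0 < ε) (hε1 : ε ≤ 1) :
    ∃ κ : ℝ, 0 < κ ∧ ∃ p₀ : ℕ, ∀ p : ℕ, p₀ ≤ p → p.Prime →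
    ∀ f : Fin r → ℤ[X], (∀ j, (f j).natDegree ≤ d) →
    (∀ (h : Fin r → ZMod p) (c : ZMod p),
      ∑ j, C (h j) * (f j).map (Int.castRingHom (ZMod p)) = C c → h = 0) →
    ∀ A N : Fin r → ℕ, (∀ j, A j + N j ≤ p) →
      (p : ℝ) ^ ((r : ℝ) - 1 / 2 + ε) ≤ ∏ j, (N j : ℝ) →
      ∃ G : Finset ℕ, (∏ j, (N j : ℝ)) * (p : ℝ) ^ (1 - (r : ℝ) - ε) ≤ G.card ∧
        ∀ x ∈ G, x < p ∧ ∀ j, ∃ y : ℕ, (A j ≤ y ∧ y < A j + N j) ∧
          (p : ℤ) ∣ (f j).eval (x : ℤ) - y ∧ ∀ q : ℕ, q.Prime → κ * ff p < |(q : ℝ) - y| := by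
  classical
  have : Nonempty (Fin r) := ⟨⟨0, by omega⟩⟩
  obtain ⟨κ, hκ, p₁, h⟩ := primeJ (Fin r) (ε / 2) (by positivity) (by linarith)
  have e2 := (tendsto_natCast_atTop_atTop (R := ℝ)).eventually
    ((tendsto_rpow_atTop (show (0 : ℝ) < ε / 2 by positivity)).eventually_ge_atTop d)
  obtain ⟨p₂, hp₂⟩ := e2.exists_forall_of_atTop
  refine ⟨κ, hκ, max (max p₁ p₂) (d + 1), ?_⟩
  intro p hp0 hp f hf hind A N hAN hW
  have : Fact p.Prime := ⟨hp⟩
  have hpe := hp₂ p ((le_max_right _ _).trans ((le_max_left _ _).trans hp0))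
  have hpd : d + 1 ≤ p := (le_max_right _ _).trans hp0
  have hp0' : (0 : ℝ) < p := by exact_mod_cast hp.pos
  have hp1 : (1 : ℝ) ≤ p := by exact_mod_cast hp.one_lt.le
  have hmono : ∀ x y : ℝ, x ≤ y → (p : ℝ) ^ x ≤ (p : ℝ) ^ y := fun x y h =>
    Real.rpow_le_rpow_of_exponent_le hp1 h
  have hN : ∀ j, (p : ℝ) ^ (ε / 2) ≤ N j := by
    intro i
    have h1 := prod_le_one_mul N (fun j => (by have := hAN j; omega : N j ≤ p)) i
    have h2 : (p : ℝ) ^ (ε / 2) * (p : ℝ) ^ (r - 1) ≤ N i * (p : ℝ) ^ (r - 1) := by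
      calc (p : ℝ) ^ (ε / 2) * (p : ℝ) ^ (r - 1) = (p : ℝ) ^ (ε / 2 + ((r : ℝ) - 1)) := by
            rw [Real.rpow_add hp0', ← Real.rpow_natCast]
            congr 2
            push_cast [Nat.cast_sub hr]
            ring
        _ ≤ (p : ℝ) ^ ((r : ℝ) - 1 / 2 + ε) := hmono _ _ (by linarith)
        _ ≤ _ := hW.trans h1
    exact le_of_mul_le_mul_right h2 (by positivity)
  have hcard : ((univ : Finset (ZMod p)).card : ℝ) = p := by rw [card_univ, ZMod.card]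
  have hPN : 0 ≤ ∏ j, (N j : ℝ) := by positivity
  have key := h p ((le_max_left _ _).trans ((le_max_left _ _).trans hp0)) (ZMod p) univ
    (fun x j => ((f j).map (Int.castRingHom (ZMod p))).eval x) (d * Real.sqrt p) (by positivity) (by
      intro h0 hh0
      set F : (ZMod p)[X] := ∑ j, C (h0 j) * (f j).map (Int.castRingHom (ZMod p)) with hF
      have h1 : ∀ x, ∑ j, h0 j * ((f j).map (Int.castRingHom (ZMod p))).eval x = F.eval x := by
        intro x
        rw [hF, eval_finsetSum]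
        exact sum_congr rfl fun j _ => by rw [eval_mul, eval_C]
      have h2 : 1 ≤ F.natDegree := by
        by_contra hcon
        have h3 : F.natDegree = 0 := by omega
        exact hh0 (hind h0 (F.coeff 0) (eq_C_of_natDegree_eq_zero h3))
      have h4 : F.natDegree ≤ d := by
        rw [hF]
        refine natDegree_sum_le_of_forall_le _ _ fun j _ => ?_
        exact (natDegree_C_mul_le _ _).trans (natDegree_map_le.trans (hf j))
      rw [sum_congr rfl (fun x _ => by rw [h1 x] : ∀ x ∈ (univ : Finset (ZMod p)),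
        (ZMod.stdAddChar (∑ j, h0 j * ((f j).map (Int.castRingHom (ZMod p))).eval x) : ℂ) =
          (ZMod.stdAddChar (F.eval x) : ℂ))]
      refine (weil1 F h2 (by omega)).trans (mul_le_mul_of_nonneg_right ?_ (Real.sqrt_nonneg _))
      exact_mod_cast h4)
    A N hAN hN (by
      rw [hcard, Fintype.card_fin]
      have e3 : (p : ℝ) ^ ((r : ℝ) - 1 / 2 + ε) * p =
          ((p : ℝ) ^ (ε / 2) * Real.sqrt p) * ((p : ℝ) ^ (ε / 2) * (p : ℝ) ^ r) := by
        rw [Real.sqrt_eq_rpow, ← Real.rpow_natCast, ← Real.rpow_add hp0', ← Real.rpow_add hp0',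
          ← Real.rpow_add hp0', ← Real.rpow_add_one hp0'.ne']
        congr 1
        ring
      calc d * Real.sqrt p * (p : ℝ) ^ (ε / 2) * (p : ℝ) ^ r =
          (d * Real.sqrt p) * ((p : ℝ) ^ (ε / 2) * (p : ℝ) ^ r) := by ring
        _ ≤ ((p : ℝ) ^ (ε / 2) * Real.sqrt p) * ((p : ℝ) ^ (ε / 2) * (p : ℝ) ^ r) := by
            apply mul_le_mul_of_nonneg_right _ (by positivity)
            exact mul_le_mul_of_nonneg_right hpe (Real.sqrt_nonneg _)
        _ = (p : ℝ) ^ ((r : ℝ) - 1 / 2 + ε) * p := e3.symm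
        _ ≤ _ := mul_le_mul_of_nonneg_right hW hp0'.le)
  refine ⟨(goodJ (κ * ff p) univ (fun (x : ZMod p) j =>
    (((f j).map (Int.castRingHom (ZMod p))).eval x).val) A N).image ZMod.val, ?_, ?_⟩
  · rw [card_image_of_injective _ (ZMod.val_injective p)]
    refine le_trans ?_ key
    rw [hcard, Fintype.card_fin]
    have e4 : (p : ℝ) ^ (1 - (r : ℝ) - ε) = p / (p : ℝ) ^ r * (p : ℝ) ^ (-ε) := by
      rw [sub_eq_add_neg (1 - (r : ℝ)) ε, Real.rpow_add hp0', Real.rpow_sub hp0', Real.rpow_one,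
        Real.rpow_natCast]
    rw [e4]
    calc (∏ j, (N j : ℝ)) * (p / (p : ℝ) ^ r * (p : ℝ) ^ (-ε)) =
        (∏ j, (N j : ℝ)) * p / (p : ℝ) ^ r * (p : ℝ) ^ (-ε) := by ring
      _ ≤ _ := mul_le_mul_of_nonneg_left (hmono _ _ (by linarith)) (by positivity)
  · intro x hx
    obtain ⟨z, hz, rfl⟩ := mem_image.1 hx
    obtain ⟨h1, h2⟩ := mem_goodJ.1 hz
    refine ⟨ZMod.val_lt z, fun j => ⟨_, mem_Ico.1 (h2 j).1, ?_, (h2 j).2⟩⟩
    rw [← ZMod.intCast_zmod_eq_zero_iff_dvd]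
    push_cast
    rw [ZMod.natCast_zmod_val]
    have h3 : (((f j).eval ((z.val : ℕ) : ℤ) : ℤ) : ZMod p) =
        ((f j).map (Int.castRingHom (ZMod p))).eval z := by
      have h4 := Polynomial.eval_intCast_map (Int.castRingHom (ZMod p)) (f j) ((z.val : ℕ) : ℤ)
      rw [Int.cast_natCast, ZMod.natCast_zmod_val] at h4
      rw [h4]
      rfl
    rw [h3, sub_self]

end Pool.Agent.Q20.RG
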