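import Pool.Agent.Q20.RG.Gen
import Pool.Agent.Q46.MH.Hyp

set_option autoImplicit false

/-! # Families of vectors over a prime field -/

namespace Pool.Agent.Q20.RG

open Finset Filter
open Pool.Agent.H469R2.NK (e norm_e e_add)
open Pool.Agent.W147.PS (ff)
open Pool.Agent.Q46.MH

/-- **families of vectors over a prime field** -/
theorem primeJ (J : Type) [Fintype J] [DecidableEq J] [Nonempty J] (ε : ℝ) (hε : 0 < ε) (hε1 : ε ≤ 1) :
    ∃ κ : ℝ, 0 < κ ∧ ∃ p₀ : ℕ, ∀ p : ℕ, p₀ ≤ p → ∀ [Fact p.Prime],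
    ∀ (ι : Type) (Ω : Finset ι) (x : ι → J → ZMod p) (B : ℝ), 0 ≤ B →
    (∀ h : J → ZMod p, h ≠ 0 → ‖∑ i ∈ Ω, (ZMod.stdAddChar (∑ j, h j * x i j) : ℂ)‖ ≤ B) →
    ∀ A N : J → ℕ, (∀ j, A j + N j ≤ p) → (∀ j, (p : ℝ) ^ ε ≤ N j) →
      B * (p : ℝ) ^ ε * (p : ℝ) ^ Fintype.card J ≤ (∏ j, (N j : ℝ)) * Ω.card →
      (∏ j, (N j : ℝ)) * Ω.card / (p : ℝ) ^ Fintype.card J * (p : ℝ) ^ (-ε) ≤
        (goodJ (κ * ff p) Ω (fun i j => (x i j).val) A N).card := by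
  classical
  obtain ⟨κ, hκ, hg⟩ := graphJ J ε hε hε1
  have e1 := (tendsto_natCast_atTop_atTop (R := ℝ)).eventually hg
  obtain ⟨p₀, hp₀⟩ := (e1.and (eventually_ge_atTop 2)).exists_forall_of_atTop
  refine ⟨κ, hκ, p₀, ?_⟩
  intro p hp0 _ ι Ω x B hB hS A N hAN hN hW
  obtain ⟨g1, g2⟩ := hp₀ p hp0
  have hpp : p.Prime := Fact.out
  have hp0' : (0 : ℝ) < p := by exact_mod_cast hpp.pos
  have hprod : ∏ _j : J, ((p : ℕ) : ℝ) = (p : ℝ) ^ Fintype.card J := by rw [prod_const, card_univ]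
  have key := g1 (fun _ => p) (fun _ => hpp.one_lt.le) (fun _ => le_rfl) ι Ω
    (fun i j => (x i j).val) (fun i _ j => ZMod.val_lt _) B hB (by
      intro h hh h0
      have h1 : (fun j => (h j : ZMod p)) ≠ 0 := by
        intro h2
        apply h0
        funext j
        have h3 : ((h j : ℕ) : ZMod p) = 0 := congrFun h2 j
        rw [ZMod.natCast_eq_zero_iff] at h3
        have h4 := hh j
        rcases Nat.eq_zero_or_pos (h j) with h5 | h5
        · exact h5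
        · exact absurd (Nat.le_of_dvd h5 h3) (by omega)
      refine le_trans (le_of_eq ?_) (hS _ h1)
      congr 1
      refine sum_congr rfl fun i _ => ?_
      have h5 : ∀ s : Finset J, (ZMod.stdAddChar (∑ j ∈ s, (h j : ZMod p) * x i j) : ℂ) =
          ∏ j ∈ s, (ZMod.stdAddChar ((h j : ZMod p) * x i j) : ℂ) := by
        intro s
        induction s using Finset.induction_on with
        | empty => simp
        | insert a s ha ih => rw [sum_insert ha, prod_insert ha, AddChar.map_add_eq_mul, ih]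
      rw [e_sumJ, h5 univ]
      exact prod_congr rfl fun j _ => e_val (h j) (x i j))
    A N hAN hN (by
      rw [hprod, le_div_iff₀ (by positivity)]
      exact hW)
  rw [hprod] at key
  exact key

/-- **sets of vectors over a prime field** -/
theorem primeSet (J : Type) [Fintype J] [DecidableEq J] [Nonempty J] (ε : ℝ) (hε : 0 < ε) (hε1 : ε ≤ 1) :
    ∃ κ : ℝ, 0 < κ ∧ ∃ p₀ : ℕ, ∀ p : ℕ, p₀ ≤ p → ∀ [Fact p.Prime],
    ∀ (Ω : Finset (J → ZMod p)) (B : ℝ), 0 ≤ B →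
    (∀ h : J → ZMod p, h ≠ 0 → ‖∑ v ∈ Ω, (ZMod.stdAddChar (∑ j, h j * v j) : ℂ)‖ ≤ B) →
    ∀ A N : J → ℕ, (∀ j, A j + N j ≤ p) → (∀ j, (p : ℝ) ^ ε ≤ N j) →
      B * (p : ℝ) ^ ε * (p : ℝ) ^ Fintype.card J ≤ (∏ j, (N j : ℝ)) * Ω.card →
      ∃ G : Finset (J → ℕ),
        (∏ j, (N j : ℝ)) * Ω.card / (p : ℝ) ^ Fintype.card J * (p : ℝ) ^ (-ε) ≤ G.card ∧
        ∀ z ∈ G, (∀ j, A j ≤ z j ∧ z j < A j + N j) ∧ (fun j => (z j : ZMod p)) ∈ Ω ∧
          ∀ j, ∀ q : ℕ, q.Prime → κ * ff p < |(q : ℝ) - z j| := by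
  classical
  obtain ⟨κ, hκ, p₀, h⟩ := primeJ J ε hε hε1
  refine ⟨κ, hκ, p₀, ?_⟩
  intro p hp0 _ Ω B hB hS A N hAN hN hW
  have key := h p hp0 (J → ZMod p) Ω (fun v => v) B hB hS A N hAN hN hW
  refine ⟨(goodJ (κ * ff p) Ω (fun (v : J → ZMod p) j => (v j).val) A N).image
    (fun v j => (v j).val), ?_, ?_⟩
  · rw [card_image_of_injective]
    · exact key
    · intro v w hvw
      funext j
      exact ZMod.val_injective p (congrFun hvw j)
  · intro z hz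
    obtain ⟨v, hv, rfl⟩ := mem_image.1 hz
    obtain ⟨h1, h2⟩ := mem_goodJ.1 hv
    refine ⟨fun j => mem_Ico.1 (h2 j).1, ?_, fun j => (h2 j).2⟩
    have h3 : (fun j => (((v j).val : ℕ) : ZMod p)) = v := by
      funext j
      exact ZMod.natCast_zmod_val _
    rw [h3]
    exact h1

end Pool.Agent.Q20.RG
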