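import Pool.Agent.Q20.RG.PolySys
import Pool.Agent.H353R2.Z2

set_option autoImplicit false

/-! # Powers of primitive roots -/

namespace Pool.Agent.Q20.RG

open Finset Filter Polynomial
open Pool.Agent.W147.PS (ff)
open Pool.Agent.Q46.MH
open ArithmeticFunction (moebius zeta)

/-- the coprime indices -/
lemma sum_coprime (n : ℕ) (hn : 0 < n) (F : ℕ → ℂ) :
    ∑ m ∈ (range n).filter (fun m => n.Coprime m), F m =
      ∑ d ∈ n.divisors, ((moebius d : ℤ) : ℂ) * ∑ k ∈ range (n / d), F (d * k) := by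
  have h1 : ∀ m, (if n.Coprime m then F m else 0) =
      ∑ d ∈ n.divisors, if d ∣ m then ((moebius d : ℤ) : ℂ) * F m else 0 := by
    intro m
    have e1 : ∑ d ∈ (n.gcd m).divisors, (moebius d : ℤ) = if n.Coprime m then 1 else 0 := by
      rw [← ArithmeticFunction.coe_mul_zeta_apply, ArithmeticFunction.moebius_mul_coe_zeta,
        ArithmeticFunction.one_apply]
    have e2 : (n.gcd m).divisors = n.divisors.filter (fun d => d ∣ m) := by
      ext d
      rw [Nat.mem_divisors, mem_filter, Nat.mem_divisors, Nat.dvd_gcd_iff]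
      constructor
      · rintro ⟨⟨h2, h3⟩, _⟩
        exact ⟨⟨h2, hn.ne'⟩, h3⟩
      · rintro ⟨⟨h2, _⟩, h3⟩
        exact ⟨⟨h2, h3⟩, Nat.gcd_ne_zero_left hn.ne'⟩
    rw [e2, sum_filter] at e1
    have e3 : ∑ d ∈ n.divisors, (if d ∣ m then ((moebius d : ℤ) : ℂ) * F m else 0) =
        (((∑ d ∈ n.divisors, if d ∣ m then (moebius d : ℤ) else 0) : ℤ) : ℂ) * F m := by
      push_cast
      rw [sum_mul]
      refine sum_congr rfl fun d _ => ?_
      split_ifs <;> simp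
    rw [e3, e1]
    split_ifs <;> simp
  rw [sum_filter, sum_congr rfl (fun m _ => h1 m), sum_comm]
  refine sum_congr rfl fun d hd => ?_
  have hdn := Nat.dvd_of_mem_divisors hd
  have hd0 : 0 < d := Nat.pos_of_mem_divisors hd
  rw [← sum_filter, mul_sum]
  symm
  refine sum_bij (fun k _ => d * k) ?_ ?_ ?_ ?_
  · intro k hk
    rw [mem_filter, mem_range]
    rw [mem_range] at hk
    refine ⟨?_, dvd_mul_right _ _⟩
    calc d * k < d * (n / d) := Nat.mul_lt_mul_of_pos_left hk hd0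
      _ = n := Nat.mul_div_cancel' hdn
  · intro a _ b _ h
    exact Nat.eq_of_mul_eq_mul_left hd0 h
  · intro m hm
    rw [mem_filter, mem_range] at hm
    obtain ⟨k, rfl⟩ := hm.2
    refine ⟨k, ?_, rfl⟩
    rw [mem_range]
    rw [← Nat.mul_div_cancel' hdn] at hm
    exact Nat.lt_of_mul_lt_mul_left hm.1
  · intro k _
    rfl

lemma add_mul_period (F : ℕ → ℂ) (T : ℕ) (hF : ∀ m, F (m + T) = F m) (d m : ℕ) :
    F (d * T + m) = F m := by
  induction d with
  | zero => simp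
  | succ d ihd =>
    have : (d + 1) * T + m = (d * T + m) + T := by ring
    rw [this, hF, ihd]

lemma sum_period (F : ℕ → ℂ) (T : ℕ) (hF : ∀ m, F (m + T) = F m) (d : ℕ) :
    ∑ m ∈ range (d * T), F m = d * ∑ m ∈ range T, F m := by
  induction d with
  | zero => simp
  | succ d ih =>
    rw [add_mul, one_mul, sum_range_add, ih,
      sum_congr rfl (fun m _ => add_mul_period F T hF d m)]
    push_cast
    ring

section prim

variable {p : ℕ} [Fact p.Prime]

/-- sums over all units in terms of a generator -/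
lemma sum_gen (g : (ZMod p)ˣ) (hg : orderOf g = p - 1) (G : ZMod p → ℂ) :
    ∑ m ∈ range (p - 1), G ((g ^ m : (ZMod p)ˣ) : ZMod p) = ∑ z : ZMod p, G z - G 0 := by
  classical
  rw [← sum_units G]
  have h1 : (range (p - 1)).image (fun m => g ^ m) = univ := by
    apply eq_univ_of_card
    rw [card_image_of_injOn]
    · rw [card_range, ZMod.card_units]
    · intro a ha b hb hab
      rw [← hg] at ha hb
      exact pow_injOn_Iio_orderOf (mem_range.1 ha) (mem_range.1 hb) hab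
  rw [← h1, sum_image]
  intro a ha b hb hab
  rw [← hg] at ha hb
  exact pow_injOn_Iio_orderOf (mem_range.1 ha) (mem_range.1 hb) hab

/-- the sums over the `d`-th powers -/
lemma power_sum (g : (ZMod p)ˣ) (hg : orderOf g = p - 1) (F : (ZMod p)[X]) (D : ℕ) (h1 : 1 ≤ F.natDegree)
    (h2 : F.natDegree ≤ D) (hD : D < p) (d : ℕ) (hd : d ∣ p - 1) :
    ‖∑ k ∈ range ((p - 1) / d), (ZMod.stdAddChar (F.eval ((g ^ (d * k) : (ZMod p)ˣ) : ZMod p)) : ℂ)‖ ≤
      2 * D * Real.sqrt p := by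
  have hpp : p.Prime := Fact.out
  have hp1 : 1 < p := hpp.one_lt
  have hd0 : 0 < d := Nat.pos_of_dvd_of_pos hd (by omega)
  have hdr : (0 : ℝ) < d := by exact_mod_cast hd0
  set S : ℂ := ∑ k ∈ range ((p - 1) / d),
    (ZMod.stdAddChar (F.eval ((g ^ (d * k) : (ZMod p)ˣ) : ZMod p)) : ℂ) with hS
  have hdT : d * ((p - 1) / d) = p - 1 := Nat.mul_div_cancel' hd
  have e1 : (d : ℂ) * S = ∑ m ∈ range (p - 1),
      (ZMod.stdAddChar (F.eval ((g ^ (d * m) : (ZMod p)ˣ) : ZMod p)) : ℂ) := by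
    rw [hS, ← sum_period (fun k => (ZMod.stdAddChar (F.eval ((g ^ (d * k) : (ZMod p)ˣ) : ZMod p)) : ℂ))
      ((p - 1) / d) (by
        intro m
        have : g ^ (d * (m + (p - 1) / d)) = g ^ (d * m) := by
          rw [mul_add, hdT, pow_add, ← hg, pow_orderOf_eq_one, mul_one]
        rw [this]) d, hdT]
  have e2 : ∑ m ∈ range (p - 1), (ZMod.stdAddChar (F.eval ((g ^ (d * m) : (ZMod p)ˣ) : ZMod p)) : ℂ) =
      ∑ z : ZMod p, (ZMod.stdAddChar ((F.comp (X ^ d)).eval z) : ℂ) -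
        (ZMod.stdAddChar ((F.comp (X ^ d)).eval 0) : ℂ) := by
    rw [← sum_gen g hg (fun z => (ZMod.stdAddChar ((F.comp (X ^ d)).eval z) : ℂ))]
    refine sum_congr rfl fun m _ => ?_
    rw [eval_comp, eval_pow, eval_X, mul_comm d m, pow_mul]
    push_cast
    rfl
  have hdeg : (F.comp (X ^ d)).natDegree = F.natDegree * d := by
    rw [natDegree_comp, natDegree_X_pow]
  have e3 := Pool.Agent.Y951.WP.weil_le p (F.comp (X ^ d))
    (by
      rw [hdeg]
      intro h3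
      rcases (Nat.Prime.dvd_mul hpp).1 h3 with h4 | h4
      · exact absurd (Nat.le_of_dvd (by omega) h4) (by omega)
      · have h5 := Nat.le_of_dvd hd0 h4
        have h6 := Nat.le_of_dvd (by omega) hd
        omega)
    (ZMod.isPrimitive_stdAddChar p)
  have hsq : (1 : ℝ) ≤ Real.sqrt p := by
    rw [Real.one_le_sqrt]
    exact_mod_cast hp1.le
  have hD1 : (1 : ℝ) ≤ D := by exact_mod_cast h1.trans h2
  have hd1 : (1 : ℝ) ≤ d := by exact_mod_cast hd0
  have e4 : (d : ℝ) * ‖S‖ ≤ d * (2 * D * Real.sqrt p) := by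
    have e5 : (d : ℝ) * ‖S‖ = ‖(d : ℂ) * S‖ := by rw [norm_mul, Complex.norm_natCast]
    rw [e5, e1, e2]
    refine (norm_sub_le _ _).trans ?_
    rw [norm_char]
    have e6 : (((F.comp (X ^ d)).natDegree - 1 : ℕ) : ℝ) ≤ D * d := by
      rw [hdeg]
      have : F.natDegree * d - 1 ≤ D * d := (Nat.sub_le _ _).trans (Nat.mul_le_mul_right _ h2)
      exact_mod_cast this
    have e7 := mul_le_mul_of_nonneg_right e6 (Real.sqrt_nonneg (p : ℝ))
    have e8 : (1 : ℝ) ≤ d * D * Real.sqrt p := by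
      have : (1 : ℝ) ≤ d * D := by nlinarith
      nlinarith
    nlinarith
  exact le_of_mul_le_mul_left e4 hdr

end prim

lemma totient_tau (n : ℕ) (hn : 0 < n) : n ≤ n.divisors.card * n.totient := by
  calc n = ∑ d ∈ n.divisors, d.totient := (Nat.sum_totient n).symm
    _ ≤ ∑ _d ∈ n.divisors, n.totient := by
        refine sum_le_sum fun d hd => ?_
        exact Nat.le_of_dvd (Nat.totient_pos.2 hn) (Nat.totient_dvd_of_dvd (Nat.dvd_of_mem_divisors hd))
    _ = _ := by rw [sum_const, smul_eq_mul]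

/-- **powers of primitive roots** -/
theorem primmain (r : ℕ) (hr : 1 ≤ r) (k : Fin r → ℕ) (hk : Function.Injective k) (hk0 : ∀ j, 0 < k j)
    (ε : ℝ) (hε : 0 < ε) (hε1 : ε ≤ 1) :
    ∃ κ : ℝ, 0 < κ ∧ ∃ p₀ : ℕ, ∀ p : ℕ, p₀ ≤ p → p.Prime →
    ∀ A N : Fin r → ℕ, (∀ j, A j + N j ≤ p) →
      (p : ℝ) ^ ((r : ℝ) - 1 / 2 + ε) ≤ ∏ j, (N j : ℝ) →
      ∃ G : Finset ℕ, (∏ j, (N j : ℝ)) * (p : ℝ) ^ (1 - (r : ℝ) - ε) ≤ G.card ∧
        ∀ g ∈ G, g < p ∧ orderOf (g : ZMod p) = p - 1 ∧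
          ∀ j, (A j ≤ g ^ k j % p ∧ g ^ k j % p < A j + N j) ∧
            ∀ q : ℕ, q.Prime → κ * ff p < |(q : ℝ) - (g ^ k j % p : ℕ)| := by
  classical
  have : Nonempty (Fin r) := ⟨⟨0, by omega⟩⟩
  obtain ⟨κ, hκ, p₁, h⟩ := primeJ (Fin r) (ε / 2) (by positivity) (by linarith)
  obtain ⟨Cτ, hC, hτ⟩ := H353.divisor_bound_real (ε / 8) (by positivity)
  set D : ℕ := ∑ j, k j with hDdef
  have hkD : ∀ j, k j ≤ D := fun j => single_le_sum (f := k) (fun _ _ => Nat.zero_le _) (mem_univ j)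
  have hD1 : 1 ≤ D := Nat.succ_le_of_lt ((hk0 ⟨0, by omega⟩).trans_le (hkD _))
  have e2 := (tendsto_natCast_atTop_atTop (R := ℝ)).eventually
    ((tendsto_rpow_atTop (show (0 : ℝ) < ε / 4 by positivity)).eventually_ge_atTop
      (4 * D * (Cτ + 1) ^ 2 + 2 * (Cτ + 1)))
  obtain ⟨p₂, hp₂⟩ := e2.exists_forall_of_atTop
  refine ⟨κ, hκ, max (max p₁ p₂) (D + 2), ?_⟩
  intro p hp0 hp A N hAN hW
  have : Fact p.Prime := ⟨hp⟩
  have hpe := hp₂ p ((le_max_right _ _).trans ((le_max_left _ _).trans hp0))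
  have hpD : D + 2 ≤ p := (le_max_right _ _).trans hp0
  have hp0' : (0 : ℝ) < p := by exact_mod_cast hp.pos
  have hp1 : (1 : ℝ) ≤ p := by exact_mod_cast hp.one_lt.le
  have hp2 : (2 : ℝ) ≤ p := by exact_mod_cast hp.two_le
  have hmono : ∀ x y : ℝ, x ≤ y → (p : ℝ) ^ x ≤ (p : ℝ) ^ y := fun x y h =>
    Real.rpow_le_rpow_of_exponent_le hp1 h
  have hN : ∀ j, (p : ℝ) ^ (ε / 2) ≤ N j := by
    intro i
    have h1 := prod_le_one_mul N (fun j => (by have := hAN j; omega : N j ≤ p)) i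
    have h2 : (p : ℝ) ^ (ε / 2) * (p : ℝ) ^ (r - 1) ≤ N i * (p : ℝ) ^ (r - 1) := by
      calc (p : ℝ) ^ (ε / 2) * (p : ℝ) ^ (r - 1) = (p : ℝ) ^ (ε / 2 + ((r : ℝ) - 1)) := by
            rw [Real.rpow_add hp0', ← Real.rpow_natCast]
            congr 2
            push_cast [Nat.cast_sub hr]
            ring
        _ ≤ (p : ℝ) ^ ((r : ℝ) - 1 / 2 + ε) := hmono _ _ (by linarith)
        _ ≤ _ := hW.trans h1
    exact le_of_mul_le_mul_right h2 (by positivity)
  -- a generator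
  obtain ⟨g, hg⟩ := IsCyclic.exists_generator (α := (ZMod p)ˣ)
  have hgo : orderOf g = p - 1 := by
    rw [orderOf_eq_card_of_forall_mem_zpowers hg, Nat.card_eq_fintype_card, ZMod.card_units]
  have hp1' : 0 < p - 1 := by omega
  set τ : ℝ := ((p - 1).divisors.card : ℝ) with hτdef
  have hτ1 : 1 ≤ τ := by
    rw [hτdef]
    have : 0 < (p - 1).divisors.card := card_pos.2 ⟨1, Nat.one_mem_divisors.2 hp1'.ne'⟩
    exact_mod_cast this
  have hτp : τ ≤ (Cτ + 1) * (p : ℝ) ^ (ε / 8) := by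
    refine (hτ (p - 1) hp1'.ne').trans ?_
    refine mul_le_mul (by linarith) ?_ (by positivity) (by linarith)
    apply Real.rpow_le_rpow (Nat.cast_nonneg _) _ (by positivity)
    exact_mod_cast Nat.sub_le p 1
  have h84 : (p : ℝ) ^ (ε / 8) * (p : ℝ) ^ (ε / 8) = (p : ℝ) ^ (ε / 4) := by
    rw [← Real.rpow_add hp0']
    congr 1
    ring
  have h42 : (p : ℝ) ^ (ε / 4) * (p : ℝ) ^ (ε / 4) = (p : ℝ) ^ (ε / 2) := by
    rw [← Real.rpow_add hp0']
    congr 1
    ring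
  have hp8 : 1 ≤ (p : ℝ) ^ (ε / 8) := Real.one_le_rpow hp1 (by positivity)
  have hp4 : 1 ≤ (p : ℝ) ^ (ε / 4) := Real.one_le_rpow hp1 (by positivity)
  have hDr : (1 : ℝ) ≤ D := by exact_mod_cast hD1
  have hττ : 4 * D * τ ^ 2 ≤ (p : ℝ) ^ (ε / 2) := by
    have h1 : τ ^ 2 ≤ (Cτ + 1) ^ 2 * (p : ℝ) ^ (ε / 4) := by
      calc τ ^ 2 ≤ ((Cτ + 1) * (p : ℝ) ^ (ε / 8)) ^ 2 := pow_le_pow_left₀ (by linarith) hτp 2
        _ = (Cτ + 1) ^ 2 * ((p : ℝ) ^ (ε / 8) * (p : ℝ) ^ (ε / 8)) := by ring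
        _ = _ := by rw [h84]
    calc 4 * D * τ ^ 2 ≤ 4 * D * ((Cτ + 1) ^ 2 * (p : ℝ) ^ (ε / 4)) :=
          mul_le_mul_of_nonneg_left h1 (by positivity)
      _ = (4 * D * (Cτ + 1) ^ 2) * (p : ℝ) ^ (ε / 4) := by ring
      _ ≤ (p : ℝ) ^ (ε / 4) * (p : ℝ) ^ (ε / 4) := by
          apply mul_le_mul_of_nonneg_right _ (by positivity)
          have : 0 ≤ 2 * (Cτ + 1) := by positivity
          linarith
      _ = _ := h42
  have h2τ : 2 * τ ≤ (p : ℝ) ^ (ε / 2) := by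
    have : 2 * τ ≤ 4 * D * τ ^ 2 := by nlinarith [mul_le_mul hτ1 hτ1 (by norm_num) (by linarith)]
    linarith
  set Ω : Finset ℕ := (range (p - 1)).filter (fun m => (p - 1).Coprime m) with hΩ
  have hΩc : Ω.card = (p - 1).totient := rfl
  have hφ : ((p : ℝ) - 1) ≤ τ * Ω.card := by
    have h1 := totient_tau (p - 1) hp1'
    have h2 : ((p - 1 : ℕ) : ℝ) ≤ (p - 1).divisors.card * (p - 1).totient := by exact_mod_cast h1
    rw [Nat.cast_sub hp.one_lt.le, Nat.cast_one] at h2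
    rw [hΩc]
    exact h2
  have hφ2 : (p : ℝ) ≤ 2 * τ * Ω.card := by nlinarith
  have hPN : 0 ≤ ∏ j, (N j : ℝ) := by positivity
  have key := h p ((le_max_left _ _).trans ((le_max_left _ _).trans hp0)) ℕ Ω
    (fun m j => ((g ^ m : (ZMod p)ˣ) : ZMod p) ^ k j) (τ * (2 * D * Real.sqrt p)) (by positivity) (by
      intro h0 hh0
      set F : (ZMod p)[X] := ∑ j, C (h0 j) * X ^ k j with hF
      have h1 : ∀ x, ∑ j, h0 j * x ^ k j = F.eval x := by
        intro x
        rw [hF, eval_finsetSum]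
        exact sum_congr rfl fun j _ => by rw [eval_mul, eval_C, eval_pow, eval_X]
      have h2 : 1 ≤ F.natDegree := by
        obtain ⟨i, hi⟩ := Function.ne_iff.1 hh0
        have h3 : F.coeff (k i) = h0 i := by
          rw [hF, finsetSum_coeff, sum_eq_single i]
          · simp
          · intro j _ hj
            rw [coeff_C_mul, coeff_X_pow, if_neg (fun hji => hj (hk hji.symm)), mul_zero]
          · intro h4
            exact absurd (mem_univ _) h4
        exact Nat.succ_le_of_lt (lt_of_lt_of_le (hk0 i) (le_natDegree_of_ne_zero (by rw [h3]; exact hi)))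
      have h4 : F.natDegree ≤ D := by
        rw [hF]
        refine natDegree_sum_le_of_forall_le _ _ fun j _ => ?_
        exact (natDegree_C_mul_X_pow_le _ _).trans (hkD j)
      rw [sum_congr rfl (fun m _ => by rw [h1] : ∀ m ∈ Ω,
        (ZMod.stdAddChar (∑ j, h0 j * ((g ^ m : (ZMod p)ˣ) : ZMod p) ^ k j) : ℂ) =
          (ZMod.stdAddChar (F.eval ((g ^ m : (ZMod p)ˣ) : ZMod p)) : ℂ)), hΩ,
        sum_coprime (p - 1) hp1' (fun m => (ZMod.stdAddChar (F.eval ((g ^ m : (ZMod p)ˣ) : ZMod p)) : ℂ))]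
      refine (norm_sum_le _ _).trans ?_
      have h5 : ∀ d ∈ (p - 1).divisors, ‖((moebius d : ℤ) : ℂ) * ∑ m ∈ range ((p - 1) / d),
          (ZMod.stdAddChar (F.eval ((g ^ (d * m) : (ZMod p)ˣ) : ZMod p)) : ℂ)‖ ≤
          2 * D * Real.sqrt p := by
        intro d hd
        rw [norm_mul]
        have h6 : ‖((moebius d : ℤ) : ℂ)‖ ≤ 1 := by
          rw [Complex.norm_intCast]
          exact_mod_cast ArithmeticFunction.abs_moebius_le_one
        have h7 := power_sum g hgo F D h2 h4 (by omega) d (Nat.dvd_of_mem_divisors hd)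
        calc _ ≤ 1 * (2 * D * Real.sqrt p) := mul_le_mul h6 h7 (norm_nonneg _) (by norm_num)
          _ = _ := one_mul _
      refine (sum_le_sum h5).trans ?_
      rw [sum_const, nsmul_eq_mul])
    A N hAN hN (by
      rw [Fintype.card_fin]
      have e3 : (p : ℝ) ^ ((r : ℝ) - 1 / 2 + ε) * p =
          (p : ℝ) ^ (ε / 2) * (Real.sqrt p * (p : ℝ) ^ (ε / 2) * (p : ℝ) ^ r) := by
        rw [Real.sqrt_eq_rpow, ← Real.rpow_natCast, ← Real.rpow_add hp0', ← Real.rpow_add hp0',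
          ← Real.rpow_add hp0', ← Real.rpow_add_one hp0'.ne']
        congr 1
        ring
      have e4 : (2 * τ) * (τ * (2 * D * Real.sqrt p) * (p : ℝ) ^ (ε / 2) * (p : ℝ) ^ r) ≤
          (2 * τ) * ((∏ j, (N j : ℝ)) * Ω.card) := by
        calc (2 * τ) * (τ * (2 * D * Real.sqrt p) * (p : ℝ) ^ (ε / 2) * (p : ℝ) ^ r) =
            (4 * D * τ ^ 2) * (Real.sqrt p * (p : ℝ) ^ (ε / 2) * (p : ℝ) ^ r) := by ring
          _ ≤ (p : ℝ) ^ (ε / 2) * (Real.sqrt p * (p : ℝ) ^ (ε / 2) * (p : ℝ) ^ r) :=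
              mul_le_mul_of_nonneg_right hττ (by positivity)
          _ = (p : ℝ) ^ ((r : ℝ) - 1 / 2 + ε) * p := e3.symm
          _ ≤ (∏ j, (N j : ℝ)) * (2 * τ * Ω.card) := mul_le_mul hW hφ2 hp0'.le hPN
          _ = _ := by ring
      exact le_of_mul_le_mul_left e4 (by positivity))
  set G0 := goodJ (κ * ff p) Ω (fun m j => (((g ^ m : (ZMod p)ˣ) : ZMod p) ^ k j).val) A N with hG0
  refine ⟨G0.image (fun m => ((g ^ m : (ZMod p)ˣ) : ZMod p).val), ?_, ?_⟩
  · rw [card_image_of_injOn]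
    · refine le_trans ?_ key
      rw [Fintype.card_fin]
      have e4 : (p : ℝ) ^ (1 - (r : ℝ) - ε) = p / (p : ℝ) ^ r * ((p : ℝ) ^ (-(ε / 2)) * (p : ℝ) ^ (-(ε / 2))) := by
        rw [← Real.rpow_add hp0', sub_eq_add_neg (1 - (r : ℝ)) ε, Real.rpow_add hp0', Real.rpow_sub hp0',
          Real.rpow_one, Real.rpow_natCast]
        congr 2
        ring
      have e5 : (p : ℝ) * (p : ℝ) ^ (-(ε / 2)) ≤ Ω.card := by
        rw [Real.rpow_neg hp0'.le, mul_inv_le_iff₀ (by positivity)]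
        calc (p : ℝ) ≤ 2 * τ * Ω.card := hφ2
          _ ≤ (p : ℝ) ^ (ε / 2) * Ω.card := mul_le_mul_of_nonneg_right h2τ (Nat.cast_nonneg _)
          _ = _ := mul_comm _ _
      rw [e4]
      calc (∏ j, (N j : ℝ)) * (p / (p : ℝ) ^ r * ((p : ℝ) ^ (-(ε / 2)) * (p : ℝ) ^ (-(ε / 2)))) =
          (∏ j, (N j : ℝ)) / (p : ℝ) ^ r * ((p : ℝ) * (p : ℝ) ^ (-(ε / 2))) * (p : ℝ) ^ (-(ε / 2)) := by ring
        _ ≤ (∏ j, (N j : ℝ)) / (p : ℝ) ^ r * Ω.card * (p : ℝ) ^ (-(ε / 2)) := by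
            apply mul_le_mul_of_nonneg_right _ (by positivity)
            exact mul_le_mul_of_nonneg_left e5 (by positivity)
        _ = _ := by ring
    · intro a ha b hb hab
      have ha' := mem_range.1 (mem_filter.1 (mem_goodJ.1 (mem_coe.1 ha)).1).1
      have hb' := mem_range.1 (mem_filter.1 (mem_goodJ.1 (mem_coe.1 hb)).1).1
      rw [← hgo] at ha' hb'
      exact pow_injOn_Iio_orderOf ha' hb' (Units.ext (ZMod.val_injective p hab))
  · intro x hx
    obtain ⟨m, hm, rfl⟩ := mem_image.1 hx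
    obtain ⟨h1, h2⟩ := mem_goodJ.1 hm
    have h3 : ∀ j, (((g ^ m : (ZMod p)ˣ) : ZMod p).val ^ k j % p : ℕ) =
        (((g ^ m : (ZMod p)ˣ) : ZMod p) ^ k j).val := by
      intro j
      rw [← ZMod.val_natCast]
      congr 1
      push_cast
      rw [ZMod.natCast_zmod_val]
    refine ⟨ZMod.val_lt _, ?_, fun j => ?_⟩
    · rw [ZMod.natCast_zmod_val, orderOf_units]
      rw [orderOf_pow, hgo, (mem_filter.1 h1).2, Nat.div_one]
    · rw [h3 j]
      exact ⟨mem_Ico.1 (h2 j).1, (h2 j).2⟩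

end Pool.Agent.Q20.RG
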