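import Pool.Agent.Q20.RG.Quadric

set_option autoImplicit false

/-! # Systems of quadratic polynomials over a prime field -/

namespace Pool.Agent.Q20.RG

open Finset Filter Matrix
open Pool.Agent.W147.PS (ff)
open Pool.Agent.Q46.MH

section quadsys

variable {p : ℕ} [Fact p.Prime] {n : ℕ}

lemma card_ker (A : Matrix (Fin n) (Fin n) (ZMod p)) (ρ : ℕ) (hρ : ρ ≤ A.rank) :
    (univ.filter (fun z : Fin n → ZMod p => A *ᵥ z = 0)).card ≤ p ^ (n - ρ) := by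
  classical
  have h1 := LinearMap.finrank_range_add_finrank_ker (A.mulVecLin)
  have h2 : Module.finrank (ZMod p) (LinearMap.ker A.mulVecLin) = n - A.rank := by
    rw [Matrix.rank]
    rw [Module.finrank_fin_fun] at h1
    omega
  have h3 : Nat.card (LinearMap.ker A.mulVecLin) = p ^ (n - A.rank) := by
    rw [Module.natCard_eq_pow_finrank (K := ZMod p), h2, Nat.card_zmod]
  have h4 : (univ.filter (fun z : Fin n → ZMod p => A *ᵥ z = 0)).card =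
      Nat.card (LinearMap.ker A.mulVecLin) := by
    rw [Nat.card_eq_fintype_card, ← Fintype.card_coe]
    refine Fintype.card_congr (Equiv.subtypeEquivRight fun z => ?_)
    rw [mem_filter, and_iff_right (mem_univ _), LinearMap.mem_ker, Matrix.mulVecLin_apply]
  rw [h4, h3]
  exact Nat.pow_le_pow_right (Fact.out : p.Prime).pos (by omega)

lemma qf_add' (S : Matrix (Fin n) (Fin n) (ZMod p)) (b : Fin n → ZMod p) (c : ZMod p)
    (z y : Fin n → ZMod p) :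
    qf S b c (z + y) - qf S b c y = qf S b 0 z + 1 * (y ⬝ᵥ ((S + Sᵀ) *ᵥ z)) := by
  have h1 : z ⬝ᵥ (S *ᵥ y) = y ⬝ᵥ (Sᵀ *ᵥ z) := by
    rw [dotProduct_mulVec, ← mulVec_transpose, dotProduct_comm]
  unfold qf
  rw [mulVec_add, dotProduct_add, add_dotProduct, add_dotProduct, dotProduct_add, h1, add_mulVec,
    dotProduct_add]
  ring

lemma qsum_sq (S : Matrix (Fin n) (Fin n) (ZMod p)) (b : Fin n → ZMod p) (c : ZMod p) :
    ‖∑ x, (ZMod.stdAddChar (qf S b c x) : ℂ)‖ ^ 2 ≤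
      (p : ℝ) ^ n * (univ.filter (fun z : Fin n → ZMod p => (S + Sᵀ) *ᵥ z = 0)).card := by
  classical
  have h1 : (∑ x, (ZMod.stdAddChar (qf S b c x) : ℂ)) * (starRingEnd ℂ) (∑ x, (ZMod.stdAddChar (qf S b c x) : ℂ)) =
      ∑ z : Fin n → ZMod p, (ZMod.stdAddChar (qf S b 0 z) : ℂ) *
        ∑ y : Fin n → ZMod p, (ZMod.stdAddChar (1 * (y ⬝ᵥ ((S + Sᵀ) *ᵥ z))) : ℂ) := by
    rw [map_sum, mul_comm, sum_mul]
    have e1 : ∀ y : Fin n → ZMod p, (starRingEnd ℂ) (ZMod.stdAddChar (qf S b c y) : ℂ) *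
        ∑ x, (ZMod.stdAddChar (qf S b c x) : ℂ) =
        ∑ z : Fin n → ZMod p, (ZMod.stdAddChar (qf S b 0 z) : ℂ) *
          (ZMod.stdAddChar (1 * (y ⬝ᵥ ((S + Sᵀ) *ᵥ z))) : ℂ) := by
      intro y
      rw [conj_char', mul_sum, ← Equiv.sum_comp (Equiv.addRight y)]
      refine sum_congr rfl fun z _ => ?_
      rw [Equiv.coe_addRight, ← AddChar.map_add_eq_mul, ← AddChar.map_add_eq_mul, ← qf_add' S b c z y]
      congr 1
      ring
    rw [sum_congr rfl (fun y _ => e1 y), sum_comm]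
    refine sum_congr rfl fun z _ => ?_
    rw [mul_sum]
  have h2 : ‖∑ x, (ZMod.stdAddChar (qf S b c x) : ℂ)‖ ^ 2 =
      ‖∑ z : Fin n → ZMod p, (ZMod.stdAddChar (qf S b 0 z) : ℂ) *
        ∑ y : Fin n → ZMod p, (ZMod.stdAddChar (1 * (y ⬝ᵥ ((S + Sᵀ) *ᵥ z))) : ℂ)‖ := by
    rw [← h1, norm_mul, RCLike.norm_conj, sq]
  have h3 : ∀ z ∈ (univ : Finset (Fin n → ZMod p)), ‖(ZMod.stdAddChar (qf S b 0 z) : ℂ) *
        ∑ y : Fin n → ZMod p, (ZMod.stdAddChar (1 * (y ⬝ᵥ ((S + Sᵀ) *ᵥ z))) : ℂ)‖ =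
      if (S + Sᵀ) *ᵥ z = 0 then (p : ℝ) ^ n else 0 := by
    intro z _
    rw [norm_mul, norm_char, one_mul]
    split_ifs with hw
    · rw [hw]
      simp [ZMod.card]
    · rw [sum_dot one_ne_zero hw, norm_zero]
  rw [h2]
  refine (norm_sum_le _ _).trans ?_
  rw [sum_congr rfl h3, ← sum_filter, sum_const, nsmul_eq_mul, mul_comm]

lemma qsum_le (S : Matrix (Fin n) (Fin n) (ZMod p)) (b : Fin n → ZMod p) (c : ZMod p) (ρ : ℕ)
    (hρ : ρ ≤ (S + Sᵀ).rank) :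
    ‖∑ x, (ZMod.stdAddChar (qf S b c x) : ℂ)‖ ≤ (p : ℝ) ^ ((n : ℝ) - ρ / 2) := by
  have hp0 : (0 : ℝ) < p := by exact_mod_cast (Fact.out : p.Prime).pos
  have hρn : ρ ≤ n := hρ.trans (by simpa using Matrix.rank_le_width (S + Sᵀ))
  have h1 := qsum_sq S b c
  have h2 : ((univ.filter (fun z : Fin n → ZMod p => (S + Sᵀ) *ᵥ z = 0)).card : ℝ) ≤
      (p : ℝ) ^ (n - ρ) := by exact_mod_cast card_ker (S + Sᵀ) ρ hρ
  have h3 : ((p : ℝ) ^ ((n : ℝ) - ρ / 2)) ^ 2 = (p : ℝ) ^ n * (p : ℝ) ^ (n - ρ) := by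
    rw [← Real.rpow_natCast, ← Real.rpow_mul hp0.le, ← Real.rpow_natCast, ← Real.rpow_natCast,
      ← Real.rpow_add hp0]
    congr 1
    push_cast [Nat.cast_sub hρn]
    ring
  have h4 : ‖∑ x, (ZMod.stdAddChar (qf S b c x) : ℂ)‖ ^ 2 ≤ ((p : ℝ) ^ ((n : ℝ) - ρ / 2)) ^ 2 := by
    rw [h3]
    exact h1.trans (mul_le_mul_of_nonneg_left h2 (by positivity))
  exact (sq_le_sq₀ (norm_nonneg _) (by positivity)).1 h4

variable {s0 s1 : ℕ}

/-- the combination of a system -/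
lemma qf_comb {K : Type} [Fintype K] (M : K → Matrix (Fin n) (Fin n) (ZMod p)) (b : K → Fin n → ZMod p)
    (c : K → ZMod p) (g : K → ZMod p) (v : Fin n → ZMod p) (x : Fin n → ZMod p) :
    v ⬝ᵥ x + ∑ k, g k * qf (M k) (b k) (c k) x =
      qf (∑ k, g k • M k) (v + ∑ k, g k • b k) (∑ k, g k * c k) x := by
  unfold qf
  have h1 : (∑ k, g k • M k) *ᵥ x = ∑ k, g k • (M k *ᵥ x) := by
    rw [Matrix.sum_mulVec]
    exact sum_congr rfl fun k _ => Matrix.smul_mulVec _ _ _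
  rw [h1, dotProduct_sum, add_dotProduct, sum_dotProduct]
  simp only [dotProduct_smul, smul_dotProduct, smul_eq_mul, mul_add, sum_add_distrib]
  ring

lemma sys_sum (M : Fin s0 ⊕ Fin s1 → Matrix (Fin n) (Fin n) (ZMod p))
    (b : Fin s0 ⊕ Fin s1 → Fin n → ZMod p) (c : Fin s0 ⊕ Fin s1 → ZMod p) (ρ : ℕ)
    (hρ : ∀ g : Fin s0 ⊕ Fin s1 → ZMod p, g ≠ 0 → ρ ≤ (∑ k, g k • (M k + (M k)ᵀ)).rank)
    (g : Fin s0 ⊕ Fin s1 → ZMod p) (v : Fin n → ZMod p) :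
    ‖∑ x, (ZMod.stdAddChar (v ⬝ᵥ x + ∑ k, g k * qf (M k) (b k) (c k) x) : ℂ)‖ ≤
      if g = 0 then (if v = 0 then (p : ℝ) ^ n else 0) else (p : ℝ) ^ ((n : ℝ) - ρ / 2) := by
  classical
  split_ifs with h1 h2
  · subst h1
    subst h2
    simp [ZMod.card]
  · subst h1
    have e1 : ∑ x : Fin n → ZMod p, (ZMod.stdAddChar (v ⬝ᵥ x +
        ∑ k, (0 : Fin s0 ⊕ Fin s1 → ZMod p) k * qf (M k) (b k) (c k) x) : ℂ) =
        ∑ x : Fin n → ZMod p, (ZMod.stdAddChar (1 * (x ⬝ᵥ v)) : ℂ) := by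
      refine sum_congr rfl fun x _ => ?_
      simp [dotProduct_comm]
    rw [e1, sum_dot one_ne_zero h2, norm_zero]
  · rw [sum_congr rfl (fun x _ => by rw [qf_comb M b c g v x] : ∀ x ∈ (univ : Finset (Fin n → ZMod p)),
      (ZMod.stdAddChar (v ⬝ᵥ x + ∑ k, g k * qf (M k) (b k) (c k) x) : ℂ) = _)]
    apply qsum_le
    have e1 : (∑ k, g k • M k) + (∑ k, g k • M k)ᵀ = ∑ k, g k • (M k + (M k)ᵀ) := by
      rw [Matrix.transpose_sum, ← sum_add_distrib]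
      exact sum_congr rfl fun k _ => by rw [Matrix.transpose_smul, smul_add]
    rw [e1]
    exact hρ g h1

/-- the common zeros of the first part of the system -/
noncomputable def Zs (M : Fin s0 ⊕ Fin s1 → Matrix (Fin n) (Fin n) (ZMod p))
    (b : Fin s0 ⊕ Fin s1 → Fin n → ZMod p) (c : Fin s0 ⊕ Fin s1 → ZMod p) :
    Finset (Fin n → ZMod p) :=
  univ.filter (fun x => ∀ k : Fin s0, qf (M (Sum.inl k)) (b (Sum.inl k)) (c (Sum.inl k)) x = 0)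

lemma Zs_sum (M : Fin s0 ⊕ Fin s1 → Matrix (Fin n) (Fin n) (ZMod p))
    (b : Fin s0 ⊕ Fin s1 → Fin n → ZMod p) (c : Fin s0 ⊕ Fin s1 → ZMod p)
    (v : Fin n → ZMod p) (h : Fin s1 → ZMod p) :
    (p : ℂ) ^ s0 * ∑ x ∈ Zs M b c, (ZMod.stdAddChar (v ⬝ᵥ x +
        ∑ k, h k * qf (M (Sum.inr k)) (b (Sum.inr k)) (c (Sum.inr k)) x) : ℂ) =
      ∑ u : Fin s0 → ZMod p, ∑ x, (ZMod.stdAddChar (v ⬝ᵥ x +
        ∑ k, (Sum.elim u h : Fin s0 ⊕ Fin s1 → ZMod p) k * qf (M k) (b k) (c k) x) : ℂ) := by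
  classical
  rw [sum_comm, Zs, sum_filter, mul_sum]
  refine sum_congr rfl fun x _ => ?_
  set w : Fin s0 → ZMod p := fun k => qf (M (Sum.inl k)) (b (Sum.inl k)) (c (Sum.inl k)) x with hw
  have e1 : ∀ u : Fin s0 → ZMod p, (ZMod.stdAddChar (v ⬝ᵥ x +
        ∑ k, (Sum.elim u h : Fin s0 ⊕ Fin s1 → ZMod p) k * qf (M k) (b k) (c k) x) : ℂ) =
      (ZMod.stdAddChar (1 * (u ⬝ᵥ w)) : ℂ) * (ZMod.stdAddChar (v ⬝ᵥ x +
        ∑ k, h k * qf (M (Sum.inr k)) (b (Sum.inr k)) (c (Sum.inr k)) x) : ℂ) := by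
    intro u
    rw [← AddChar.map_add_eq_mul, Fintype.sum_sum_type]
    congr 1
    simp only [Sum.elim_inl, Sum.elim_inr, dotProduct, hw]
    ring
  rw [sum_congr rfl (fun u _ => e1 u), ← sum_mul]
  by_cases h0 : w = 0
  · have h0' : ∀ k : Fin s0, qf (M (Sum.inl k)) (b (Sum.inl k)) (c (Sum.inl k)) x = 0 :=
      fun k => congrFun h0 k
    rw [if_pos h0', h0]
    simp [ZMod.card]
  · have h0' : ¬ ∀ k : Fin s0, qf (M (Sum.inl k)) (b (Sum.inl k)) (c (Sum.inl k)) x = 0 :=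
      fun hk => h0 (funext hk)
    rw [if_neg h0', sum_dot one_ne_zero h0, zero_mul, mul_zero]

lemma Zs_bound (M : Fin s0 ⊕ Fin s1 → Matrix (Fin n) (Fin n) (ZMod p))
    (b : Fin s0 ⊕ Fin s1 → Fin n → ZMod p) (c : Fin s0 ⊕ Fin s1 → ZMod p) (ρ : ℕ)
    (hρ : ∀ g : Fin s0 ⊕ Fin s1 → ZMod p, g ≠ 0 → ρ ≤ (∑ k, g k • (M k + (M k)ᵀ)).rank)
    (v : Fin n → ZMod p) (h : Fin s1 → ZMod p) (hvh : v ≠ 0 ∨ h ≠ 0) :
    ‖∑ x ∈ Zs M b c, (ZMod.stdAddChar (v ⬝ᵥ x +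
        ∑ k, h k * qf (M (Sum.inr k)) (b (Sum.inr k)) (c (Sum.inr k)) x) : ℂ)‖ ≤
      (p : ℝ) ^ ((n : ℝ) - ρ / 2) := by
  classical
  have hp0 : (0 : ℝ) < p := by exact_mod_cast (Fact.out : p.Prime).pos
  have h1 := Zs_sum M b c v h
  have h2 : (p : ℝ) ^ s0 * ‖∑ x ∈ Zs M b c, (ZMod.stdAddChar (v ⬝ᵥ x +
        ∑ k, h k * qf (M (Sum.inr k)) (b (Sum.inr k)) (c (Sum.inr k)) x) : ℂ)‖ ≤
      (p : ℝ) ^ s0 * (p : ℝ) ^ ((n : ℝ) - ρ / 2) := by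
    have e1 : (p : ℝ) ^ s0 = ‖(p : ℂ) ^ s0‖ := by rw [norm_pow, Complex.norm_natCast]
    nth_rewrite 1 [e1]
    rw [← norm_mul, h1]
    refine (norm_sum_le _ _).trans ?_
    refine (sum_le_sum (g := fun _ => (p : ℝ) ^ ((n : ℝ) - ρ / 2)) fun u _ => ?_).trans
      (le_of_eq ?_)
    · refine (sys_sum M b c ρ hρ _ v).trans ?_
      split_ifs with a1 a2
      · exfalso
        rcases hvh with h3 | h3
        · exact h3 a2
        · apply h3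
          funext k
          exact congrFun a1 (Sum.inr k)
      · positivity
      · exact le_rfl
    · rw [sum_const, card_univ, nsmul_eq_mul]
      simp [ZMod.card]
  exact le_of_mul_le_mul_left h2 (by positivity)

lemma Zs_card (M : Fin s0 ⊕ Fin s1 → Matrix (Fin n) (Fin n) (ZMod p))
    (b : Fin s0 ⊕ Fin s1 → Fin n → ZMod p) (c : Fin s0 ⊕ Fin s1 → ZMod p) (ρ : ℕ)
    (hρ : ∀ g : Fin s0 ⊕ Fin s1 → ZMod p, g ≠ 0 → ρ ≤ (∑ k, g k • (M k + (M k)ᵀ)).rank) :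
    (p : ℝ) ^ n ≤ (p : ℝ) ^ s0 * (Zs M b c).card + (p : ℝ) ^ s0 * (p : ℝ) ^ ((n : ℝ) - ρ / 2) := by
  classical
  have hp0 : (0 : ℝ) < p := by exact_mod_cast (Fact.out : p.Prime).pos
  have h1 := Zs_sum M b c 0 0
  have e1 : ∑ x ∈ Zs M b c, (ZMod.stdAddChar ((0 : Fin n → ZMod p) ⬝ᵥ x +
        ∑ k, (0 : Fin s1 → ZMod p) k * qf (M (Sum.inr k)) (b (Sum.inr k)) (c (Sum.inr k)) x) : ℂ) =
      (Zs M b c).card := by
    simp
  rw [e1, ← add_sum_erase univ _ (mem_univ (0 : Fin s0 → ZMod p))] at h1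
  have e2 : ∑ x : Fin n → ZMod p, (ZMod.stdAddChar ((0 : Fin n → ZMod p) ⬝ᵥ x +
        ∑ k, (Sum.elim (0 : Fin s0 → ZMod p) (0 : Fin s1 → ZMod p)) k * qf (M k) (b k) (c k) x) : ℂ) =
      (p : ℂ) ^ n := by
    have : (Sum.elim (0 : Fin s0 → ZMod p) (0 : Fin s1 → ZMod p)) = 0 := by
      funext k
      rcases k with k | k <;> rfl
    rw [this]
    simp [ZMod.card]
  rw [e2] at h1
  have h2 : ‖∑ u ∈ univ.erase (0 : Fin s0 → ZMod p), ∑ x, (ZMod.stdAddChar ((0 : Fin n → ZMod p) ⬝ᵥ x +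
        ∑ k, (Sum.elim u (0 : Fin s1 → ZMod p) : Fin s0 ⊕ Fin s1 → ZMod p) k * qf (M k) (b k) (c k) x) : ℂ)‖ ≤
      (p : ℝ) ^ s0 * (p : ℝ) ^ ((n : ℝ) - ρ / 2) := by
    refine (norm_sum_le _ _).trans ?_
    refine (sum_le_sum (g := fun _ => (p : ℝ) ^ ((n : ℝ) - ρ / 2)) fun u hu => ?_).trans ?_
    · refine (sys_sum M b c ρ hρ _ 0).trans ?_
      rw [if_neg]
      intro h3
      apply ne_of_mem_erase hu
      funext k
      exact congrFun h3 (Sum.inl k)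
    · rw [sum_const, nsmul_eq_mul]
      apply mul_le_mul_of_nonneg_right _ (by positivity)
      have : (univ.erase (0 : Fin s0 → ZMod p)).card ≤ p ^ s0 := by
        refine card_erase_le.trans ?_
        rw [card_univ, Fintype.card_fun, ZMod.card, Fintype.card_fin]
      exact_mod_cast this
  have h3 : (p : ℂ) ^ n = (p : ℂ) ^ s0 * (Zs M b c).card -
      ∑ u ∈ univ.erase (0 : Fin s0 → ZMod p), ∑ x, (ZMod.stdAddChar ((0 : Fin n → ZMod p) ⬝ᵥ x +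
        ∑ k, (Sum.elim u (0 : Fin s1 → ZMod p) : Fin s0 ⊕ Fin s1 → ZMod p) k * qf (M k) (b k) (c k) x) : ℂ) := by
    rw [h1]
    ring
  have h4 : (p : ℝ) ^ n = ‖(p : ℂ) ^ n‖ := by rw [norm_pow, Complex.norm_natCast]
  rw [h4, h3]
  refine (norm_sub_le _ _).trans (add_le_add (le_of_eq ?_) h2)
  rw [norm_mul, norm_pow, Complex.norm_natCast, Complex.norm_natCast]

end quadsys

/-- the quadratic polynomial over the integers -/
def qz {n : ℕ} (M : Matrix (Fin n) (Fin n) ℤ) (b : Fin n → ℤ) (c : ℤ) (x : Fin n → ℕ) : ℤ :=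
  ∑ i, ∑ j, M i j * x i * x j + ∑ i, b i * x i + c

lemma qz_cast {p n : ℕ} [Fact p.Prime] (M : Matrix (Fin n) (Fin n) ℤ) (b : Fin n → ℤ) (c : ℤ)
    (x : Fin n → ZMod p) :
    ((qz M b c (fun i => (x i).val) : ℤ) : ZMod p) =
      qf (M.map (fun z : ℤ => (z : ZMod p))) (fun i => (b i : ZMod p)) (c : ZMod p) x := by
  unfold qz qf
  push_cast
  simp only [ZMod.natCast_zmod_val, dotProduct, mulVec, Matrix.map_apply]
  congr 2
  refine sum_congr rfl fun i _ => ?_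
  rw [mul_sum]
  exact sum_congr rfl fun j _ => by ring

/-- **systems of quadratic polynomials modulo `p`** -/
theorem quadsys (n s0 s1 ρ : ℕ) (hn : 1 ≤ n) (ε : ℝ) (hε : 0 < ε) (hε1 : ε ≤ 1) :
    ∃ κ : ℝ, 0 < κ ∧ ∃ p₀ : ℕ, ∀ p : ℕ, p₀ ≤ p → p.Prime →
    ∀ (M : Fin s0 ⊕ Fin s1 → Matrix (Fin n) (Fin n) ℤ) (b : Fin s0 ⊕ Fin s1 → Fin n → ℤ)
      (c : Fin s0 ⊕ Fin s1 → ℤ),
    (∀ g : Fin s0 ⊕ Fin s1 → ZMod p, g ≠ 0 →
      ρ ≤ (∑ k, g k • (M k + (M k)ᵀ).map (fun z : ℤ => (z : ZMod p))).rank) →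
    ∀ (A N : Fin n → ℕ) (A' N' : Fin s1 → ℕ), (∀ i, A i + N i ≤ p ∧ (p : ℝ) ^ ε ≤ N i) →
      (∀ k, A' k + N' k ≤ p ∧ (p : ℝ) ^ ε ≤ N' k) →
      (p : ℝ) ^ ((n : ℝ) + s0 + s1 - ρ / 2 + ε) ≤ (∏ i, (N i : ℝ)) * ∏ k, (N' k : ℝ) →
      ∃ G : Finset (Fin n → ℕ),
        ((∏ i, (N i : ℝ)) * ∏ k, (N' k : ℝ)) * (p : ℝ) ^ (-(s0 : ℝ) - s1 - ε) ≤ G.card ∧
        ∀ x ∈ G, (∀ i, A i ≤ x i ∧ x i < A i + N i) ∧
          (∀ k : Fin s0, (p : ℤ) ∣ qz (M (Sum.inl k)) (b (Sum.inl k)) (c (Sum.inl k)) x) ∧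
          (∀ i, ∀ q : ℕ, q.Prime → κ * ff p < |(q : ℝ) - x i|) ∧
          ∀ k : Fin s1, ∃ y : ℕ, (A' k ≤ y ∧ y < A' k + N' k) ∧
            (p : ℤ) ∣ qz (M (Sum.inr k)) (b (Sum.inr k)) (c (Sum.inr k)) x - y ∧
            ∀ q : ℕ, q.Prime → κ * ff p < |(q : ℝ) - y| := by
  classical
  have : Nonempty (Fin n ⊕ Fin s1) := ⟨Sum.inl ⟨0, by omega⟩⟩
  obtain ⟨κ, hκ, p₁, h⟩ := primeJ (Fin n ⊕ Fin s1) (ε / 2) (by positivity) (by linarith)
  have e2 := (tendsto_natCast_atTop_atTop (R := ℝ)).eventually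
    ((tendsto_rpow_atTop (show (0 : ℝ) < ε / 2 by positivity)).eventually_ge_atTop 2)
  obtain ⟨p₂, hp₂⟩ := e2.exists_forall_of_atTop
  refine ⟨κ, hκ, max p₁ p₂, ?_⟩
  intro p hp0 hp M b c hρ A N A' N' hN hN' hW
  have : Fact p.Prime := ⟨hp⟩
  have hpe := hp₂ p ((le_max_right _ _).trans hp0)
  have hp0' : (0 : ℝ) < p := by exact_mod_cast hp.pos
  have hp1 : (1 : ℝ) ≤ p := by exact_mod_cast hp.one_lt.le
  have hmono : ∀ x y : ℝ, x ≤ y → (p : ℝ) ^ x ≤ (p : ℝ) ^ y := fun x y h =>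
    Real.rpow_le_rpow_of_exponent_le hp1 h
  -- the reductions
  set Mp : Fin s0 ⊕ Fin s1 → Matrix (Fin n) (Fin n) (ZMod p) :=
    fun k => (M k).map (fun z : ℤ => (z : ZMod p)) with hMp
  set bp : Fin s0 ⊕ Fin s1 → Fin n → ZMod p := fun k i => (b k i : ZMod p) with hbp
  set cp : Fin s0 ⊕ Fin s1 → ZMod p := fun k => (c k : ZMod p) with hcp
  have hρ' : ∀ g : Fin s0 ⊕ Fin s1 → ZMod p, g ≠ 0 → ρ ≤ (∑ k, g k • (Mp k + (Mp k)ᵀ)).rank := by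
    intro g hg
    refine (hρ g hg).trans (le_of_eq ?_)
    congr 1
    refine sum_congr rfl fun k _ => ?_
    congr 1
    ext i j
    simp [hMp]
  set P : ℝ := (∏ i, (N i : ℝ)) * ∏ k, (N' k : ℝ) with hP
  have hPN : 0 ≤ P := by positivity
  have hcardJ : Fintype.card (Fin n ⊕ Fin s1) = n + s1 := by simp
  set AA : Fin n ⊕ Fin s1 → ℕ := Sum.elim A A' with hAA
  set NN : Fin n ⊕ Fin s1 → ℕ := Sum.elim N N' with hNN
  have hprod : ∏ z, (NN z : ℝ) = P := by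
    rw [Fintype.prod_sum_type]
    rfl
  have hcard := Zs_card Mp bp cp ρ hρ'
  set Z := Zs Mp bp cp with hZ
  have hZ0 : (0 : ℝ) ≤ Z.card := Nat.cast_nonneg _
  -- the volume is at most p ^ (n + s1)
  have hPle : P ≤ (p : ℝ) ^ n * (p : ℝ) ^ s1 := by
    have e3 : ∏ i, (N i : ℝ) ≤ (p : ℝ) ^ n := by
      have : ∏ i, (N i : ℝ) ≤ ∏ _i : Fin n, (p : ℝ) :=
        prod_le_prod (fun _ _ => Nat.cast_nonneg _) fun i _ => by
          have := (hN i).1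
          exact_mod_cast (by omega : N i ≤ p)
      rwa [prod_const, card_univ, Fintype.card_fin] at this
    have e4 : ∏ k, (N' k : ℝ) ≤ (p : ℝ) ^ s1 := by
      have : ∏ k, (N' k : ℝ) ≤ ∏ _k : Fin s1, (p : ℝ) :=
        prod_le_prod (fun _ _ => Nat.cast_nonneg _) fun k _ => by
          have := (hN' k).1
          exact_mod_cast (by omega : N' k ≤ p)
      rwa [prod_const, card_univ, Fintype.card_fin] at this
    exact mul_le_mul e3 e4 (by positivity) (by positivity)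
  have hsm : (p : ℝ) ^ s0 * (p : ℝ) ^ ((n : ℝ) - ρ / 2) * 2 ≤ (p : ℝ) ^ n := by
    have e5 : (p : ℝ) ^ ((n : ℝ) + s0 + s1 - ρ / 2 + ε) =
        (p : ℝ) ^ s0 * (p : ℝ) ^ ((n : ℝ) - ρ / 2) * (p : ℝ) ^ ε * (p : ℝ) ^ s1 := by
      rw [← Real.rpow_natCast, ← Real.rpow_natCast, ← Real.rpow_add hp0', ← Real.rpow_add hp0',
        ← Real.rpow_add hp0']
      congr 1
      ring
    rw [e5] at hW
    have e6 := le_of_mul_le_mul_right (hW.trans hPle) (by positivity)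
    refine le_trans (mul_le_mul_of_nonneg_left ?_ (by positivity)) e6
    exact hpe.trans (hmono _ _ (by linarith))
  have hZc : (p : ℝ) ^ n ≤ 2 * (p : ℝ) ^ s0 * Z.card := by
    nlinarith [hcard, hsm]
  have key := h p ((le_max_left _ _).trans hp0) (Fin n → ZMod p) Z
    (fun x => Sum.elim x (fun k => qf (Mp (Sum.inr k)) (bp (Sum.inr k)) (cp (Sum.inr k)) x))
    ((p : ℝ) ^ ((n : ℝ) - ρ / 2)) (by positivity) (by
      intro h0 hh0
      have e1 : ∀ x : Fin n → ZMod p, ∑ j, h0 j *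
          (Sum.elim x (fun k => qf (Mp (Sum.inr k)) (bp (Sum.inr k)) (cp (Sum.inr k)) x) :
            Fin n ⊕ Fin s1 → ZMod p) j =
          (fun i => h0 (Sum.inl i)) ⬝ᵥ x +
            ∑ k, h0 (Sum.inr k) * qf (Mp (Sum.inr k)) (bp (Sum.inr k)) (cp (Sum.inr k)) x := by
        intro x
        rw [Fintype.sum_sum_type]
        rfl
      rw [sum_congr rfl (fun x _ => by rw [e1 x] : ∀ x ∈ Z, (ZMod.stdAddChar (∑ j, h0 j *
          (Sum.elim x (fun k => qf (Mp (Sum.inr k)) (bp (Sum.inr k)) (cp (Sum.inr k)) x) :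
            Fin n ⊕ Fin s1 → ZMod p) j) : ℂ) = _)]
      refine Zs_bound Mp bp cp ρ hρ' _ (fun k => h0 (Sum.inr k)) ?_
      by_contra hcon
      push Not at hcon
      obtain ⟨c1, c2⟩ := hcon
      apply hh0
      funext z
      rcases z with z | z
      · exact congrFun c1 z
      · exact congrFun c2 z)
    AA NN (by
      intro z
      rcases z with z | z
      · exact (hN z).1
      · exact (hN' z).1) (by
      intro z
      rcases z with z | z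
      · exact (hmono _ _ (by linarith)).trans (hN z).2
      · exact (hmono _ _ (by linarith)).trans (hN' z).2) (by
      rw [hprod, hcardJ]
      have e5 : (p : ℝ) ^ ((n : ℝ) + s0 + s1 - ρ / 2 + ε) * (p : ℝ) ^ n =
          (p : ℝ) ^ s0 * ((p : ℝ) ^ ((n : ℝ) - ρ / 2) * (p : ℝ) ^ (ε / 2) * (p : ℝ) ^ (n + s1)) *
            (p : ℝ) ^ (ε / 2) := by
        rw [← Real.rpow_natCast, ← Real.rpow_natCast, ← Real.rpow_natCast, ← Real.rpow_add hp0',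
          ← Real.rpow_add hp0', ← Real.rpow_add hp0', ← Real.rpow_add hp0', ← Real.rpow_add hp0']
        congr 1
        push_cast
        ring
      have e6 : (p : ℝ) ^ ((n : ℝ) + s0 + s1 - ρ / 2 + ε) * (p : ℝ) ^ n ≤
          P * (2 * (p : ℝ) ^ s0 * Z.card) := mul_le_mul hW hZc (by positivity) hPN
      rw [e5] at e6
      have e7 : (2 * (p : ℝ) ^ s0) * ((p : ℝ) ^ ((n : ℝ) - ρ / 2) * (p : ℝ) ^ (ε / 2) *
          (p : ℝ) ^ (n + s1)) ≤ (2 * (p : ℝ) ^ s0) * (P * Z.card) := by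
        calc _ = (p : ℝ) ^ s0 * ((p : ℝ) ^ ((n : ℝ) - ρ / 2) * (p : ℝ) ^ (ε / 2) *
              (p : ℝ) ^ (n + s1)) * 2 := by ring
          _ ≤ (p : ℝ) ^ s0 * ((p : ℝ) ^ ((n : ℝ) - ρ / 2) * (p : ℝ) ^ (ε / 2) *
              (p : ℝ) ^ (n + s1)) * (p : ℝ) ^ (ε / 2) := mul_le_mul_of_nonneg_left hpe (by positivity)
          _ ≤ _ := e6
          _ = _ := by ring
      exact le_of_mul_le_mul_left e7 (by positivity))
  refine ⟨(goodJ (κ * ff p) Z (fun (x : Fin n → ZMod p) z => ((Sum.elim x (fun k =>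
    qf (Mp (Sum.inr k)) (bp (Sum.inr k)) (cp (Sum.inr k)) x) : Fin n ⊕ Fin s1 → ZMod p) z).val)
      AA NN).image (fun x i => (x i).val), ?_, ?_⟩
  · rw [card_image_of_injective]
    · refine le_trans ?_ key
      rw [hprod, hcardJ]
      have e8 : (p : ℝ) ^ (-(s0 : ℝ) - s1 - ε) =
          ((p : ℝ) ^ s0)⁻¹ * ((p : ℝ) ^ s1)⁻¹ * ((p : ℝ) ^ (-(ε / 2)) * (p : ℝ) ^ (-(ε / 2))) := by
        rw [← Real.rpow_natCast, ← Real.rpow_natCast, ← Real.rpow_neg hp0'.le, ← Real.rpow_neg hp0'.le,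
          ← Real.rpow_add hp0', ← Real.rpow_add hp0', ← Real.rpow_add hp0']
        congr 1
        ring
      have e9 : 2 * (p : ℝ) ^ (-(ε / 2)) ≤ 1 := by
        rw [Real.rpow_neg hp0'.le, mul_inv_le_iff₀ (by positivity), one_mul]
        exact hpe
      have e10 : ((p : ℝ) ^ s0)⁻¹ * ((p : ℝ) ^ s1)⁻¹ * (p : ℝ) ^ (-(ε / 2)) ≤
          Z.card / (p : ℝ) ^ (n + s1) := by
        rw [le_div_iff₀ (by positivity), pow_add]
        calc ((p : ℝ) ^ s0)⁻¹ * ((p : ℝ) ^ s1)⁻¹ * (p : ℝ) ^ (-(ε / 2)) * ((p : ℝ) ^ n * (p : ℝ) ^ s1) =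
            ((p : ℝ) ^ s0)⁻¹ * (p : ℝ) ^ (-(ε / 2)) * (p : ℝ) ^ n := by field_simp
          _ ≤ ((p : ℝ) ^ s0)⁻¹ * (p : ℝ) ^ (-(ε / 2)) * (2 * (p : ℝ) ^ s0 * Z.card) :=
              mul_le_mul_of_nonneg_left hZc (by positivity)
          _ = (2 * (p : ℝ) ^ (-(ε / 2))) * Z.card := by field_simp
          _ ≤ 1 * Z.card := mul_le_mul_of_nonneg_right e9 hZ0
          _ = _ := one_mul _
      rw [e8]
      calc P * (((p : ℝ) ^ s0)⁻¹ * ((p : ℝ) ^ s1)⁻¹ * ((p : ℝ) ^ (-(ε / 2)) * (p : ℝ) ^ (-(ε / 2)))) =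
          (((p : ℝ) ^ s0)⁻¹ * ((p : ℝ) ^ s1)⁻¹ * (p : ℝ) ^ (-(ε / 2))) * (P * (p : ℝ) ^ (-(ε / 2))) := by
            ring
        _ ≤ (Z.card / (p : ℝ) ^ (n + s1)) * (P * (p : ℝ) ^ (-(ε / 2))) :=
            mul_le_mul_of_nonneg_right e10 (by positivity)
        _ = _ := by ring
    · intro x y hxy
      funext i
      exact ZMod.val_injective p (congrFun hxy i)
  · intro x hx
    obtain ⟨y, hy, rfl⟩ := mem_image.1 hx
    obtain ⟨h1, h2⟩ := mem_goodJ.1 hy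
    refine ⟨fun i => mem_Ico.1 (h2 (Sum.inl i)).1, ?_, fun i => (h2 (Sum.inl i)).2,
      fun k => ⟨_, mem_Ico.1 (h2 (Sum.inr k)).1, ?_, (h2 (Sum.inr k)).2⟩⟩
    · intro k
      rw [← ZMod.intCast_zmod_eq_zero_iff_dvd, qz_cast]
      exact (mem_filter.1 h1).2 k
    · rw [← ZMod.intCast_zmod_eq_zero_iff_dvd, Int.cast_sub, qz_cast, Int.cast_natCast,
        ZMod.natCast_zmod_val]
      exact sub_self _

end Pool.Agent.Q20.RG
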