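import Pool.Agent.Q20.RG.Prime
import Pool.Agent.Q46.MH.Dist

set_option autoImplicit false

/-! # Points of quadrics over a prime field -/

namespace Pool.Agent.Q20.RG

open Finset Filter Matrix
open Pool.Agent.W147.PS (ff)
open Pool.Agent.Q46.MH

section quadric

variable {p : ℕ} [Fact p.Prime] {r : ℕ}

/-- the quadratic polynomial -/
def qf (S : Matrix (Fin r) (Fin r) (ZMod p)) (b : Fin r → ZMod p) (c : ZMod p) (x : Fin r → ZMod p) :
    ZMod p := x ⬝ᵥ (S *ᵥ x) + b ⬝ᵥ x + c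

lemma qf_add (S : Matrix (Fin r) (Fin r) (ZMod p)) (hS : Sᵀ = S) (b : Fin r → ZMod p) (c : ZMod p)
    (z y : Fin r → ZMod p) :
    qf S b c (z + y) - qf S b c y = z ⬝ᵥ (S *ᵥ z) + b ⬝ᵥ z + 2 * (y ⬝ᵥ (S *ᵥ z)) := by
  have h1 : z ⬝ᵥ (S *ᵥ y) = y ⬝ᵥ (S *ᵥ z) := by
    rw [dotProduct_mulVec, ← mulVec_transpose, hS, dotProduct_comm]
  unfold qf
  rw [mulVec_add, dotProduct_add, add_dotProduct, add_dotProduct, dotProduct_add, h1]
  ring

/-- the Gauss sum -/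
noncomputable def EE (S : Matrix (Fin r) (Fin r) (ZMod p)) (b : Fin r → ZMod p) (c : ZMod p) (t : ZMod p)
    (h : Fin r → ZMod p) : ℂ := ∑ x, (ZMod.stdAddChar (t * qf S b c x + x ⬝ᵥ h) : ℂ)

lemma EE_norm (S : Matrix (Fin r) (Fin r) (ZMod p)) (hS : Sᵀ = S) (hd : S.det ≠ 0)
    (b : Fin r → ZMod p) (c t : ZMod p) (h2 : (2 : ZMod p) ≠ 0) (ht : t ≠ 0) (h : Fin r → ZMod p) :
    ‖EE S b c t h‖ ^ 2 = (p : ℝ) ^ r := by
  classical
  have h1 : EE S b c t h * (starRingEnd ℂ) (EE S b c t h) = ∑ z : Fin r → ZMod p,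
      (ZMod.stdAddChar (t * (z ⬝ᵥ (S *ᵥ z) + b ⬝ᵥ z) + z ⬝ᵥ h) : ℂ) *
        ∑ y : Fin r → ZMod p, (ZMod.stdAddChar ((2 * t) * (y ⬝ᵥ (S *ᵥ z))) : ℂ) := by
    unfold EE
    rw [map_sum, mul_comm, sum_mul]
    have e1 : ∀ y : Fin r → ZMod p, (starRingEnd ℂ) (ZMod.stdAddChar (t * qf S b c y + y ⬝ᵥ h) : ℂ) *
        ∑ x, (ZMod.stdAddChar (t * qf S b c x + x ⬝ᵥ h) : ℂ) =
        ∑ z : Fin r → ZMod p, (ZMod.stdAddChar (t * (z ⬝ᵥ (S *ᵥ z) + b ⬝ᵥ z) + z ⬝ᵥ h) : ℂ) *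
          (ZMod.stdAddChar ((2 * t) * (y ⬝ᵥ (S *ᵥ z))) : ℂ) := by
      intro y
      rw [conj_char', mul_sum, ← Equiv.sum_comp (Equiv.addRight y)]
      refine sum_congr rfl fun z _ => ?_
      rw [Equiv.coe_addRight, ← AddChar.map_add_eq_mul, ← AddChar.map_add_eq_mul]
      congr 1
      have := qf_add S hS b c z y
      rw [add_dotProduct]
      linear_combination t * this
    rw [sum_congr rfl (fun y _ => e1 y), sum_comm]
    refine sum_congr rfl fun z _ => ?_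
    rw [mul_sum]
  have h3 : ∀ z : Fin r → ZMod p, z ≠ 0 →
      ∑ y : Fin r → ZMod p, (ZMod.stdAddChar ((2 * t) * (y ⬝ᵥ (S *ᵥ z))) : ℂ) = 0 := by
    intro z hz
    refine sum_dot (mul_ne_zero h2 ht) ?_
    intro h4
    exact hz (eq_zero_of_mulVec_eq_zero hd h4)
  have h5 : EE S b c t h * (starRingEnd ℂ) (EE S b c t h) = ((p : ℝ) ^ r : ℝ) := by
    rw [h1, sum_eq_single 0]
    · simp [ZMod.card]
    · intro z _ hz
      rw [h3 z hz, mul_zero]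
    · intro h6
      exact absurd (mem_univ _) h6
  rw [Complex.mul_conj, Complex.normSq_eq_norm_sq] at h5
  exact_mod_cast h5

lemma EE_le (S : Matrix (Fin r) (Fin r) (ZMod p)) (hS : Sᵀ = S) (hd : S.det ≠ 0)
    (b : Fin r → ZMod p) (c t : ZMod p) (h2 : (2 : ZMod p) ≠ 0) (ht : t ≠ 0) (h : Fin r → ZMod p) :
    ‖EE S b c t h‖ ≤ (p : ℝ) ^ ((r : ℝ) / 2) := by
  have hp0 : (0 : ℝ) < p := by exact_mod_cast (Fact.out : p.Prime).pos
  have h1 := EE_norm S hS hd b c t h2 ht h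
  have h3 : ((p : ℝ) ^ ((r : ℝ) / 2)) ^ 2 = (p : ℝ) ^ r := by
    rw [← Real.rpow_natCast, ← Real.rpow_mul hp0.le, ← Real.rpow_natCast]
    congr 1
    push_cast
    ring
  rw [← h3] at h1
  exact le_of_eq ((sq_eq_sq₀ (norm_nonneg _) (by positivity)).1 h1)

/-- the points of the quadric -/
noncomputable def Qd (S : Matrix (Fin r) (Fin r) (ZMod p)) (b : Fin r → ZMod p) (c : ZMod p) :
    Finset (Fin r → ZMod p) := univ.filter (fun x => qf S b c x = 0)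

lemma Qd_sum (S : Matrix (Fin r) (Fin r) (ZMod p)) (hS : Sᵀ = S) (hd : S.det ≠ 0)
    (b : Fin r → ZMod p) (c : ZMod p) (h2 : (2 : ZMod p) ≠ 0) (h : Fin r → ZMod p) :
    ‖(p : ℂ) * ∑ x ∈ Qd S b c, (ZMod.stdAddChar (x ⬝ᵥ h) : ℂ) -
      ∑ x : Fin r → ZMod p, (ZMod.stdAddChar (x ⬝ᵥ h) : ℂ)‖ ≤ p * (p : ℝ) ^ ((r : ℝ) / 2) := by
  classical
  have e1 : (p : ℂ) * ∑ x ∈ Qd S b c, (ZMod.stdAddChar (x ⬝ᵥ h) : ℂ) = ∑ t : ZMod p, EE S b c t h := by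
    unfold EE Qd
    rw [sum_comm, mul_sum, sum_filter]
    refine sum_congr rfl fun x _ => ?_
    have e2 : ∀ t : ZMod p, (ZMod.stdAddChar (t * qf S b c x + x ⬝ᵥ h) : ℂ) =
        (ZMod.stdAddChar (qf S b c x * t) : ℂ) * (ZMod.stdAddChar (x ⬝ᵥ h) : ℂ) := by
      intro t
      rw [AddChar.map_add_eq_mul, mul_comm t]
    rw [sum_congr rfl (fun t _ => e2 t), ← sum_mul]
    split_ifs with h0
    · rw [h0]
      simp [ZMod.card]
    · rw [sum_char_all h0, zero_mul]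
  have e3 : EE S b c 0 h = ∑ x : Fin r → ZMod p, (ZMod.stdAddChar (x ⬝ᵥ h) : ℂ) := by
    unfold EE
    simp
  rw [e1, ← add_sum_erase univ _ (mem_univ (0 : ZMod p)), e3, add_sub_cancel_left]
  refine (norm_sum_le _ _).trans ?_
  refine (sum_le_sum (fun t ht => EE_le S hS hd b c t h2 (ne_of_mem_erase ht) h)).trans ?_
  rw [sum_const, nsmul_eq_mul]
  apply mul_le_mul_of_nonneg_right _ (by positivity)
  have : (univ.erase (0 : ZMod p)).card ≤ p := by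
    refine (card_erase_le).trans ?_
    rw [card_univ, ZMod.card]
  exact_mod_cast this

end quadric

/-- **quadratic congruences** -/
theorem quadmain (r : ℕ) (hr : 3 ≤ r) (ε : ℝ) (hε : 0 < ε) (hε1 : ε ≤ 1) :
    ∃ κ : ℝ, 0 < κ ∧ ∃ p₀ : ℕ, ∀ p : ℕ, p₀ ≤ p → p.Prime →
    ∀ (S : Matrix (Fin r) (Fin r) ℤ) (b : Fin r → ℤ) (c : ℤ), Sᵀ = S → ¬ (p : ℤ) ∣ S.det →
    ∀ A N : Fin r → ℕ, (∀ j, A j + N j ≤ p) → (∀ j, (p : ℝ) ^ ε ≤ N j) →
      (p : ℝ) ^ ((r : ℝ) / 2 + 1 + ε) ≤ ∏ j, (N j : ℝ) →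
      ∃ G : Finset (Fin r → ℕ),
        (∏ j, (N j : ℝ)) * (p : ℝ) ^ (-1 - ε) ≤ G.card ∧
        ∀ z ∈ G, (∀ j, A j ≤ z j ∧ z j < A j + N j) ∧
          (p : ℤ) ∣ ∑ i, ∑ j, S i j * z i * z j + ∑ i, b i * z i + c ∧
          ∀ j, ∀ q : ℕ, q.Prime → κ * ff p < |(q : ℝ) - z j| := by
  classical
  have : Nonempty (Fin r) := ⟨⟨0, by omega⟩⟩
  obtain ⟨κ, hκ, p₁, h⟩ := primeSet (Fin r) (ε / 2) (by positivity) (by linarith)
  have e2 := (tendsto_natCast_atTop_atTop (R := ℝ)).eventually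
    ((tendsto_rpow_atTop (show (0 : ℝ) < ε / 2 by positivity)).eventually_ge_atTop 2)
  obtain ⟨p₂, hp₂⟩ := e2.exists_forall_of_atTop
  refine ⟨κ, hκ, max (max p₁ p₂) 4, ?_⟩
  intro p hp0 hp S b c hS hd A N hAN hN hW
  have : Fact p.Prime := ⟨hp⟩
  have hpe := hp₂ p ((le_max_right _ _).trans ((le_max_left _ _).trans hp0))
  have hp4 : 4 ≤ p := (le_max_right _ _).trans hp0
  have hp0' : (0 : ℝ) < p := by exact_mod_cast hp.pos
  have hp1 : (1 : ℝ) ≤ p := by exact_mod_cast hp.one_lt.le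
  have hp4' : (4 : ℝ) ≤ p := by exact_mod_cast hp4
  have hmono : ∀ x y : ℝ, x ≤ y → (p : ℝ) ^ x ≤ (p : ℝ) ^ y := fun x y h =>
    Real.rpow_le_rpow_of_exponent_le hp1 h
  have h2 : (2 : ZMod p) ≠ 0 := by
    intro h2
    have h3 : ((2 : ℕ) : ZMod p) = 0 := by exact_mod_cast h2
    rw [ZMod.natCast_eq_zero_iff] at h3
    have := Nat.le_of_dvd (by norm_num) h3
    omega
  set S' : Matrix (Fin r) (Fin r) (ZMod p) := S.map (fun z : ℤ => (z : ZMod p)) with hS'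
  have hST : S'ᵀ = S' := by
    rw [hS', ← transpose_map, hS]
  have hSd : S'.det ≠ 0 := by
    intro h3
    apply hd
    rw [← ZMod.intCast_zmod_eq_zero_iff_dvd, Int.cast_det]
    exact h3
  set b' : Fin r → ZMod p := fun j => (b j : ZMod p) with hb'
  set c' : ZMod p := (c : ZMod p) with hc'
  have hr3 : (3 : ℝ) ≤ r := by exact_mod_cast hr
  -- the number of points
  have hcard : (p : ℝ) ^ ((r : ℝ) - 1) / 2 ≤ (Qd S' b' c').card := by
    have g1 := Qd_sum S' hST hSd b' c' h2 0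
    simp only [dotProduct_zero, AddChar.map_zero_eq_one, sum_const, nsmul_eq_mul, mul_one, card_univ,
      Fintype.card_fun, ZMod.card, Fintype.card_fin] at g1
    have g2 : (p : ℂ) * ((Qd S' b' c').card : ℂ) - ((p ^ r : ℕ) : ℂ) =
        (((p : ℝ) * (Qd S' b' c').card - (p : ℝ) ^ r : ℝ) : ℂ) := by
      push_cast
      ring
    rw [g2, Complex.norm_real, Real.norm_eq_abs] at g1
    have g3 := (abs_le.1 g1).1
    have g4 : (p : ℝ) ^ r = p * (p : ℝ) ^ ((r : ℝ) - 1) := by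
      rw [← Real.rpow_natCast, mul_comm, ← Real.rpow_add_one hp0'.ne']
      congr 1
      ring
    have g5 : (p : ℝ) ^ ((r : ℝ) / 2) * 2 ≤ (p : ℝ) ^ ((r : ℝ) - 1) := by
      have g6 : (2 : ℝ) ≤ (p : ℝ) ^ ((1 : ℝ) / 2) := by
        rw [← Real.sqrt_eq_rpow]
        apply Real.le_sqrt_of_sq_le
        linarith
      calc (p : ℝ) ^ ((r : ℝ) / 2) * 2 ≤ (p : ℝ) ^ ((r : ℝ) / 2) * (p : ℝ) ^ ((1 : ℝ) / 2) :=
            mul_le_mul_of_nonneg_left g6 (by positivity)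
        _ = (p : ℝ) ^ ((r : ℝ) / 2 + 1 / 2) := by rw [← Real.rpow_add hp0']
        _ ≤ _ := hmono _ _ (by linarith)
    rw [g4] at g3
    have g7 : (p : ℝ) * ((p : ℝ) ^ ((r : ℝ) - 1) / 2) ≤ p * (Qd S' b' c').card := by nlinarith
    exact le_of_mul_le_mul_left g7 hp0'
  have hPN : 0 ≤ ∏ j, (N j : ℝ) := by positivity
  have hpr : (p : ℝ) ^ r = (p : ℝ) ^ ((r : ℝ) - 1) * p := by
    rw [← Real.rpow_add_one hp0'.ne', ← Real.rpow_natCast]
    congr 1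
    ring
  obtain ⟨G, hG1, hG2⟩ := h p ((le_max_left _ _).trans ((le_max_left _ _).trans hp0)) (Qd S' b' c')
    ((p : ℝ) ^ ((r : ℝ) / 2)) (by positivity) (by
      intro h0 hh0
      have g1 := Qd_sum S' hST hSd b' c' h2 h0
      have g2 : ∑ x : Fin r → ZMod p, (ZMod.stdAddChar (x ⬝ᵥ h0) : ℂ) = 0 := by
        have := sum_dot (p := p) (t := 1) one_ne_zero hh0
        simpa using this
      rw [g2, sub_zero, norm_mul, Complex.norm_natCast] at g1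
      have g3 := le_of_mul_le_mul_left g1 hp0'
      refine le_trans (le_of_eq ?_) g3
      congr 1
      refine sum_congr rfl fun x _ => ?_
      congr 1
      rw [dotProduct]
      exact sum_congr rfl fun j _ => mul_comm _ _)
    A N hAN (fun j => (hmono _ _ (by linarith)).trans (hN j)) (by
      rw [Fintype.card_fin, hpr]
      have e3 : (p : ℝ) ^ ((r : ℝ) / 2 + 1 + ε) =
          (p : ℝ) ^ ((r : ℝ) / 2) * p * ((p : ℝ) ^ (ε / 2) * (p : ℝ) ^ (ε / 2)) := by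
        rw [← Real.rpow_add hp0', ← Real.rpow_add_one hp0'.ne', ← Real.rpow_add hp0']
        congr 1
        ring
      rw [e3] at hW
      have e4 := mul_le_mul hW hcard (by positivity) hPN
      refine le_trans ?_ e4
      have : 0 ≤ (p : ℝ) ^ ((r : ℝ) / 2) * p * (p : ℝ) ^ (ε / 2) * (p : ℝ) ^ ((r : ℝ) - 1) := by positivity
      nlinarith)
  refine ⟨G, ?_, ?_⟩
  · refine le_trans ?_ hG1
    rw [Fintype.card_fin, hpr]
    have e6 : (p : ℝ) ^ (-1 - ε) = (p : ℝ)⁻¹ * ((p : ℝ) ^ (-(ε / 2)) * (p : ℝ) ^ (-(ε / 2))) := by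
      rw [← Real.rpow_add hp0', ← Real.rpow_neg_one, ← Real.rpow_add hp0']
      congr 1
      ring
    have e7 : 2 * (p : ℝ) ^ (-(ε / 2)) ≤ 1 := by
      rw [Real.rpow_neg hp0'.le, mul_inv_le_iff₀ (by positivity), one_mul]
      exact hpe
    have e8 : (p : ℝ)⁻¹ * (p : ℝ) ^ (-(ε / 2)) ≤
        (Qd S' b' c').card / ((p : ℝ) ^ ((r : ℝ) - 1) * p) := by
      rw [le_div_iff₀ (by positivity)]
      calc (p : ℝ)⁻¹ * (p : ℝ) ^ (-(ε / 2)) * ((p : ℝ) ^ ((r : ℝ) - 1) * p) =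
          (2 * (p : ℝ) ^ (-(ε / 2))) * ((p : ℝ) ^ ((r : ℝ) - 1) / 2) := by
            field_simp
        _ ≤ 1 * ((p : ℝ) ^ ((r : ℝ) - 1) / 2) := mul_le_mul_of_nonneg_right e7 (by positivity)
        _ ≤ _ := by rw [one_mul]; exact hcard
    rw [e6]
    calc (∏ j, (N j : ℝ)) * ((p : ℝ)⁻¹ * ((p : ℝ) ^ (-(ε / 2)) * (p : ℝ) ^ (-(ε / 2)))) =
        (∏ j, (N j : ℝ)) * ((p : ℝ)⁻¹ * (p : ℝ) ^ (-(ε / 2))) * (p : ℝ) ^ (-(ε / 2)) := by ring
      _ ≤ (∏ j, (N j : ℝ)) * ((Qd S' b' c').card / ((p : ℝ) ^ ((r : ℝ) - 1) * p)) *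
          (p : ℝ) ^ (-(ε / 2)) := by
          apply mul_le_mul_of_nonneg_right _ (by positivity)
          exact mul_le_mul_of_nonneg_left e8 hPN
      _ = _ := by ring
  · intro z hz
    obtain ⟨g1, g2, g3⟩ := hG2 z hz
    refine ⟨g1, ?_, g3⟩
    rw [Qd, mem_filter] at g2
    have g4 := g2.2
    rw [← ZMod.intCast_zmod_eq_zero_iff_dvd]
    rw [← g4]
    unfold qf
    simp only [dotProduct, mulVec, hS', hb', hc', Int.cast_add, Int.cast_sum, Int.cast_mul,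
      Int.cast_natCast, Matrix.map_apply]
    congr 2
    refine sum_congr rfl fun i _ => ?_
    rw [mul_sum]
    exact sum_congr rfl fun j _ => by ring

end Pool.Agent.Q20.RG
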