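import Pool.Agent.Q20.RG.Inv

set_option autoImplicit false

/-! # Matrices of given rank over a prime field -/

namespace Pool.Agent.Q20.RG

open Finset Filter Matrix
open Pool.Agent.W147.PS (ff)
open Pool.Agent.Q46.MH

section rank

variable {p : ℕ} [Fact p.Prime] {m r n : ℕ}

lemma sum_dotI {I : Type} [Fintype I] [DecidableEq I] {w : I → ZMod p} (hw : w ≠ 0) :
    ∑ a : I → ZMod p, (ZMod.stdAddChar (∑ i, a i * w i) : ℂ) = 0 := by
  classical
  obtain ⟨i, hi⟩ := Function.ne_iff.1 hw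
  set v : I → ZMod p := Pi.single i 1 with hv
  have h1 : ∑ a : I → ZMod p, (ZMod.stdAddChar (∑ i, a i * w i) : ℂ) =
      (ZMod.stdAddChar (w i) : ℂ) * ∑ a : I → ZMod p, (ZMod.stdAddChar (∑ i, a i * w i) : ℂ) := by
    rw [mul_sum, ← Equiv.sum_comp (Equiv.addRight v)]
    refine sum_congr rfl fun a _ => ?_
    rw [← AddChar.map_add_eq_mul, Equiv.coe_addRight]
    congr 1
    have e1 : ∀ j, (a + v) j * w j = a j * w j + v j * w j := fun j => by
      rw [Pi.add_apply]
      ring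
    rw [sum_congr rfl (fun j _ => e1 j), sum_add_distrib]
    have e2 : ∑ j, v j * w j = w i := by
      rw [sum_eq_single i]
      · rw [hv, Pi.single_eq_same, one_mul]
      · intro j _ hj
        rw [hv, Pi.single_eq_of_ne hj, zero_mul]
      · intro h
        exact absurd (mem_univ i) h
    rw [e2]
    ring
  have h2 : (ZMod.stdAddChar (w i) : ℂ) ≠ 1 := char_ne_one hi
  have h3 : (1 - (ZMod.stdAddChar (w i) : ℂ)) *
      ∑ a : I → ZMod p, (ZMod.stdAddChar (∑ i, a i * w i) : ℂ) = 0 := by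
    rw [sub_mul, one_mul, ← h1, sub_self]
  rcases mul_eq_zero.1 h3 with h4 | h4
  · exact absurd (sub_eq_zero.1 h4).symm h2
  · exact h4

/-- the linearly independent `r`-tuples of vectors -/
noncomputable def LI (p m r : ℕ) [Fact p.Prime] : Finset (Fin r → Fin m → ZMod p) := by
  classical exact univ.filter (fun Y => LinearIndependent (ZMod p) Y)

lemma mem_LI {Y : Fin r → Fin m → ZMod p} : Y ∈ LI p m r ↔ LinearIndependent (ZMod p) Y := by
  classical
  rw [LI, mem_filter, and_iff_right (mem_univ _)]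

lemma card_LI (hrm : r ≤ m) : (p : ℝ) ^ (m * r) ≤ 2 ^ r * (LI p m r).card := by
  classical
  have hpp : p.Prime := Fact.out
  have hp2 : (2 : ℝ) ≤ p := by exact_mod_cast hpp.two_le
  have h0 : Module.finrank (ZMod p) (Fin m → ZMod p) = m := Module.finrank_fin_fun _
  have h1 : Nat.card { s : Fin r → (Fin m → ZMod p) // LinearIndependent (ZMod p) s } =
      ∏ i : Fin r, (p ^ m - p ^ (i : ℕ)) := by
    have := card_linearIndependent (K := ZMod p) (V := Fin m → ZMod p) (k := r) (by rw [h0]; exact hrm)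
    rw [this, h0, ZMod.card]
  have h2 : (LI p m r).card = ∏ i : Fin r, (p ^ m - p ^ (i : ℕ)) := by
    rw [← h1, Nat.card_eq_fintype_card, Fintype.card_subtype]
    rfl
  rw [h2]
  push_cast
  have e1 : (2 : ℝ) ^ r = ∏ _i : Fin r, (2 : ℝ) := by rw [prod_const, card_univ, Fintype.card_fin]
  have e2 : (p : ℝ) ^ (m * r) = ∏ _i : Fin r, (p : ℝ) ^ m := by
    rw [prod_const, card_univ, Fintype.card_fin, pow_mul]
  rw [e1, e2, ← prod_mul_distrib]
  refine prod_le_prod (fun _ _ => by positivity) fun i _ => ?_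
  rw [Nat.cast_sub (Nat.pow_le_pow_right hpp.pos (by have := i.2; omega))]
  push_cast
  have e3 : (p : ℝ) ^ (i : ℕ) ≤ (p : ℝ) ^ (m - 1) := pow_le_pow_right₀ (by linarith) (by have := i.2; omega)
  have e4 : (p : ℝ) ^ m = (p : ℝ) ^ (m - 1) * p := by
    rw [← pow_succ]
    congr 1
    have := i.2
    omega
  have e5 : (0 : ℝ) < (p : ℝ) ^ (m - 1) := by positivity
  nlinarith

/-- the family of matrices of rank `r` whose first columns are independent -/
def xr (Y : Fin r → Fin m → ZMod p) (Z : Fin r × Fin n → ZMod p) :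
    Fin m × (Fin r ⊕ Fin n) → ZMod p :=
  fun z => match z.2 with
    | Sum.inl c => Y c z.1
    | Sum.inr b => ∑ c, Z (c, b) * Y c z.1

lemma pair_xr (h : Fin m × (Fin r ⊕ Fin n) → ZMod p) (Y : Fin r → Fin m → ZMod p)
    (Z : Fin r × Fin n → ZMod p) :
    ∑ j, h j * xr Y Z j = ∑ a, ∑ c, h (a, Sum.inl c) * Y c a +
      ∑ z : Fin r × Fin n, Z z * ∑ a, h (a, Sum.inr z.2) * Y z.1 a := by
  rw [Fintype.sum_prod_type]
  have h1 : ∀ a, ∑ y, h (a, y) * xr Y Z (a, y) = ∑ c, h (a, Sum.inl c) * Y c a +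
      ∑ z : Fin r × Fin n, Z z * (h (a, Sum.inr z.2) * Y z.1 a) := by
    intro a
    rw [Fintype.sum_sum_type, Fintype.sum_prod_type, sum_comm (γ := Fin r)]
    congr 1
    refine sum_congr rfl fun b _ => ?_
    show h (a, Sum.inr b) * ∑ c, Z (c, b) * Y c a = _
    rw [mul_sum]
    exact sum_congr rfl fun c _ => by ring
  rw [sum_congr rfl (fun a _ => h1 a), sum_add_distrib]
  congr 1
  rw [sum_comm]
  exact sum_congr rfl fun z _ => by rw [mul_sum]

/-- the linear functional of the rows -/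
lemma row_sum (g : Fin m → Fin r → ZMod p) (k : Fin m) :
    ‖∑ Y ∈ LI p m r, (ZMod.stdAddChar (∑ a, ∑ c, g a c * Y c a) : ℂ)‖ ≤
      ((LI p m r).filter (fun Y => del k (fun l => ∑ c, g k c * Y c l) = 0)).card := by
  classical
  have hp0 : (0 : ℝ) < (p : ℝ) ^ m := by
    have : (0 : ℝ) < p := by exact_mod_cast (Fact.out : p.Prime).pos
    positivity
  set S : ℂ := ∑ Y ∈ LI p m r, (ZMod.stdAddChar (∑ a, ∑ c, g a c * Y c a) : ℂ) with hS
  set u : (Fin m → ZMod p) → (Fin m → ZMod p) →ₗ[ZMod p] (Fin m → ZMod p) :=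
    fun t => (E k t).vecMulLinear with hu
  have huv : ∀ t v, u t v = v ᵥ* E k t := fun t v => rfl
  have hinv : ∀ t v, u (-t) (u t v) = v := by
    intro t v
    rw [huv, huv, vecMul_vecMul, E_mul, vecMul_one]
  have hinv' : ∀ t v, u t (u (-t) v) = v := by
    intro t v
    rw [huv, huv, vecMul_vecMul, E_mul', vecMul_one]
  have hker : ∀ t, LinearMap.ker (u t) = ⊥ := by
    intro t
    rw [LinearMap.ker_eq_bot]
    intro v w hvw
    rw [← hinv t v, ← hinv t w, hvw]
  have hval : ∀ t v a, u t v a = v a + (del k t ⬝ᵥ v) * (Pi.single k 1 : Fin m → ZMod p) a := by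
    intro t v a
    rw [huv, E, vecMul_add, vecMul_one, Pi.add_apply]
    congr 1
    rw [vecMul, dotProduct, dotProduct, sum_mul]
    exact sum_congr rfl fun i _ => by rw [vecMulVec_apply]; ring
  have h1 : ∀ t : Fin m → ZMod p, ∑ Y ∈ LI p m r,
      (ZMod.stdAddChar (∑ a, ∑ c, g a c * (u t (Y c)) a) : ℂ) = S := by
    intro t
    rw [hS]
    refine sum_nbij' (fun Y c => u t (Y c)) (fun Y c => u (-t) (Y c)) ?_ ?_ ?_ ?_ ?_
    · intro Y hY
      rw [mem_LI] at hY ⊢
      exact hY.map' (u t) (hker t)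
    · intro Y hY
      rw [mem_LI] at hY ⊢
      exact hY.map' (u (-t)) (hker (-t))
    · intro Y _
      funext c
      exact hinv t _
    · intro Y _
      funext c
      exact hinv' t _
    · intro Y _
      rfl
  have hpr : ∀ (t : Fin m → ZMod p) (Y : Fin r → Fin m → ZMod p),
      ∑ a, ∑ c, g a c * (u t (Y c)) a = ∑ a, ∑ c, g a c * Y c a +
        1 * (t ⬝ᵥ del k (fun l => ∑ c, g k c * Y c l)) := by
    intro t Y
    have e1 : ∀ a, ∑ c, g a c * (u t (Y c)) a = ∑ c, g a c * Y c a +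
        (∑ c, g a c * (del k t ⬝ᵥ Y c)) * (Pi.single k 1 : Fin m → ZMod p) a := by
      intro a
      rw [sum_mul, ← sum_add_distrib]
      refine sum_congr rfl fun c _ => ?_
      rw [hval]
      ring
    rw [sum_congr rfl (fun a _ => e1 a), sum_add_distrib]
    congr 1
    rw [sum_eq_single k]
    · rw [Pi.single_eq_same, mul_one, one_mul, dot_del]
      simp only [dotProduct, mul_sum]
      rw [sum_comm]
      exact sum_congr rfl fun l _ => sum_congr rfl fun c _ => by ring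
    · intro a _ ha
      rw [Pi.single_eq_of_ne ha, mul_zero]
    · intro h
      exact absurd (mem_univ k) h
  have h2 : ((p : ℂ) ^ m) * S = ∑ Y ∈ LI p m r,
      (ZMod.stdAddChar (∑ a, ∑ c, g a c * Y c a) : ℂ) *
        ∑ t : Fin m → ZMod p, (ZMod.stdAddChar (1 * (t ⬝ᵥ del k (fun l => ∑ c, g k c * Y c l))) : ℂ) := by
    have e1 : ((p : ℂ) ^ m) * S = ∑ t : Fin m → ZMod p, ∑ Y ∈ LI p m r,
        (ZMod.stdAddChar (∑ a, ∑ c, g a c * (u t (Y c)) a) : ℂ) := by
      rw [sum_congr rfl (fun t _ => h1 t), sum_const, card_univ, nsmul_eq_mul]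
      simp [ZMod.card]
    rw [e1, sum_comm]
    refine sum_congr rfl fun Y _ => ?_
    rw [mul_sum]
    refine sum_congr rfl fun t _ => ?_
    rw [hpr, AddChar.map_add_eq_mul]
  have h3 : ∀ Y ∈ LI p m r, ‖(ZMod.stdAddChar (∑ a, ∑ c, g a c * Y c a) : ℂ) *
        ∑ t : Fin m → ZMod p, (ZMod.stdAddChar (1 * (t ⬝ᵥ del k (fun l => ∑ c, g k c * Y c l))) : ℂ)‖ =
      if del k (fun l => ∑ c, g k c * Y c l) = 0 then (p : ℝ) ^ m else 0 := by
    intro Y _
    rw [norm_mul, norm_char, one_mul]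
    split_ifs with hw
    · rw [hw]
      simp [ZMod.card]
    · rw [sum_dot one_ne_zero hw, norm_zero]
  have h4 : (p : ℝ) ^ m * ‖S‖ ≤ (p : ℝ) ^ m *
      ((LI p m r).filter (fun Y => del k (fun l => ∑ c, g k c * Y c l) = 0)).card := by
    have e1 : (p : ℝ) ^ m * ‖S‖ = ‖((p : ℂ) ^ m) * S‖ := by
      rw [norm_mul, norm_pow, Complex.norm_natCast]
    rw [e1, h2]
    refine (norm_sum_le _ _).trans ?_
    rw [sum_congr rfl h3, ← sum_filter, sum_const, nsmul_eq_mul, mul_comm]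
  exact le_of_mul_le_mul_left h4 hp0

lemma row_count (hr : 1 ≤ r) (hrm : r < m) (g : Fin m → Fin r → ZMod p) (k : Fin m)
    (hk : g k ≠ 0) :
    ((LI p m r).filter (fun Y => del k (fun l => ∑ c, g k c * Y c l) = 0)).card ≤
      p ^ (r * (m - 1)) := by
  classical
  set Kf : Fin m → Finset (Fin r → ZMod p) := fun l =>
    if l = k then univ else univ.filter (fun y => ∑ c, g k c * y c = 0) with hKf
  have h1 : ((LI p m r).filter (fun Y => del k (fun l => ∑ c, g k c * Y c l) = 0)).card ≤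
      ∏ l, (Kf l).card := by
    rw [← Fintype.card_piFinset]
    refine card_le_card_of_injOn (fun Y l c => Y c l) ?_ ?_
    · intro Y hY
      rw [mem_coe, mem_filter] at hY
      rw [mem_coe, Fintype.mem_piFinset]
      intro l
      by_cases hl : l = k
      · simp [hKf, hl]
      · simp only [hKf, if_neg hl, mem_filter, mem_univ, true_and]
        have := congrFun hY.2 l
        rwa [del, if_neg hl, Pi.zero_apply] at this
    · intro Y _ Y' _ h
      funext c l
      exact congrFun (congrFun h l) c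
  refine h1.trans ?_
  rw [← mul_prod_erase univ _ (mem_univ k)]
  have h2 : (Kf k).card ≤ p ^ r := by
    refine (card_le_univ _).trans ?_
    rw [Fintype.card_fun, ZMod.card, Fintype.card_fin]
  have h3 : ∏ l ∈ univ.erase k, (Kf l).card ≤ ∏ _l ∈ univ.erase k, p ^ (r - 1) := by
    refine prod_le_prod' fun l hl => ?_
    simp only [hKf, if_neg (ne_of_mem_erase hl)]
    exact card_one (g k) hk 0
  rw [prod_const, card_erase_of_mem (mem_univ k), card_univ, Fintype.card_fin, ← pow_mul] at h3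
  calc (Kf k).card * ∏ l ∈ univ.erase k, (Kf l).card ≤ p ^ r * p ^ ((r - 1) * (m - 1)) :=
        Nat.mul_le_mul h2 h3
    _ = p ^ (r + (r - 1) * (m - 1)) := by rw [pow_add]
    _ ≤ _ := by
        apply Nat.pow_le_pow_right (Fact.out : p.Prime).pos
        obtain ⟨r', rfl⟩ : ∃ r', r = r' + 1 := ⟨r - 1, by omega⟩
        obtain ⟨m', rfl⟩ : ∃ m', m = m' + 1 := ⟨m - 1, by omega⟩
        simp only [Nat.add_sub_cancel]
        nlinarith

lemma rank_sum (hr : 1 ≤ r) (hrm : r < m) (h : Fin m × (Fin r ⊕ Fin n) → ZMod p) (hh : h ≠ 0) :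
    ‖∑ i ∈ LI p m r ×ˢ (univ : Finset (Fin r × Fin n → ZMod p)),
      (ZMod.stdAddChar (∑ j, h j * xr i.1 i.2 j) : ℂ)‖ ≤ (p : ℝ) ^ (r * n + r * (m - 1)) := by
  classical
  have hp0 : (0 : ℝ) < p := by exact_mod_cast (Fact.out : p.Prime).pos
  set W : (Fin r → Fin m → ZMod p) → Fin r × Fin n → ZMod p :=
    fun Y z => ∑ a, h (a, Sum.inr z.2) * Y z.1 a with hW
  have h1 : ∑ i ∈ LI p m r ×ˢ (univ : Finset (Fin r × Fin n → ZMod p)),
      (ZMod.stdAddChar (∑ j, h j * xr i.1 i.2 j) : ℂ) =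
      ∑ Y ∈ LI p m r, (ZMod.stdAddChar (∑ a, ∑ c, h (a, Sum.inl c) * Y c a) : ℂ) *
        ∑ Z : Fin r × Fin n → ZMod p, (ZMod.stdAddChar (∑ z, Z z * W Y z) : ℂ) := by
    rw [sum_product]
    refine sum_congr rfl fun Y _ => ?_
    rw [mul_sum]
    refine sum_congr rfl fun Z _ => ?_
    rw [pair_xr, AddChar.map_add_eq_mul]
  have hcZ : Fintype.card (Fin r × Fin n → ZMod p) = p ^ (r * n) := by
    rw [Fintype.card_fun, ZMod.card, Fintype.card_prod, Fintype.card_fin, Fintype.card_fin]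
  have h2 : ∀ Y, ∑ Z : Fin r × Fin n → ZMod p, (ZMod.stdAddChar (∑ z, Z z * W Y z) : ℂ) =
      if W Y = 0 then (p : ℂ) ^ (r * n) else 0 := by
    intro Y
    split_ifs with h0
    · rw [h0]
      simp only [Pi.zero_apply, mul_zero, sum_const_zero, AddChar.map_zero_eq_one, sum_const, card_univ,
        hcZ, nsmul_eq_mul, mul_one]
      push_cast
      rfl
    · exact sum_dotI h0
  rw [h1]
  by_cases hc : ∃ a0 b0, h (a0, Sum.inr b0) ≠ 0
  · obtain ⟨a0, b0, hab⟩ := hc
    have h3 : ∀ Y ∈ LI p m r, ‖(ZMod.stdAddChar (∑ a, ∑ c, h (a, Sum.inl c) * Y c a) : ℂ) *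
        ∑ Z : Fin r × Fin n → ZMod p, (ZMod.stdAddChar (∑ z, Z z * W Y z) : ℂ)‖ =
        if W Y = 0 then (p : ℝ) ^ (r * n) else 0 := by
      intro Y _
      rw [h2, norm_mul, norm_char, one_mul]
      split_ifs
      · rw [norm_pow, Complex.norm_natCast]
      · exact norm_zero
    refine (norm_sum_le _ _).trans ?_
    rw [sum_congr rfl h3, ← sum_filter, sum_const, nsmul_eq_mul, pow_add, mul_comm]
    apply mul_le_mul_of_nonneg_left _ (by positivity)
    have h4 : ((LI p m r).filter (fun Y => W Y = 0)).card ≤ p ^ (r * (m - 1)) := by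
      set v : Fin m → ZMod p := fun a => h (a, Sum.inr b0) with hv
      have hv0 : v ≠ 0 := fun h0 => hab (congrFun h0 a0)
      have e1 : ((LI p m r).filter (fun Y => W Y = 0)).card ≤
          ∏ _c : Fin r, (univ.filter (fun x : Fin m → ZMod p => ∑ a, v a * x a = 0)).card := by
        rw [← Fintype.card_piFinset]
        refine card_le_card ?_
        intro Y hY
        rw [mem_filter] at hY
        rw [Fintype.mem_piFinset]
        intro c
        rw [mem_filter]
        exact ⟨mem_univ _, congrFun hY.2 (c, b0)⟩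
      refine e1.trans ?_
      rw [prod_const, card_univ, Fintype.card_fin]
      calc _ ≤ (p ^ (m - 1)) ^ r := Nat.pow_le_pow_left (card_one v hv0 0) r
        _ = p ^ (r * (m - 1)) := by rw [← pow_mul, mul_comm]
    exact_mod_cast h4
  · push Not at hc
    have hW0 : ∀ Y, W Y = 0 := by
      intro Y
      funext z
      exact sum_eq_zero fun a _ => by rw [hc, zero_mul]
    obtain ⟨⟨k, y⟩, hz⟩ := Function.ne_iff.1 hh
    obtain ⟨c0, hc0⟩ : ∃ c0, h (k, Sum.inl c0) ≠ 0 := by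
      rcases y with c0 | b0
      · exact ⟨c0, hz⟩
      · exact absurd (hc k b0) hz
    have hk : (fun c => h (k, Sum.inl c)) ≠ 0 := fun h0 => hc0 (congrFun h0 c0)
    have h3 : ∑ Y ∈ LI p m r, (ZMod.stdAddChar (∑ a, ∑ c, h (a, Sum.inl c) * Y c a) : ℂ) *
        ∑ Z : Fin r × Fin n → ZMod p, (ZMod.stdAddChar (∑ z, Z z * W Y z) : ℂ) =
        (∑ Y ∈ LI p m r, (ZMod.stdAddChar (∑ a, ∑ c, h (a, Sum.inl c) * Y c a) : ℂ)) *
          (p : ℂ) ^ (r * n) := by
      rw [sum_mul]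
      refine sum_congr rfl fun Y _ => ?_
      rw [h2, if_pos (hW0 Y)]
    rw [h3, norm_mul, norm_pow, Complex.norm_natCast, pow_add, mul_comm]
    apply mul_le_mul_of_nonneg_left _ (by positivity)
    have h4 := (row_sum (fun a c => h (a, Sum.inl c)) k).trans
      (Nat.cast_le.2 (row_count hr hrm (fun a c => h (a, Sum.inl c)) k hk))
    refine h4.trans (le_of_eq ?_)
    push_cast
    rfl

lemma xr_rank (Y : Fin r → Fin m → ZMod p) (hY : LinearIndependent (ZMod p) Y)
    (Z : Fin r × Fin n → ZMod p) :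
    (Matrix.of (fun a j => xr Y Z (a, j)) : Matrix (Fin m) (Fin r ⊕ Fin n) (ZMod p)).rank = r := by
  have hYr : (Matrix.of Y : Matrix (Fin r) (Fin m) (ZMod p)).rank = r := by
    have := LinearIndependent.rank_matrix (M := (Matrix.of Y : Matrix (Fin r) (Fin m) (ZMod p))) hY
    rwa [Fintype.card_fin] at this
  apply le_antisymm
  · have e1 : (Matrix.of (fun a j => xr Y Z (a, j)) : Matrix (Fin m) (Fin r ⊕ Fin n) (ZMod p)) =
        (Matrix.of Y)ᵀ * (Matrix.of (fun c j => match j with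
          | Sum.inl c' => if c = c' then 1 else 0
          | Sum.inr b => Z (c, b)) : Matrix (Fin r) (Fin r ⊕ Fin n) (ZMod p)) := by
      ext a j
      rw [mul_apply]
      rcases j with c' | b
      · simp [xr]
      · simp only [xr, of_apply, transpose_apply]
        exact sum_congr rfl fun c _ => by ring
    rw [e1]
    refine (rank_mul_le_left _ _).trans ?_
    rw [rank_transpose, hYr]
  · have e1 : ((Matrix.of (fun a j => xr Y Z (a, j)) : Matrix (Fin m) (Fin r ⊕ Fin n) (ZMod p)).submatrix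
        id Sum.inl) = (Matrix.of Y)ᵀ := by
      ext a c
      rfl
    have e2 := rank_submatrix_le (Matrix.of (fun a j => xr Y Z (a, j)) :
      Matrix (Fin m) (Fin r ⊕ Fin n) (ZMod p)) id Sum.inl
    rw [e1, rank_transpose, hYr] at e2
    exact e2

lemma xr_inj (Y Y' : Fin r → Fin m → ZMod p) (hY : LinearIndependent (ZMod p) Y)
    (Z Z' : Fin r × Fin n → ZMod p) (h : xr Y Z = xr Y' Z') : Y = Y' ∧ Z = Z' := by
  have h1 : Y = Y' := by
    funext c a
    exact congrFun h (a, Sum.inl c)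
  subst h1
  refine ⟨rfl, ?_⟩
  rw [Fintype.linearIndependent_iff] at hY
  funext z
  obtain ⟨c, b⟩ := z
  have h2 : ∑ c, (Z (c, b) - Z' (c, b)) • Y c = 0 := by
    funext a
    have h3 : ∑ c, Z (c, b) * Y c a = ∑ c, Z' (c, b) * Y c a := congrFun h (a, Sum.inr b)
    rw [Finset.sum_apply, Pi.zero_apply]
    simp only [Pi.smul_apply, smul_eq_mul, sub_mul, sum_sub_distrib]
    rw [h3, sub_self]
  exact sub_eq_zero.1 (hY _ h2 c)

end rank

/-- **matrices of a given rank modulo `p`** -/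
theorem rankmain (m n r : ℕ) (hr : 1 ≤ r) (hrm : r < m) (hrn : r ≤ n) (ε : ℝ) (hε : 0 < ε)
    (hε1 : ε ≤ 1) :
    ∃ κ : ℝ, 0 < κ ∧ ∃ p₀ : ℕ, ∀ p : ℕ, p₀ ≤ p → p.Prime →
    ∀ A N : Fin m → Fin n → ℕ, (∀ a b, A a b + N a b ≤ p) → (∀ a b, (p : ℝ) ^ ε ≤ N a b) →
      (p : ℝ) ^ ((m : ℝ) * n - r + ε) ≤ ∏ a, ∏ b, (N a b : ℝ) →
      ∃ G : Finset (Matrix (Fin m) (Fin n) ℕ),
        (∏ a, ∏ b, (N a b : ℝ)) * (p : ℝ) ^ (-(((m : ℝ) - r) * ((n : ℝ) - r)) - ε) ≤ G.card ∧
        ∀ Z ∈ G, (∀ a b, A a b ≤ Z a b ∧ Z a b < A a b + N a b) ∧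
          (Z.map (fun z : ℕ => (z : ZMod p))).rank = r ∧
          ∀ a b, ∀ q : ℕ, q.Prime → κ * ff p < |(q : ℝ) - Z a b| := by
  classical
  obtain ⟨n', rfl⟩ : ∃ n', n = r + n' := ⟨n - r, by omega⟩
  have : Nonempty (Fin m × (Fin r ⊕ Fin n')) := ⟨(⟨0, by omega⟩, Sum.inl ⟨0, by omega⟩)⟩
  obtain ⟨κ, hκ, p₁, h⟩ := primeJ (Fin m × (Fin r ⊕ Fin n')) (ε / 2) (by positivity) (by linarith)
  have e2 := (tendsto_natCast_atTop_atTop (R := ℝ)).eventually
    ((tendsto_rpow_atTop (show (0 : ℝ) < ε / 2 by positivity)).eventually_ge_atTop (2 ^ r))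
  obtain ⟨p₂, hp₂⟩ := e2.exists_forall_of_atTop
  refine ⟨κ, hκ, max p₁ p₂, ?_⟩
  intro p hp0 hp A N hAN hN hW
  have : Fact p.Prime := ⟨hp⟩
  have hpe := hp₂ p ((le_max_right _ _).trans hp0)
  have hp0' : (0 : ℝ) < p := by exact_mod_cast hp.pos
  have hp1 : (1 : ℝ) ≤ p := by exact_mod_cast hp.one_lt.le
  have hmono : ∀ x y : ℝ, x ≤ y → (p : ℝ) ^ x ≤ (p : ℝ) ^ y := fun x y h =>
    Real.rpow_le_rpow_of_exponent_le hp1 h
  have hm1 : 1 ≤ m := by omega
  set e : Fin r ⊕ Fin n' ≃ Fin (r + n') := finSumFinEquiv with he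
  set Ω := LI p m r ×ˢ (univ : Finset (Fin r × Fin n' → ZMod p)) with hΩ
  have hΩc : (p : ℝ) ^ (m * r + r * n') ≤ 2 ^ r * Ω.card := by
    have h1 := card_LI (p := p) (m := m) (r := r) hrm.le
    rw [hΩ, card_product, card_univ, Fintype.card_fun, ZMod.card, Fintype.card_prod,
      Fintype.card_fin, Fintype.card_fin]
    push_cast
    rw [pow_add, ← mul_assoc]
    exact mul_le_mul_of_nonneg_right h1 (by positivity)
  have hΩ0 : (0 : ℝ) ≤ Ω.card := Nat.cast_nonneg _
  have hcardJ : Fintype.card (Fin m × (Fin r ⊕ Fin n')) = m * (r + n') := by simp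
  set P : ℝ := ∏ a, ∏ b, (N a b : ℝ) with hP
  have hPN : 0 ≤ P := by positivity
  have hprod : ∏ z : Fin m × (Fin r ⊕ Fin n'), (N z.1 (e z.2) : ℝ) = P := by
    rw [Fintype.prod_prod_type, hP]
    refine prod_congr rfl fun a _ => ?_
    exact Equiv.prod_comp e (fun b => (N a b : ℝ))
  have key := h p ((le_max_left _ _).trans hp0) _ Ω (fun i => xr i.1 i.2)
    ((p : ℝ) ^ (r * n' + r * (m - 1))) (by positivity) (fun h0 hh0 => rank_sum hr hrm h0 hh0)
    (fun z => A z.1 (e z.2)) (fun z => N z.1 (e z.2)) (fun z => hAN _ _)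
    (fun z => (hmono _ _ (by linarith)).trans (hN _ _)) (by
      rw [hprod, hcardJ]
      have e3 : (p : ℝ) ^ ((m : ℝ) * ((r + n' : ℕ) : ℝ) - r + ε) * (p : ℝ) ^ (m * r + r * n') =
          ((p : ℝ) ^ (r * n' + r * (m - 1)) * (p : ℝ) ^ (ε / 2) * (p : ℝ) ^ (m * (r + n'))) *
            (p : ℝ) ^ (ε / 2) := by
        rw [← Real.rpow_natCast, ← Real.rpow_natCast, ← Real.rpow_natCast, ← Real.rpow_add hp0',
          ← Real.rpow_add hp0', ← Real.rpow_add hp0', ← Real.rpow_add hp0']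
        congr 1
        push_cast [Nat.cast_sub hm1]
        ring
      have e4 : (p : ℝ) ^ ((m : ℝ) * ((r + n' : ℕ) : ℝ) - r + ε) * (p : ℝ) ^ (m * r + r * n') ≤
          P * (2 ^ r * Ω.card) := mul_le_mul hW hΩc (by positivity) hPN
      rw [e3] at e4
      have e5 : (2 : ℝ) ^ r * ((p : ℝ) ^ (r * n' + r * (m - 1)) * (p : ℝ) ^ (ε / 2) *
          (p : ℝ) ^ (m * (r + n'))) ≤ (2 : ℝ) ^ r * (P * Ω.card) := by
        calc _ = ((p : ℝ) ^ (r * n' + r * (m - 1)) * (p : ℝ) ^ (ε / 2) *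
              (p : ℝ) ^ (m * (r + n'))) * 2 ^ r := by ring
          _ ≤ ((p : ℝ) ^ (r * n' + r * (m - 1)) * (p : ℝ) ^ (ε / 2) *
              (p : ℝ) ^ (m * (r + n'))) * (p : ℝ) ^ (ε / 2) :=
              mul_le_mul_of_nonneg_left hpe (by positivity)
          _ ≤ _ := e4
          _ = _ := by ring
      exact le_of_mul_le_mul_left e5 (by positivity))
  set good := goodJ (κ * ff p) Ω (fun i z => (xr i.1 i.2 z).val)
    (fun z : Fin m × (Fin r ⊕ Fin n') => A z.1 (e z.2)) (fun z => N z.1 (e z.2)) with hgood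
  refine ⟨good.image (fun i => Matrix.of fun a b => (xr i.1 i.2 (a, e.symm b)).val), ?_, ?_⟩
  · rw [card_image_of_injOn]
    · refine le_trans ?_ key
      rw [hprod, hcardJ]
      have e6 : (p : ℝ) ^ (-(((m : ℝ) - r) * (((r + n' : ℕ) : ℝ) - r)) - ε) =
          ((p : ℝ) ^ (m * (r + n')))⁻¹ * (p : ℝ) ^ (m * r + r * n') *
            ((p : ℝ) ^ (-(ε / 2)) * (p : ℝ) ^ (-(ε / 2))) := by
        rw [← Real.rpow_natCast, ← Real.rpow_neg hp0'.le, ← Real.rpow_natCast, ← Real.rpow_add hp0',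
          ← Real.rpow_add hp0', ← Real.rpow_add hp0']
        congr 1
        push_cast
        ring
      have e7 : (2 : ℝ) ^ r * (p : ℝ) ^ (-(ε / 2)) ≤ 1 := by
        rw [Real.rpow_neg hp0'.le, mul_inv_le_iff₀ (by positivity), one_mul]
        exact hpe
      have e8 : (p : ℝ) ^ (m * r + r * n') * (p : ℝ) ^ (-(ε / 2)) ≤ Ω.card := by
        calc (p : ℝ) ^ (m * r + r * n') * (p : ℝ) ^ (-(ε / 2)) ≤
            (2 ^ r * Ω.card) * (p : ℝ) ^ (-(ε / 2)) := mul_le_mul_of_nonneg_right hΩc (by positivity)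
          _ = ((2 : ℝ) ^ r * (p : ℝ) ^ (-(ε / 2))) * Ω.card := by ring
          _ ≤ 1 * Ω.card := mul_le_mul_of_nonneg_right e7 hΩ0
          _ = _ := one_mul _
      rw [e6]
      calc P * (((p : ℝ) ^ (m * (r + n')))⁻¹ * (p : ℝ) ^ (m * r + r * n') *
            ((p : ℝ) ^ (-(ε / 2)) * (p : ℝ) ^ (-(ε / 2)))) =
          ((p : ℝ) ^ (m * r + r * n') * (p : ℝ) ^ (-(ε / 2))) *
            (P * ((p : ℝ) ^ (m * (r + n')))⁻¹ * (p : ℝ) ^ (-(ε / 2))) := by ring
        _ ≤ Ω.card * (P * ((p : ℝ) ^ (m * (r + n')))⁻¹ * (p : ℝ) ^ (-(ε / 2))) :=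
            mul_le_mul_of_nonneg_right e8 (by positivity)
        _ = _ := by ring
    · intro i hi j hj hij
      rw [mem_coe, hgood, mem_goodJ, hΩ, mem_product] at hi hj
      have h1 : xr i.1 i.2 = xr j.1 j.2 := by
        funext z
        obtain ⟨a, b⟩ := z
        have := congrFun (congrFun hij a) (e b)
        simp only [of_apply, Equiv.symm_apply_apply] at this
        exact ZMod.val_injective p this
      obtain ⟨h2, h3⟩ := xr_inj _ _ (mem_LI.1 hi.1.1) _ _ h1
      exact Prod.ext h2 h3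
  · intro M hM
    obtain ⟨i, hi, rfl⟩ := mem_image.1 hM
    obtain ⟨h1, h2⟩ := mem_goodJ.1 hi
    rw [hΩ, mem_product] at h1
    refine ⟨fun a b => ?_, ?_, fun a b => ?_⟩
    · have := mem_Ico.1 (h2 (a, e.symm b)).1
      simpa using this
    · have e1 : ((Matrix.of fun a b => (xr i.1 i.2 (a, e.symm b)).val).map (fun z : ℕ => (z : ZMod p)) :
          Matrix (Fin m) (Fin (r + n')) (ZMod p)) =
          (Matrix.of (fun a j => xr i.1 i.2 (a, j)) : Matrix (Fin m) (Fin r ⊕ Fin n') (ZMod p)).submatrix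
            (Equiv.refl _) e.symm := by
        ext a b
        simp
      rw [e1, rank_submatrix]
      exact xr_rank _ (mem_LI.1 h1.1) _
    · exact (h2 (a, e.symm b)).2

end Pool.Agent.Q20.RG
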